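import Pool.Agent.MP_755d6b_an.H27.Spec

/-!
# The algebra of the relations
-/

namespace Pool.Agent.MP_755d6b_an.H27

namespace AlgP

variable {Q : Type} [Ring Q] [StarRing Q] [Algebra ℂ Q] [StarModule ℂ Q]

section Tens

variable {X Y : StarSubalgebra ℂ Q} (h : ∀ a ∈ X, ∀ b ∈ Y, Commute b a) {a a' b b' : Q}

theorem cm_mem (ha : a ∈ X) (ha' : a' ∈ X) : cm a a' ∈ X :=
  mul_mem (mul_mem (mul_mem ha ha') (star_mem ha)) (star_mem ha')

include h

theorem sp_mul (a b' : Q) (ha' : a' ∈ X) (hb : b ∈ Y) : a * b * (a' * b') = a * a' * (b * b') :=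
  (h a' ha' b hb).mul_mul_mul_comm a b'

theorem sp_star (ha : a ∈ X) (hb : b ∈ Y) : star (a * b) = star a * star b := by
  rw [star_mul, (h _ (star_mem ha) _ (star_mem hb)).eq]

theorem sp_conj (ha : a ∈ X) (ha' : a' ∈ X) (hb : b ∈ Y) (hb' : b' ∈ Y) :
    a * b * (a' * b') * star (a * b) = a * a' * star a * (b * b' * star b) := by
  rw [sp_star h ha hb, sp_mul h _ _ ha' hb, sp_mul h _ _ (star_mem ha) (mul_mem hb hb')]

theorem sp_cm (ha : a ∈ X) (ha' : a' ∈ X) (hb : b ∈ Y) (hb' : b' ∈ Y) :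
    cm (a * b) (a' * b') = cm a a' * cm b b' := by
  rw [cm, sp_conj h ha ha' hb hb', sp_star h ha' hb',
    sp_mul h _ _ (star_mem ha') (mul_mem (mul_mem hb hb') (star_mem hb)), cm, cm]

theorem sp_p5 (ha : a ∈ X) (hb : b ∈ Y) : p5 (a * b) = p5 a * p5 b := by
  rw [p5, sp_mul h _ _ ha hb, sp_mul h _ _ ha (mul_mem hb hb),
    sp_mul h _ _ ha (mul_mem (mul_mem hb hb) hb),
    sp_mul h _ _ ha (mul_mem (mul_mem (mul_mem hb hb) hb) hb), p5, p5]

theorem sp_ph {u v : Fin 3 → Q} (hu : ∀ i, u i ∈ X) (hv : ∀ i, v i ∈ Y) (i : Fin 3) :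
    ph (fun j => u j * v j) i = ph u i * ph v i ∧ ph v i ∈ Y := by
  fin_cases i
  · exact ⟨rfl, hv 0⟩
  · exact ⟨rfl, hv 1⟩
  · refine ⟨?_, cm_mem (cm_mem (hv 2) (hv 0)) (cm_mem (hv 1) (hv 2))⟩
    change cm (cm (u 2 * v 2) (u 0 * v 0)) (cm (u 1 * v 1) (u 2 * v 2)) =
      cm (cm (u 2) (u 0)) (cm (u 1) (u 2)) * cm (cm (v 2) (v 0)) (cm (v 1) (v 2))
    rw [sp_cm h (hu 2) (hu 0) (hv 2) (hv 0), sp_cm h (hu 1) (hu 2) (hv 1) (hv 2),
      sp_cm h (cm_mem (hu 2) (hu 0)) (cm_mem (hu 1) (hu 2)) (cm_mem (hv 2) (hv 0))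
        (cm_mem (hv 1) (hv 2))]

theorem prod_sol {ω : ℂ} {x u : Fin 5 → Q} (hx : ∀ i, x i ∈ X) (hu : ∀ i, u i ∈ Y)
    (sx : Sol ω x) (su : Sol 1 u) (h4 : u 4 = 1) : Sol ω fun i => x i * u i := by
  have e1 : c1 (fun i => x i * u i) = c1 x := by
    rw [c1, sp_conj h (hx 3) (hx 4) (hu 3) (hu 4), h4, mul_one, sub_eq_zero.1 (su (.u2 3)),
      mul_one, c1]
  have e2 : c2 (fun i => x i * u i) = c2 x := by
    have h1 : c1 x ∈ X := mul_mem (mul_mem (hx 3) (hx 4)) (star_mem (hx 3))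
    rw [c2, e1, ← mul_one (c1 x), sp_conj h (hx 2) h1 (hu 2) (one_mem Y), mul_one,
      sub_eq_zero.1 (su (.u2 2)), mul_one, c2]
  intro j
  cases j with
  | u1 i =>
    rw [relv, sp_star h (hx i) (hu i), sp_mul h _ _ (hx i) (star_mem (hu i)),
      sub_eq_zero.1 (sx (.u1 i)), sub_eq_zero.1 (su (.u1 i)), mul_one, sub_self]
  | u2 i =>
    rw [relv, sp_star h (hx i) (hu i), sp_mul h _ _ (star_mem (hx i)) (hu i),
      sub_eq_zero.1 (sx (.u2 i)), sub_eq_zero.1 (su (.u2 i)), mul_one, sub_self]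
  | pw i =>
    rw [relv, sp_p5 h (hx _) (hu _), sub_eq_zero.1 (sx (.pw i)), sub_eq_zero.1 (su (.pw i)),
      mul_one, sub_self]
  | h1 i =>
    rw [relv, sp_cm h (hx _) (hx _) (hu _) (hu _), sp_mul h _ _ (hx _) (cm_mem (hu _) (hu _)),
      sp_mul h _ _ (cm_mem (hx _) (hx _)) (hu _), sub_eq_zero.1 (sx (.h1 i)),
      sub_eq_zero.1 (su (.h1 i)), sub_self]
  | h2 i =>
    rw [relv, sp_cm h (hx _) (hx _) (hu _) (hu _), sp_mul h _ _ (hx _) (cm_mem (hu _) (hu _)),
      sp_mul h _ _ (cm_mem (hx _) (hx _)) (hu _), sub_eq_zero.1 (sx (.h2 i)),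
      sub_eq_zero.1 (su (.h2 i)), sub_self]
  | tt i =>
    obtain ⟨e3, e4⟩ := sp_ph h (fun j => hx (ia j)) (fun j => hu (ia j)) i
    rw [relv, e3, sp_mul h _ _ (hx _) (hu _), sp_mul h _ _ (hx _) e4, sub_eq_zero.1 (sx (.tt i)),
      sub_eq_zero.1 (su (.tt i)), sub_self]
  | cc i =>
    rw [relv, sp_mul h _ _ (hx _) (hu _), sp_mul h _ _ (hx _) (hu _), sub_eq_zero.1 (sx (.cc i)),
      sub_eq_zero.1 (su (.cc i)), sub_self]
  | weyl =>
    rw [relv, e1, e2]
    exact sx .weyl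

end Tens

/-- the last variable replaced by one -/
def unit4 (y : Fin 5 → Q) : Fin 5 → Q := ![y 0, y 1, y 2, y 3, 1]

omit [StarRing Q] [Algebra ℂ Q] [StarModule ℂ Q] in
theorem unit4_ia (y : Fin 5 → Q) (i : Fin 3) : unit4 y (ia i) = y (ia i) := by
  fin_cases i <;> rfl

omit [StarModule ℂ Q] in
theorem unit4_sol {ω : ℂ} {y : Fin 5 → Q} (s : Sol ω y) : Sol 1 (unit4 y) := by
  have e1 : c1 (unit4 y) = 1 := by
    change y 3 * 1 * star (y 3) = 1
    rw [mul_one, sub_eq_zero.1 (s (.u2 3))]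
  intro j
  cases j with
  | u1 i =>
    fin_cases i
    exacts [s (.u1 0), s (.u1 1), s (.u1 2), s (.u1 3), by simp [relv, unit4]]
  | u2 i =>
    fin_cases i
    exacts [s (.u2 0), s (.u2 1), s (.u2 2), s (.u2 3), by simp [relv, unit4]]
  | pw i => simpa only [relv, unit4_ia] using s (.pw i)
  | h1 i => simpa only [relv, unit4_ia] using s (.h1 i)
  | h2 i => simpa only [relv, unit4_ia] using s (.h2 i)
  | tt i =>
    simp only [relv, unit4_ia]
    exact s (.tt i)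
  | cc i =>
    change 1 * _ - _ * 1 = (0 : Q)
    rw [one_mul, mul_one, sub_self]
  | weyl => rw [relv, e1, one_smul, one_mul, mul_one, sub_self]

omit [Algebra ℂ Q] [StarModule ℂ Q] in
theorem fix_cm {a b P : Q} (ha : a * P = P ∧ star a * P = P) (hb : b * P = P ∧ star b * P = P) :
    cm a b * P = P ∧ star (cm a b) * P = P := by
  simp only [cm, star_mul, star_star, mul_assoc, ha.1, ha.2, hb.1, hb.2, and_self]

end AlgP

open AlgP

theorem tensSol : TensStmt := by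
  intro Q _ _ _ _ ω ω' x y sx sy hc
  let X := StarSubalgebra.centralizer ℂ (Set.range y)
  let Y := StarSubalgebra.centralizer ℂ (X : Set Q)
  have h : ∀ a ∈ X, ∀ b ∈ Y, Commute b a := fun a ha b hb =>
    (((StarSubalgebra.mem_centralizer_iff ℂ).1 hb a ha).1).symm
  have hx : ∀ i, x i ∈ X := fun i => (StarSubalgebra.mem_centralizer_iff ℂ).2 (by
    rintro _ ⟨j, rfl⟩
    refine ⟨(hc i j).symm, ?_⟩
    calc star (y j) * x i = star (y j) * (x i * y j) * star (y j) := by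
          rw [mul_assoc, mul_assoc, sub_eq_zero.1 (sy (.u2 j)), mul_one]
      _ = x i * star (y j) := by
          rw [hc, ← mul_assoc, sub_eq_zero.1 (sy (.u1 j)), one_mul])
  have hy : ∀ j, y j ∈ Y := fun j => (StarSubalgebra.mem_centralizer_iff ℂ).2 fun g hg =>
    ⟨(((StarSubalgebra.mem_centralizer_iff ℂ).1 hg _ ⟨j, rfl⟩).1).symm,
      (((StarSubalgebra.mem_centralizer_iff ℂ).1 (star_mem hg) _ ⟨j, rfl⟩).1).symm⟩
  have hu : ∀ j, unit4 y j ∈ Y := fun j => by
    fin_cases j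
    exacts [hy 0, hy 1, hy 2, hy 3, one_mem Y]
  have e : tens x y = fun i => x i * unit4 y i := funext fun i => by
    fin_cases i
    exacts [rfl, rfl, rfl, rfl, (mul_one _).symm]
  rw [e]
  exact prod_sol h hx hu sx (unit4_sol sy) rfl

theorem alg : AlgStmt := by
  intro Q _ _ _ _ ω x P hω s hfin hs hP hU hX
  have u1 : ∀ i, star (x i) * x i = 1 := fun i => sub_eq_zero.1 (s (.u1 i))
  have u2 : ∀ i, x i * star (x i) = 1 := fun i => sub_eq_zero.1 (s (.u2 i))
  have hU' : ∀ i, x (ia i) * P = P ∧ star (x (ia i)) * P = P := fun i =>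
    ⟨hU i, by rw [← hU i, ← mul_assoc, u1, one_mul, hU]⟩
  have hF : ∀ i, ph (fun j => x (ia j)) i * P = P := fun i => by
    fin_cases i
    exacts [hU 0, hU 1, (fix_cm (fix_cm (hU' 2) (hU' 0)) (fix_cm (hU' 1) (hU' 2))).1]
  have h1 : P * (star (x 3) * P) = star (x 3) * P := hX _ fun i =>
    calc x (ia i) * (star (x 3) * P) = star (x 3) * (x 3 * x (ia i)) * (star (x 3) * P) := by
          rw [← mul_assoc (star (x 3)), u1, one_mul]
      _ = star (x 3) * (ph (fun j => x (ia j)) i * (x 3 * star (x 3) * P)) := by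
          rw [sub_eq_zero.1 (s (.tt i))]
          simp only [mul_assoc]
      _ = star (x 3) * P := by rw [u2, one_mul, hF]
  have h2 : P * (x 3 * P) = P * x 3 := by
    simpa only [star_mul, star_star, hs, mul_assoc] using congrArg star h1
  have hP' : ∀ z, P * (P * z) = P * z := fun z => by rw [← mul_assoc, hP]
  have u2' : ∀ z, x 3 * (star (x 3) * z) = z := fun z => by rw [← mul_assoc, u2, one_mul]
  have h3 := hfin (star (x 3) * P + (1 - P)) (by
    simp only [star_add, star_mul, star_star, star_sub, star_one, hs, mul_add, add_mul, mul_sub,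
      sub_mul, mul_assoc, mul_one, one_mul, u2', hP, h1, h2]
    abel)
  have h4 : star (x 3) * (P * x 3) = P := by
    simp only [star_add, star_mul, star_star, star_sub, star_one, hs, mul_add, add_mul, mul_sub,
      sub_mul, mul_assoc, mul_one, one_mul, hP, hP'] at h3
    rw [← sub_eq_zero, ← sub_eq_zero.2 h3]
    abel
  have h5 : x 3 * P = P * x 3 := by rw [← u2' (P * x 3), h4]
  have h6 : star (x 3) * P = P * star (x 3) := by
    simpa only [star_mul, hs] using (congrArg star h5).symm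
  have h7 : P * (x 4 * P) = x 4 * P := hX _ fun i => by
    rw [← mul_assoc, ← sub_eq_zero.1 (s (.cc i)), mul_assoc, hU]
  have h8 : P * (c1 x * P) = c1 x * P := by
    simp only [c1, mul_assoc, h6]
    rw [← mul_assoc (x 4), ← mul_assoc P, ← h5, mul_assoc, ← mul_assoc P, h7]
  have h9 : c2 x * P = c1 x * P := by
    have a1 : star (x 2) * P = P := (hU' 2).2
    have a2 : x 2 * P = P := hU 2
    rw [c2, mul_assoc, a1, mul_assoc, ← h8, ← mul_assoc, a2]
  have h10 : c2 x * (c1 x * P) = c1 x * (c1 x * P) := by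
    rw [← h8, ← mul_assoc, h9, mul_assoc]
  have h11 : (1 - ω) • (c1 x * (c1 x * P)) = 0 := by
    have a1 := congrArg (· * P) (sub_eq_zero.1 (s .weyl))
    simp only [mul_assoc, smul_mul_assoc, h9, h10] at a1
    rw [sub_smul, one_smul, ← a1, sub_self]
  have h12 : c1 x * (c1 x * P) = 0 := by
    rw [← inv_smul_smul₀ (sub_ne_zero.2 hω.symm) (c1 x * (c1 x * P)), h11, smul_zero]
  have h13 : ∀ z, star (c1 x) * (c1 x * z) = z := fun z => by
    have v1 : ∀ i z, star (x i) * (x i * z) = z := fun i z => by rw [← mul_assoc, u1, one_mul]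
    simp only [c1, star_mul, star_star, mul_assoc, v1, u2']
  rw [← h13 P, ← h13 (c1 x * P), h12, mul_zero, mul_zero]

end Pool.Agent.MP_755d6b_an.H27
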