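import Pool.Agent.MP_755d6b_an.H27.Spec

/-!
# Row Amp: the two amplifications and the almost invariant vectors
-/

namespace Pool.Agent.MP_755d6b_an.H27

open Filter Topology Pool.Agent.MP_755d6b_an.H98
open scoped InnerProductSpace Classical

namespace AmpP

section Basic

variable {G : Type}

/-- The slice at a fixed second coordinate. -/
def slice (ξ : L2 (G × G)) (h : G) : L2 G :=
  ⟨fun g => ξ (g, h), memL2 ((hasSum_sq ξ).summable.comp_injective (Prod.mk_left_injective h))⟩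

theorem hasSum_slice (ξ : L2 (G × G)) : HasSum (fun h => ‖slice ξ h‖ ^ 2) (‖ξ‖ ^ 2) :=
  ((Equiv.prodComm G G).hasSum_iff.2 (hasSum_sq ξ)).prod_fiberwise fun h => hasSum_sq (slice ξ h)

theorem sq_le (x : L2 G →L[ℂ] L2 G) (ξ : L2 G) : ‖x ξ‖ ^ 2 ≤ ‖x‖ ^ 2 * ‖ξ‖ ^ 2 := by
  rw [← mul_pow]
  exact pow_le_pow_left₀ (norm_nonneg _) (x.le_opNorm ξ) 2

/-- The operator `x ⊗ 1`, as a linear map. -/
noncomputable def Ll (x : L2 G →L[ℂ] L2 G) : L2 (G × G) →ₗ[ℂ] L2 (G × G) where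
  toFun ξ := ⟨fun p => x (slice ξ p.2) p.1, memL2 ((Equiv.prodComm G G).summable_iff.1
    ((summable_prod_of_nonneg fun _ => sq_nonneg _).2
      ⟨fun h => (hasSum_sq (x (slice ξ h))).summable,
        Summable.of_nonneg_of_le (fun _ => tsum_nonneg fun _ => sq_nonneg _)
          (fun h => (hasSum_sq (x (slice ξ h))).tsum_eq.le.trans (sq_le x _))
          ((hasSum_slice ξ).summable.mul_left (‖x‖ ^ 2))⟩))⟩
  map_add' ξ η := L2.ext (funext fun p =>
    congrArg (fun v : L2 G => v p.1) (map_add x (slice ξ p.2) (slice η p.2)))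
  map_smul' c ξ := L2.ext (funext fun p =>
    congrArg (fun v : L2 G => v p.1) (map_smul x c (slice ξ p.2)))

theorem norm_Ll (x : L2 G →L[ℂ] L2 G) (ξ : L2 (G × G)) : ‖Ll x ξ‖ ≤ ‖x‖ * ‖ξ‖ := by
  have := hasSum_le (fun h => sq_le x (slice ξ h)) (hasSum_slice (Ll x ξ))
    ((hasSum_slice ξ).mul_left (‖x‖ ^ 2))
  rw [← mul_pow] at this
  exact (pow_le_pow_iff_left₀ (norm_nonneg _) (by positivity) two_ne_zero).1 this

/-- The operator `x ⊗ 1`. -/
noncomputable def Lc (x : L2 G →L[ℂ] L2 G) : L2 (G × G) →L[ℂ] L2 (G × G) :=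
  (Ll x).mkContinuous ‖x‖ (norm_Ll x)

theorem Lc_apply (x : L2 G →L[ℂ] L2 G) (ξ : L2 (G × G)) (g h : G) :
    Lc x ξ (g, h) = x (slice ξ h) g := rfl

theorem norm_Lc (x : L2 G →L[ℂ] L2 G) : ‖Lc x‖ ≤ ‖x‖ :=
  LinearMap.mkContinuous_norm_le _ (norm_nonneg _) _

theorem slice_dl (g h h' : G) : slice (dl (g, h)) h' = (if h' = h then (1 : ℂ) else 0) • dl g :=
  L2.ext (funext fun a => by
    show dl (g, h) (a, h') = _
    simp only [L2.smul_apply, dl_apply, Prod.mk.injEq]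
    by_cases h1 : a = g <;> by_cases h2 : h' = h <;> simp [h1, h2])

theorem Lc_dl (x : L2 G →L[ℂ] L2 G) (g h g' h' : G) :
    Lc x (dl (g, h)) (g', h') = x (dl g) g' * dl h h' := by
  rw [Lc_apply, slice_dl, map_smul, L2.smul_apply, dl_apply, mul_comm]

theorem star_dl (T : L2 G →L[ℂ] L2 G) (p q : G) :
    (star T) (dl p) q = (starRingEnd ℂ) (T (dl q) p) := by
  rw [← inner_dl q, inner_apply_star, ← inner_conj_symm, inner_dl]

/-- The amplification `x ↦ x ⊗ 1`. -/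
noncomputable def LH : (L2 G →L[ℂ] L2 G) →⋆ₐ[ℂ] (L2 (G × G) →L[ℂ] L2 (G × G)) where
  toFun := Lc
  map_one' := op_ext_apply fun _ _ => rfl
  map_mul' _ _ := op_ext_apply fun _ _ => rfl
  map_zero' := op_ext_apply fun _ _ => rfl
  map_add' _ _ := op_ext_apply fun _ _ => rfl
  commutes' _ := op_ext_apply fun _ _ => rfl
  map_star' x := op_ext_dl fun ⟨g, h⟩ => L2.ext (funext fun ⟨g', h'⟩ => by
    rw [star_dl, Lc_dl, Lc_dl, star_dl, map_mul, dl_apply, dl_apply]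
    by_cases e : h = h' <;> simp [e, eq_comm])

theorem norm_conjL (ξ : L2 G) : ‖conjL ξ‖ ≤ ‖ξ‖ :=
  norm_le_of_pointwise fun x => by simp [conjL_apply]

theorem conjL_add (ξ η : L2 G) : conjL (ξ + η) = conjL ξ + conjL η :=
  L2.ext (funext fun x => by simp [conjL_apply])

theorem conjL_smul (c : ℂ) (ξ : L2 G) : conjL (c • ξ) = (starRingEnd ℂ) c • conjL ξ :=
  L2.ext (funext fun x => by simp [conjL_apply])

theorem conjL_conjL (ξ : L2 G) : conjL (conjL ξ) = ξ :=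
  L2.ext (funext fun x => by simp [conjL_apply])

theorem conjL_dl (g : G) : conjL (dl g) = dl g :=
  L2.ext (funext fun x => by rw [conjL_apply, dl_apply]; split_ifs <;> simp)

theorem norm_bar (y : L2 G →L[ℂ] L2 G) (ξ : L2 G) : ‖conjL (y (conjL ξ))‖ ≤ ‖y‖ * ‖ξ‖ :=
  (norm_conjL _).trans ((y.le_opNorm _).trans
    (mul_le_mul_of_nonneg_left (norm_conjL _) (norm_nonneg _)))

/-- The complex conjugate operator. -/
noncomputable def bar (y : L2 G →L[ℂ] L2 G) : L2 G →L[ℂ] L2 G :=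
  LinearMap.mkContinuous
    { toFun := fun ξ => conjL (y (conjL ξ))
      map_add' := fun ξ η => by rw [conjL_add, map_add, conjL_add]
      map_smul' := fun c ξ => by rw [conjL_smul, map_smul, conjL_smul]; simp } ‖y‖ (norm_bar y)

theorem bar_apply (y : L2 G →L[ℂ] L2 G) (ξ : L2 G) : bar y ξ = conjL (y (conjL ξ)) := rfl

theorem bar_dl (y : L2 G →L[ℂ] L2 G) (g x : G) :
    bar y (dl g) x = (starRingEnd ℂ) (y (dl g) x) := by
  rw [bar_apply, conjL_dl, conjL_apply]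

theorem bar_star (y : L2 G →L[ℂ] L2 G) : bar (star y) = star (bar y) :=
  op_ext_dl fun g => L2.ext (funext fun x => by rw [bar_dl, star_dl, star_dl, bar_dl])

theorem bar_smul (c : ℂ) (y : L2 G →L[ℂ] L2 G) : bar (c • y) = (starRingEnd ℂ) c • bar y :=
  ContinuousLinearMap.ext fun _ => conjL_smul c _

theorem bar_mul (x y : L2 G →L[ℂ] L2 G) : bar (x * y) = bar x * bar y :=
  ContinuousLinearMap.ext fun ξ => by
    simp only [mul_apply_eq_comp, bar_apply, conjL_conjL]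

theorem bar_add (x y : L2 G →L[ℂ] L2 G) : bar (x + y) = bar x + bar y :=
  ContinuousLinearMap.ext fun _ => conjL_add _ _

theorem bar_one : bar (1 : L2 G →L[ℂ] L2 G) = 1 := ContinuousLinearMap.ext conjL_conjL

/-- The flip. -/
noncomputable def sw (G : Type) : L2 (G × G) →L[ℂ] L2 (G × G) := perm (Equiv.prodComm G G)

theorem sw_sw : sw G * sw G = 1 := op_ext_apply fun _ _ => rfl

theorem star_sw : star (sw G) = sw G := star_perm _

theorem sw_dl (g h : G) : sw G (dl (g, h)) = dl (h, g) :=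
  L2.ext (funext fun ⟨a, b⟩ => by
    show dl (g, h) (b, a) = _
    simp only [dl_apply, Prod.mk.injEq, and_comm])

/-- The amplification `y ↦ 1 ⊗ ȳ`. -/
noncomputable def RH : (L2 G →L[ℂ] L2 G) →+* (L2 (G × G) →L[ℂ] L2 (G × G)) :=
  RingHom.mk'
    { toFun := fun y => sw G * LH (bar y) * sw G
      map_one' := by rw [bar_one, map_one, mul_one, sw_sw]
      map_mul' := fun x y => by
        rw [bar_mul, map_mul]
        exact op_ext_apply fun _ _ => rfl }
    fun x y => by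
      show sw G * LH (bar (x + y)) * sw G = sw G * LH (bar x) * sw G + sw G * LH (bar y) * sw G
      rw [bar_add, map_add, mul_add, add_mul]

theorem RH_def (y : L2 G →L[ℂ] L2 G) : RH y = sw G * LH (bar y) * sw G := rfl

theorem RH_apply (y : L2 G →L[ℂ] L2 G) (ξ : L2 (G × G)) (g h : G) :
    RH y ξ (g, h) = bar y (slice (sw G ξ) g) h := rfl

theorem LR_dl (x y : L2 G →L[ℂ] L2 G) (g h g' h' : G) :
    (LH x * RH y) (dl (g, h)) (g', h') = x (dl g) g' * bar y (dl h) h' := by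
  have e : slice (RH y (dl (g, h))) h' = bar y (dl h) h' • dl g := L2.ext (funext fun a => by
    show Lc (bar y) (sw G (dl (g, h))) (h', a) = _
    rw [sw_dl, Lc_dl]; rfl)
  show x (slice (RH y (dl (g, h))) h') g' = _
  rw [e, map_smul, L2.smul_apply, mul_comm]

theorem RL_dl (x y : L2 G →L[ℂ] L2 G) (g h g' h' : G) :
    (RH y * LH x) (dl (g, h)) (g', h') = x (dl g) g' * bar y (dl h) h' := by
  have e : slice (sw G (LH x (dl (g, h)))) g' = x (dl g) g' • dl h :=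
    L2.ext (funext fun a => Lc_dl x g h g' a)
  show bar y (slice (sw G (LH x (dl (g, h)))) g') h' = _
  rw [e, map_smul, L2.smul_apply]

end Basic

variable {G : Type} [Group G]

theorem LH_mem {x : L2 G →L[ℂ] L2 G} (hx : x ∈ LG G) : LH x ∈ LG (G × G) :=
  mem_LG.2 fun ⟨a, b⟩ => op_ext_apply fun ξ ⟨g, h⟩ =>
    congrArg (fun T : L2 G →L[ℂ] L2 G => T (slice ξ (h * b)) g) (mem_LG.1 hx a)

theorem bar_mem {x : L2 G →L[ℂ] L2 G} (hx : x ∈ LG G) : bar x ∈ LG G :=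
  mem_LG.2 fun a => op_ext_apply fun ξ g =>
    congrArg (fun T : L2 G →L[ℂ] L2 G => (starRingEnd ℂ) (T (conjL ξ) g)) (mem_LG.1 hx a)

theorem RH_mem {x : L2 G →L[ℂ] L2 G} (hx : x ∈ LG G) : RH x ∈ LG (G × G) :=
  mem_LG.2 fun ⟨a, b⟩ => op_ext_apply fun ξ ⟨g, h⟩ =>
    congrArg (fun T : L2 G →L[ℂ] L2 G => T (slice (sw G ξ) (g * a)) h) (mem_LG.1 (bar_mem hx) b)

theorem coef {x : L2 G →L[ℂ] L2 G} (hx : x ∈ LG G) (g h : G) :
    x (dl g) h = x (dl 1) (h * g⁻¹) := by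
  have e := congrArg (fun T : L2 G →L[ℂ] L2 G => T (dl 1) h) (mem_LG.1 hx g⁻¹)
  simp only [mul_apply_eq_comp, rho_dl, one_mul, inv_inv, rho_apply] at e
  exact e.symm

omit [Group G] in
theorem inner_diag (F : Finset G) (T : L2 (G × G) →L[ℂ] L2 (G × G)) :
    ⟪∑ g ∈ F, dl (g, g), T (∑ g ∈ F, dl (g, g))⟫_ℂ = ∑ g ∈ F, ∑ h ∈ F, T (dl (g, g)) (h, h) := by
  simp only [map_sum, inner_sum, sum_inner, inner_dl]

theorem vec (F : Finset G) (h1 : (1 : G) ∈ F) (hm : ∀ g ∈ F, ∀ h ∈ F, g * h ∈ F) :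
    ∃ η : L2 (G × G), ‖η‖ = 1 ∧ ∀ x ∈ LG G,
      ∑ k ∈ F, ‖x (dl 1) k‖ ^ 2 ≤ (⟪η, (LH x * RH x) η⟫_ℂ).re := by
  have hc : (0 : ℝ) < F.card := by exact_mod_cast Finset.card_pos.2 ⟨1, h1⟩
  set v : L2 (G × G) := ∑ g ∈ F, dl (g, g) with hv
  have hn : ‖v‖ ^ 2 = F.card := by
    have h2 := inner_diag F 1
    simp only [one_apply_eq_self, dl_apply, Prod.mk.injEq, and_self, Finset.sum_ite_eq',
      inner_self_eq_norm_sq_to_K] at h2
    rw [Finset.sum_congr rfl fun g hg => if_pos hg] at h2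
    have h3 : ((‖v‖ ^ 2 : ℝ) : ℂ) = (F.card : ℝ) := by simpa using h2
    exact_mod_cast h3
  have hv0 : 0 < ‖v‖ := by
    rcases (norm_nonneg v).eq_or_lt with h | h
    · rw [← h] at hn; linarith
    · exact h
  refine ⟨((‖v‖⁻¹ : ℝ) : ℂ) • v, ?_, fun x hx => ?_⟩
  · rw [norm_smul, Complex.norm_real, norm_inv, norm_norm, inv_mul_cancel₀ hv0.ne']
  · have h2 : ∀ g ∈ F, ∑ h ∈ F, (LH x * RH x) (dl (g, g)) (h, h) =
        ((∑ k ∈ F, ‖x (dl 1) k‖ ^ 2 : ℝ) : ℂ) := fun g hg => by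
      have hb : Set.BijOn (fun k => k * g) F F :=
        (F.finite_toSet.injOn_iff_bijOn_of_mapsTo fun k hk => hm k hk g hg).1
          (mul_left_injective g).injOn
      rw [Complex.ofReal_sum]
      refine (Finset.sum_nbij (fun k => k * g) hb.1 hb.2.1 hb.2.2 fun k _ => ?_).symm
      rw [LR_dl, bar_dl, coef hx g, mul_inv_cancel_right,
        Complex.mul_conj, Complex.normSq_eq_norm_sq]
    rw [map_smul, inner_smul_left, inner_smul_right, hv, inner_diag, Finset.sum_congr rfl h2,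
      ← hv, Finset.sum_const, nsmul_eq_mul, Complex.conj_ofReal, ← Complex.ofReal_natCast, ← hn,
      ← Complex.ofReal_mul, ← Complex.ofReal_mul, ← Complex.ofReal_mul, Complex.ofReal_re]
    refine le_of_eq ?_
    field_simp

end AmpP

open AmpP

theorem amp : AmpStmt := by
  intro G _
  refine ⟨LH, RH, fun x => ?_, fun c x => ?_, norm_Lc, fun x => ?_, fun x y => ?_,
    fun x hx => ⟨LH_mem hx, RH_mem hx⟩, fun hG σ hσ ε hε => ?_⟩
  · rw [RH_def, RH_def, bar_star, map_star, star_mul, star_mul, star_sw, mul_assoc]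
  · rw [RH_def, RH_def, bar_smul, map_smul, mul_smul_comm, smul_mul_assoc]
  · refine ContinuousLinearMap.opNorm_le_bound _ (norm_nonneg _) fun ξ => ?_
    refine (norm_perm _ _).le.trans ((norm_Ll _ _).trans ?_)
    exact mul_le_mul (LinearMap.mkContinuous_norm_le _ (norm_nonneg _) _) (norm_perm _ _).le
      (norm_nonneg _) (norm_nonneg _)
  · exact op_ext_dl fun ⟨g, h⟩ => L2.ext (funext fun ⟨g', h'⟩ => by rw [LR_dl, RL_dl])
  · have h1 : ∀ i, ∃ s : Finset G, ‖σ i (dl 1)‖ ^ 2 - ε < ∑ k ∈ s, ‖σ i (dl 1) k‖ ^ 2 := fun i =>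
      ((hasSum_sq (σ i (dl 1))).eventually (lt_mem_nhds (sub_lt_self _ hε))).exists
    choose s hs using h1
    obtain ⟨F, hF, hsF⟩ := hG (Finset.univ.biUnion s)
    obtain ⟨η, hη, h2⟩ := vec hF.toFinset (hF.mem_toFinset.2 F.one_mem) fun g hg h hh =>
      hF.mem_toFinset.2 (F.mul_mem (hF.mem_toFinset.1 hg) (hF.mem_toFinset.1 hh))
    refine ⟨η, hη, fun i => (hs i).le.trans (le_trans ?_ (h2 _ (hσ i)))⟩
    exact Finset.sum_le_sum_of_subset_of_nonneg (fun k hk => hF.mem_toFinset.2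
      (hsF k (Finset.mem_biUnion.2 ⟨i, Finset.mem_univ _, hk⟩))) fun _ _ _ => sq_nonneg _

end Pool.Agent.MP_755d6b_an.H27
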