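import Pool.Agent.MP_755d6b_an.H27.Defs
import Pool.Agent.MP_755d6b_an.H98.UltraProps
import Pool.Agent.MP_755d6b_an.H98.L2

/-!
# Basic facts on terms and formulas
-/

namespace Pool.Agent.MP_755d6b_an.H27

open Filter Topology Pool.Agent.MP_755d6b_an.H98

universe u v

namespace Term

variable {α : Type}

instance : One (Term α) := ⟨.one⟩
instance : Add (Term α) := ⟨.add⟩
instance : Mul (Term α) := ⟨.mul⟩
instance : SMul ℂ (Term α) := ⟨.smul⟩
instance : Star (Term α) := ⟨.star⟩
noncomputable instance : Sub (Term α) := ⟨fun s t => .add s (.smul (-1) t)⟩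

section Eval

variable {A : Type u} [One A] [Add A] [Mul A] [SMul ℂ A] [Star A] (v : α → A)

@[simp] theorem eval_var (i : α) : (var i).eval v = v i := rfl
@[simp] theorem eval_one : (1 : Term α).eval v = 1 := rfl
@[simp] theorem eval_add (s t : Term α) : (s + t).eval v = s.eval v + t.eval v := rfl
@[simp] theorem eval_mul (s t : Term α) : (s * t).eval v = s.eval v * t.eval v := rfl
@[simp] theorem eval_smul (c : ℂ) (t : Term α) : (c • t).eval v = c • t.eval v := rfl
@[simp] theorem eval_star (t : Term α) : (Star.star t).eval v = Star.star (t.eval v) := rfl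

/-- Evaluation commutes with maps that preserve the operations. -/
theorem eval_map {B : Type v} [One B] [Add B] [Mul B] [SMul ℂ B] [Star B] (f : A → B)
    (h1 : f 1 = 1) (ha : ∀ x y, f (x + y) = f x + f y) (hm : ∀ x y, f (x * y) = f x * f y)
    (hs : ∀ (c : ℂ) x, f (c • x) = c • f x) (ht : ∀ x, f (Star.star x) = Star.star (f x))
    (t : Term α) : t.eval (fun i => f (v i)) = f (t.eval v) := by
  induction t with
  | var i => rfl
  | one => exact h1.symm
  | add s t ihs iht => simp only [eval, ihs, iht, ha]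
  | mul s t ihs iht => simp only [eval, ihs, iht, hm]
  | smul c t ih => simp only [eval, ih, hs]
  | star t ih => simp only [eval, ih, ht]

/-- Substitution of terms for the variables. -/
theorem eval_eval {β : Type} (w : β → Term α) (t : Term β) :
    (t.eval w).eval v = t.eval fun i => (w i).eval v :=
  (eval_map w (fun s : Term α => s.eval v) rfl (fun _ _ => rfl) (fun _ _ => rfl) (fun _ _ => rfl)
    (fun _ => rfl) t).symm

end Eval

@[simp] theorem eval_sub {A : Type u} [Ring A] [Module ℂ A] [Star A] (v : α → A) (s t : Term α) :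
    (s - t).eval v = s.eval v - t.eval v := by
  show s.eval v + (-1 : ℂ) • t.eval v = _
  rw [neg_one_smul, sub_eq_add_neg]

theorem eval_hom {A : Type u} {B : Type v} [Ring A] [StarRing A] [Algebra ℂ A] [Ring B]
    [StarRing B] [Algebra ℂ B] (f : A →⋆ₐ[ℂ] B) (v : α → A) (t : Term α) :
    t.eval (fun i => f (v i)) = f (t.eval v) :=
  eval_map v f (map_one f) (map_add f) (map_mul f) (map_smul f) (map_star f) t

theorem eval_mem {A : Type u} [Ring A] [StarRing A] [Algebra ℂ A] [StarModule ℂ A]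
    (S : StarSubalgebra ℂ A) {v : α → A} (hv : ∀ i, v i ∈ S) (t : Term α) : t.eval v ∈ S := by
  induction t with
  | var i => exact hv i
  | one => exact one_mem S
  | add s t ihs iht => exact add_mem ihs iht
  | mul s t ihs iht => exact mul_mem ihs iht
  | smul c t ih => exact S.smul_mem ih c
  | star t ih => exact star_mem ih

/-- A norm bound for the values of a term at contractions. -/
noncomputable def bound : Term α → ℝ
  | .var _ => 1
  | .one => 1
  | .add s t => s.bound + t.bound
  | .mul s t => s.bound * t.bound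
  | .smul c t => ‖c‖ * t.bound
  | .star t => t.bound

variable {H : Type} [NormedAddCommGroup H] [InnerProductSpace ℂ H] [CompleteSpace H]

theorem norm_eval_le {v : α → H →L[ℂ] H} (hv : ∀ i, ‖v i‖ ≤ 1) (t : Term α) :
    ‖t.eval v‖ ≤ t.bound := by
  induction t with
  | var i => exact hv i
  | one => exact ContinuousLinearMap.norm_id_le
  | add s t ihs iht => exact (norm_add_le _ _).trans (add_le_add ihs iht)
  | mul s t ihs iht =>
    exact (norm_mul_le _ _).trans (mul_le_mul ihs iht (norm_nonneg _) ((norm_nonneg _).trans ihs))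
  | smul c t ih =>
    exact (norm_smul_le _ _).trans (mul_le_mul_of_nonneg_left ih (norm_nonneg _))
  | star t ih => exact (norm_star _).le.trans ih

theorem eval_mem_vN {N : VonNeumannAlgebra H} {v : α → H →L[ℂ] H} (hv : ∀ i, v i ∈ N)
    (t : Term α) : t.eval v ∈ N :=
  eval_mem N.toStarSubalgebra hv t

theorem eval_apply {I : Type u} {N : VonNeumannAlgebra H} (v : α → BddS I N) (t : Term α) (i : I) :
    (t.eval v).1 i = t.eval fun j => (v j).1 i :=
  (eval_map v (fun a : BddS I N => a.1 i) rfl (fun _ _ => rfl) (fun _ _ => rfl) (fun _ _ => rfl)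
    (fun _ => rfl) t).symm

end Term

section Forms

variable {A : Type u} [One A] [Add A] [Mul A] [SMul ℂ A] [Star A]

/-- Atomic formulas are bounded on `D`. -/
def Adm (D : Set A) (ν : A → ℝ) : Prop :=
  ∀ (n : ℕ) (t : Term (Fin n)), ∃ C : ℝ, ∀ v : Fin n → A, (∀ i, v i ∈ D) → |ν (t.eval v)| ≤ C

theorem Adm.mono {D D' : Set A} {ν : A → ℝ} (h : Adm D' ν) (hD : D ⊆ D') : Adm D ν :=
  fun n t => (h n t).imp fun _ hC v hv => hC v fun i => hD (hv i)

omit [One A] [Add A] [Mul A] [SMul ℂ A] [Star A] in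
theorem cons_mem {D : Set A} {n : ℕ} {x : A} {v : Fin n → A} (hx : x ∈ D) (hv : ∀ i, v i ∈ D) :
    ∀ i, (Fin.cons x v : Fin (n + 1) → A) i ∈ D :=
  fun i => Fin.cases hx hv i

theorem Form.eval_atom (D : Set A) (ν : A → ℝ) {n : ℕ} (t : Term (Fin n)) (v : Fin n → A) :
    (Form.atom t).eval D ν v = ν (t.eval v) := by rw [Form.eval]

theorem Form.eval_conn (D : Set A) (ν : A → ℝ) {n k : ℕ} (f : C(Fin k → ℝ, ℝ))
    (φ : Fin k → Form n) (v : Fin n → A) :
    (Form.conn k f φ).eval D ν v = f fun i => (φ i).eval D ν v := by rw [Form.eval]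

theorem Form.eval_sup (D : Set A) (ν : A → ℝ) {n : ℕ} (φ : Form (n + 1)) (v : Fin n → A) :
    (Form.sup φ).eval D ν v = ⨆ x : D, φ.eval D ν (Fin.cons (x : A) v) := by rw [Form.eval]

/-- Formulas are bounded on `D`. -/
theorem Adm.bdd {D : Set A} {ν : A → ℝ} (h : Adm D ν) {n : ℕ} (φ : Form n) :
    ∃ B : ℝ, 0 ≤ B ∧ ∀ v : Fin n → A, (∀ i, v i ∈ D) → |φ.eval D ν v| ≤ B := by
  induction φ with
  | atom t =>
    obtain ⟨C, hC⟩ := h _ t
    exact ⟨max C 0, le_max_right _ _, fun v hv => by
      rw [Form.eval_atom]; exact (hC v hv).trans (le_max_left _ _)⟩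
  | conn k f φ ih =>
    choose B hB0 hB using ih
    have hc : IsCompact (Set.univ.pi fun i => Set.Icc (-B i) (B i)) :=
      isCompact_univ_pi fun _ => isCompact_Icc
    obtain ⟨C, hC⟩ := hc.exists_bound_of_continuousOn f.continuous.continuousOn
    refine ⟨max C 0, le_max_right _ _, fun v hv => ?_⟩
    rw [Form.eval_conn]
    exact (hC _ fun i _ => abs_le.1 (hB i v hv)).trans (le_max_left _ _)
  | sup φ ih =>
    obtain ⟨B, hB0, hB⟩ := ih
    refine ⟨B, hB0, fun v hv => ?_⟩
    rw [Form.eval_sup]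
    rcases isEmpty_or_nonempty D with hD | ⟨⟨x⟩⟩
    · simpa using hB0
    · refine abs_le.2 ⟨le_ciSup_of_le ?_ x (abs_le.1 (hB _ (cons_mem x.2 hv))).1,
        Real.iSup_le (fun y => (abs_le.1 (hB _ (cons_mem y.2 hv))).2) hB0⟩
      exact ⟨B, by rintro _ ⟨y, rfl⟩; exact (abs_le.1 (hB _ (cons_mem y.2 hv))).2⟩

theorem Adm.bddAbove {D : Set A} {ν : A → ℝ} (h : Adm D ν) {n : ℕ} (φ : Form (n + 1))
    {v : Fin n → A} (hv : ∀ i, v i ∈ D) :
    BddAbove (Set.range fun x : D => φ.eval D ν (Fin.cons (x : A) v)) := by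
  obtain ⟨B, -, hB⟩ := h.bdd φ
  exact ⟨B, by rintro _ ⟨y, rfl⟩; exact (abs_le.1 (hB _ (cons_mem y.2 hv))).2⟩

/-- Formulas are preserved by maps that preserve the atomic formulas. -/
theorem Form.eval_map {B : Type v} [One B] [Add B] [Mul B] [SMul ℂ B] [Star B] (f : A → B)
    (D : Set A) (ν : A → ℝ) (μ : B → ℝ)
    (hf : ∀ (n : ℕ) (t : Term (Fin n)) (v : Fin n → A),
      μ (t.eval fun i => f (v i)) = ν (t.eval v))
    {n : ℕ} (φ : Form n) (v : Fin n → A) :
    φ.eval (f '' D) μ (fun i => f (v i)) = φ.eval D ν v := by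
  induction φ with
  | atom t => rw [Form.eval_atom, Form.eval_atom, hf]
  | conn k g φ ih => simp only [Form.eval_conn, ih]
  | sup φ ih =>
    rw [Form.eval_sup, Form.eval_sup]
    have h1 : ∀ x : D, φ.eval D ν (Fin.cons (x : A) v) =
        φ.eval (f '' D) μ (Fin.cons (f x) fun i => f (v i)) := fun x => by
      rw [← ih]
      congr 1
      funext i
      exact Fin.cases rfl (fun _ => rfl) i
    simp only [h1]
    have h2 : Function.Surjective fun x : D => (⟨f x, x, x.2, rfl⟩ : f '' D) := by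
      rintro ⟨_, x, hx, rfl⟩
      exact ⟨⟨x, hx⟩, rfl⟩
    exact (h2.iSup_comp fun y : f '' D => φ.eval (f '' D) μ (Fin.cons (y : B) fun i => f (v i))).symm

end Forms

variable {H : Type} [NormedAddCommGroup H] [InnerProductSpace ℂ H] [CompleteSpace H]

theorem adm_ball {N : VonNeumannAlgebra H} {ν : (H →L[ℂ] H) → ℝ} (hν : ∀ x ∈ N, |ν x| ≤ ‖x‖) :
    Adm (ball N) ν := fun _ t =>
  ⟨t.bound, fun _ hv => (hν _ (t.eval_mem_vN fun i => (hv i).1)).trans
    (t.norm_eval_le fun i => (hv i).2)⟩

/-- The families of contractions. -/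
def ballB (I : Type u) (N : VonNeumannAlgebra H) : Set (BddS I N) := {a | ∀ i, ‖a.1 i‖ ≤ 1}

end Pool.Agent.MP_755d6b_an.H27
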