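import Pool.Agent.MP_755d6b_an.H27.Spec

/-!
# Row Cfc: the approximate Kazhdan projection, and almost isometries in a finite algebra
-/

namespace Pool.Agent.MP_755d6b_an.H27

open Filter Topology Pool.Agent.MP_755d6b_an.H98
open scoped InnerProductSpace ComplexOrder

namespace CfcP

/-- The cut-off function. -/
noncomputable def g (l : ℝ) : ℝ := max 0 (min 1 (2 - 40 * l))

/-- The quotient of `1 - g` by the identity. -/
noncomputable def k (l : ℝ) : ℝ := (1 - g l) / max l (1 / 40)

theorem g_cont : Continuous g := by unfold g; fun_prop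

theorem mx_pos (l : ℝ) : 0 < max l (1 / 40) := lt_max_of_lt_right (by norm_num)

theorem k_cont : Continuous k :=
  (continuous_const.sub g_cont).div (by fun_prop) fun l => (mx_pos l).ne'

theorem g_mem (l : ℝ) : 0 ≤ g l ∧ g l ≤ 1 :=
  ⟨le_max_left _ _, max_le zero_le_one (min_le_left _ _)⟩

theorem k_mul (l : ℝ) : k l * l = 1 - g l := by
  rcases le_total l (1 / 40) with h | h
  · have : g l = 1 := by
      rw [g, min_eq_left (by linarith), max_eq_right zero_le_one]
    simp [k, this]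
  · rw [k, max_eq_left h, div_mul_cancel₀]
    exact (lt_of_lt_of_le (by norm_num) h).ne'

theorem k_le (l : ℝ) : ‖k l‖ ≤ 40 := by
  have := g_mem l
  have := le_max_right l (1 / 40)
  rw [k, Real.norm_of_nonneg (div_nonneg (by linarith) (mx_pos l).le), div_le_iff₀ (mx_pos l)]
  linarith

theorem mul_g {l δ : ℝ} (h0 : 0 ≤ l) (hδ : 0 ≤ δ) (h : 0 ≤ l * l - 1 / 10 * l + δ) :
    ‖l * g l‖ ≤ 20 * δ := by
  obtain ⟨g0, g1⟩ := g_mem l
  rw [Real.norm_of_nonneg (mul_nonneg h0 g0)]
  rcases le_total l (1 / 20) with h1 | h1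
  · nlinarith
  · rw [g, max_eq_left (min_le_of_right_le (by linarith)), mul_zero]
    positivity

end CfcP

open CfcP in
theorem cfcGap : CfcStmt := by
  intro H _ _ _ N D s δ hN hD hs h
  have hδ : 0 ≤ δ := (norm_nonneg _).trans h
  have sa : IsSelfAdjoint D := .of_nonneg hD
  have cg := g_cont
  have ck := k_cont
  have e : (1 / 10 : ℂ) • D = (1 / 10 : ℝ) • D := by
    rw [← Complex.coe_smul]
    norm_num
  rw [e] at h
  have h1 : cfc (fun l : ℝ => l * l - 1 / 10 * l + δ) D =
      D * D - (1 / 10 : ℝ) • D + algebraMap ℝ _ δ := by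
    rw [cfc_add D _ _, cfc_sub _ _ D, cfc_mul _ _ D, cfc_const_mul _ _ D, cfc_id' ℝ D,
      cfc_const δ D]
  have sx : IsSelfAdjoint (D * D - (1 / 10 : ℝ) • D - s) :=
    ((((sa.commute_iff sa).1 (Commute.refl D))).sub (IsSelfAdjoint.smul (.all _) sa)).sub
      (.of_nonneg hs)
  have h2 : 0 ≤ D * D - (1 / 10 : ℝ) • D + algebraMap ℝ _ δ := by
    have a := sx.neg_algebraMap_norm_le_self
    have b : algebraMap ℝ (H →L[ℂ] H) ‖D * D - (1 / 10 : ℝ) • D - s‖ ≤ algebraMap ℝ _ δ := by
      rw [← sub_nonneg, ← map_sub, Algebra.algebraMap_eq_smul_one]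
      exact smul_nonneg (sub_nonneg.2 h) zero_le_one
    have c := add_nonneg (add_nonneg (sub_nonneg.2 a) (sub_nonneg.2 b)) hs
    exact c.trans_eq (by abel)
  rw [← h1, cfc_nonneg_iff _ D] at h2
  have h3 : 1 - cfc g D = cfc (fun l => 1 - g l) D := by
    rw [cfc_sub _ _ D, cfc_const_one ℝ D]
  refine ⟨cfc g D, mem_vN_of_commute hN fun y hy => hy.cfc_real g, cfc k D,
    mem_vN_of_commute hN fun y hy => hy.cfc_real k, (cfc_predicate g D : IsSelfAdjoint _),
    norm_cfc_le zero_le_one fun l _ => ?_, norm_cfc_le (by norm_num) fun l _ => k_le l, ?_, ?_, ?_⟩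
  · rw [Real.norm_of_nonneg (g_mem l).1]
    exact (g_mem l).2
  · have : cfc k D * D = cfc (fun l => k l * l) D := by rw [cfc_mul _ _ D, cfc_id' ℝ D]
    rw [h3, this]
    exact cfc_congr fun l _ => (k_mul l).symm
  · have : D * cfc k D = cfc (fun l => l * k l) D := by rw [cfc_mul _ _ D, cfc_id' ℝ D]
    rw [h3, this]
    exact cfc_congr fun l _ => ((mul_comm _ _).trans (k_mul l)).symm
  · have : D * cfc g D = cfc (fun l => l * g l) D := by rw [cfc_mul _ _ D, cfc_id' ℝ D]
    rw [this]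
    exact norm_cfc_le (by positivity) fun l hl =>
      mul_g (spectrum_nonneg_of_nonneg hD hl) hδ (h2 l hl)

theorem finite : FinStmt := by
  intro H _ _ _ N Ω h y hy δ hδ hm
  have o1 : ‖(1 : H →L[ℂ] H)‖ ≤ 1 := ContinuousLinearMap.norm_id_le
  have hδ0 : 0 ≤ δ := (norm_nonneg _).trans hm
  obtain ⟨u, hu⟩ : IsUnit (star y * y) := by
    have := (Units.oneSub (1 - star y * y) (by rw [norm_sub_rev]; linarith)).isUnit
    rwa [Units.val_oneSub, sub_sub_cancel] at this
  obtain ⟨n, a, b, c⟩ : ∃ n, n * (star y * y) = 1 ∧ star y * y * n = 1 ∧ n ∈ N :=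
    ⟨↑u⁻¹, hu ▸ u.inv_mul, hu ▸ u.mul_inv, mem_vN_of_commute (mul_mem (star_mem hy) hy)
      fun z hz => Commute.units_inv_left (hu ▸ hz)⟩
  have sn : star n = n := by
    have := congrArg star b
    rw [star_mul, star_mul, star_star, star_one] at this
    rw [← mul_one (star n), ← b, ← mul_assoc, this, one_mul]
  have n1 : ‖1 - n‖ ≤ 2 * δ := by
    have e : 1 - n = n * (star y * y - 1) := by rw [mul_sub, a, mul_one]
    have k1 := norm_mul_le_of_le (le_refl ‖n‖) hm
    have k2 := norm_sub_le_of_le o1 (le_refl ‖1 - n‖)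
    rw [← e] at k1
    rw [sub_sub_cancel] at k2
    nlinarith [norm_nonneg (1 - n), mul_le_mul_of_nonneg_right k2 hδ0]
  have hn : n * star y ∈ N := mul_mem c (star_mem hy)
  have e1 : 1 - y * (n * star y) = 0 := by
    refine h.isTrace.faithful _ (sub_mem (one_mem N) (mul_mem hy hn)) ?_
    have k1 : star (1 - y * (n * star y)) * (1 - y * (n * star y)) = 1 - y * (n * star y) := by
      have : y * (n * star y) * (y * (n * star y)) = y * (n * (star y * y)) * (n * star y) := by
        simp only [mul_assoc]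
      rw [star_sub, star_one, star_mul, star_mul, star_star, sn, mul_assoc, sub_mul, mul_sub,
        mul_sub, this, a]
      simp
    rw [k1, map_sub, h.isTrace.tracial y hy _ hn, mul_assoc, a, sub_self]
  have e2 : y * star y - 1 = y * (1 - n) * star y := by
    rw [mul_sub, sub_mul, mul_one, mul_assoc, ← sub_eq_zero.1 e1]
  have k1 : ‖y‖ * ‖y‖ ≤ 3 / 2 := by
    have := norm_add_le_of_le hm o1
    rw [sub_add_cancel, CStarRing.norm_star_mul_self] at this
    linarith
  have k2 := norm_mul_le_of_le (norm_mul_le_of_le (le_refl ‖y‖) n1) (norm_star y).le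
  rw [e2]
  nlinarith [mul_le_mul_of_nonneg_right k1 hδ0]

end Pool.Agent.MP_755d6b_an.H27
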