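import Pool.Agent.MP_755d6b_an.H98.Defs

/-!
# Continuous first-order logic for von Neumann algebras

Formulas are built from atomic formulas `ν (p (x₁, …, xₙ))`, with `p` a ⋆-polynomial, by continuous
connectives and by suprema over the operator-norm unit ball. In the tracial language `ν = Re τ`; in
the C⋆-language `ν` is the operator norm.
-/

namespace Pool.Agent.MP_755d6b_an.H27

open Pool.Agent.MP_755d6b_an.H98

universe u

/-- ⋆-polynomials with complex coefficients in noncommuting variables indexed by `α`. -/
inductive Term (α : Type) : Type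
  | var (i : α) : Term α
  | one : Term α
  | add (s t : Term α) : Term α
  | mul (s t : Term α) : Term α
  | smul (c : ℂ) (t : Term α) : Term α
  | star (t : Term α) : Term α

/-- The value of a ⋆-polynomial at a valuation `v` of the variables. -/
def Term.eval {α : Type} {A : Type u} [One A] [Add A] [Mul A] [SMul ℂ A] [Star A] (v : α → A) :
    Term α → A
  | .var i => v i
  | .one => 1
  | .add s t => s.eval v + t.eval v
  | .mul s t => s.eval v * t.eval v
  | .smul c t => c • t.eval v
  | .star t => Star.star (t.eval v)

/-- Formulas of continuous logic in `n` free variables: atomic formulas, arbitrary continuous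
connectives of finite arity, and the quantifier `sup` (the quantifier `inf` is `-sup -`).
Sentences are the formulas in `0` free variables. -/
inductive Form : ℕ → Type
  | atom {n : ℕ} (t : Term (Fin n)) : Form n
  | conn {n : ℕ} (k : ℕ) (f : C(Fin k → ℝ, ℝ)) (φ : Fin k → Form n) : Form n
  | sup {n : ℕ} (φ : Form (n + 1)) : Form n

/-- The value of a formula: the atomic formula of `t` has the value `ν (t v)`, and `sup` ranges
over the set `D`. -/
noncomputable def Form.eval {A : Type u} [One A] [Add A] [Mul A] [SMul ℂ A] [Star A] (D : Set A)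
    (ν : A → ℝ) : {n : ℕ} → Form n → (Fin n → A) → ℝ
  | _, .atom t, v => ν (t.eval v)
  | _, .conn _ f φ, v => f fun i => (φ i).eval D ν v
  | _, .sup φ, v => ⨆ x : D, φ.eval D ν (Fin.cons (x : A) v)

variable {H : Type} [NormedAddCommGroup H] [InnerProductSpace ℂ H] [CompleteSpace H]
  {K : Type} [NormedAddCommGroup K] [InnerProductSpace ℂ K] [CompleteSpace K]

/-- The operator-norm unit ball of `N`. -/
def ball (N : VonNeumannAlgebra H) : Set (H →L[ℂ] H) := {x | x ∈ N ∧ ‖x‖ ≤ 1}

/-- `(N, τ)` and `(M, σ)` have the same theory as tracial von Neumann algebras: every sentence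
whose atomic formulas are real parts of traces of ⋆-polynomials has the same value in both. (The
imaginary part is `Re τ (-i p)` and the metric is `‖x - y‖₂ = (Re τ ((x - y)⋆ (x - y)))^{1/2}`.) -/
def SameTracialTheory (N : VonNeumannAlgebra H) (τ : (H →L[ℂ] H) → ℂ) (M : VonNeumannAlgebra K)
    (σ : (K →L[ℂ] K) → ℂ) : Prop :=
  ∀ φ : Form 0, φ.eval (ball N) (fun x => (τ x).re) ![] = φ.eval (ball M) (fun y => (σ y).re) ![]

/-- `N` and `M` have the same theory as C⋆-algebras: every sentence whose atomic formulas are
operator norms of ⋆-polynomials has the same value in both. -/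
def SameCStarTheory (N : VonNeumannAlgebra H) (M : VonNeumannAlgebra K) : Prop :=
  ∀ φ : Form 0, φ.eval (ball N) (fun x => ‖x‖) ![] = φ.eval (ball M) (fun y => ‖y‖) ![]

/-- `(N, τ)` is hyperfinite: finitely many elements of `N` are approximated in the 2-norm from a
finite-dimensional ⋆-subalgebra of `N`. -/
def IsHyperfinite (N : VonNeumannAlgebra H) (τ : (H →L[ℂ] H) → ℂ) : Prop :=
  ∀ (F : Finset (H →L[ℂ] H)), (∀ x ∈ F, x ∈ N) → ∀ ε : ℝ, 0 < ε →
    ∃ B : StarSubalgebra ℂ (H →L[ℂ] H), B ≤ N.toStarSubalgebra ∧ FiniteDimensional ℂ B ∧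
      ∀ x ∈ F, ∃ b ∈ B, norm2 τ (x - b) ≤ ε

end Pool.Agent.MP_755d6b_an.H27
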