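import Pool.Agent.MP_755d6b_an.H27.Spec

/-!
# Quantifiers may range over a 2-norm dense subset of the ball
-/

namespace Pool.Agent.MP_755d6b_an.H27

open Pool.Agent.MP_755d6b_an.H98
open scoped InnerProductSpace

namespace DenseP

variable {H : Type} [NormedAddCommGroup H] [InnerProductSpace ℂ H] [CompleteSpace H]
  {M : VonNeumannAlgebra H} {Ω : H}

/-- Terms are Lipschitz for the 2-norm on the ball. -/
theorem term_lip (h : IsTV M Ω) {α : Type} (t : Term α) :
    ∃ L : ℝ, 0 ≤ L ∧ ∀ (v w : α → H →L[ℂ] H) (δ : ℝ), 0 ≤ δ → (∀ i, v i ∈ ball M) →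
      (∀ i, w i ∈ ball M) → (∀ i, ‖(v i - w i) Ω‖ ≤ δ) → ‖(t.eval v - t.eval w) Ω‖ ≤ L * δ := by
  induction t with
  | var i => exact ⟨1, zero_le_one, fun v w δ _ _ _ hd => by rw [one_mul]; exact hd i⟩
  | one =>
    refine ⟨0, le_rfl, fun v w δ _ _ _ _ => ?_⟩
    have e : Term.eval v (Term.one : Term α) - Term.eval w Term.one = 0 := sub_self _
    rw [e]; simp
  | add s t ihs iht =>
    obtain ⟨L, hL, hs⟩ := ihs
    obtain ⟨L', hL', ht⟩ := iht
    refine ⟨L + L', add_nonneg hL hL', fun v w δ h0 hv hw hd => ?_⟩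
    have e : (Term.add s t).eval v - (Term.add s t).eval w =
        (s.eval v - s.eval w) + (t.eval v - t.eval w) := by
      show s.eval v + t.eval v - (s.eval w + t.eval w) = _
      abel
    rw [e, add_apply, add_mul]
    exact (norm_add_le _ _).trans (add_le_add (hs v w δ h0 hv hw hd) (ht v w δ h0 hv hw hd))
  | mul s t ihs iht =>
    obtain ⟨L, hL, hs⟩ := ihs
    obtain ⟨L', hL', ht⟩ := iht
    refine ⟨|s.bound| * L' + |t.bound| * L, by positivity, fun v w δ h0 hv hw hd => ?_⟩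
    have e : (Term.mul s t).eval v - (Term.mul s t).eval w =
        s.eval v * (t.eval v - t.eval w) + (s.eval v - s.eval w) * t.eval w := by
      show s.eval v * t.eval v - s.eval w * t.eval w = _
      noncomm_ring
    have h1 : ‖s.eval v‖ ≤ |s.bound| :=
      (s.norm_eval_le fun i => (hv i).2).trans (le_abs_self _)
    have h2 : ‖t.eval w‖ ≤ |t.bound| :=
      (t.norm_eval_le fun i => (hw i).2).trans (le_abs_self _)
    have h3 : ‖(s.eval v) ((t.eval v - t.eval w) Ω)‖ ≤ |s.bound| * (L' * δ) :=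
      ((s.eval v).le_opNorm _).trans
        (mul_le_mul h1 (ht v w δ h0 hv hw hd) (norm_nonneg _) (abs_nonneg _))
    have hm : s.eval v - s.eval w ∈ M :=
      sub_mem (s.eval_mem_vN fun i => (hv i).1) (s.eval_mem_vN fun i => (hw i).1)
    have h4 : ‖(s.eval v - s.eval w) ((t.eval w) Ω)‖ ≤ |t.bound| * (L * δ) :=
      (h.norm_mul_right hm (t.eval_mem_vN fun i => (hw i).1)).trans
        (mul_le_mul h2 (hs v w δ h0 hv hw hd) (norm_nonneg _) (abs_nonneg _))
    rw [e, add_apply]
    refine (norm_add_le _ _).trans ((add_le_add h3 h4).trans (le_of_eq ?_))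
    ring
  | smul c t ih =>
    obtain ⟨L, hL, ht⟩ := ih
    refine ⟨‖c‖ * L, by positivity, fun v w δ h0 hv hw hd => ?_⟩
    have e : (Term.smul c t).eval v - (Term.smul c t).eval w = c • (t.eval v - t.eval w) :=
      (smul_sub c _ _).symm
    rw [e, smul_apply, norm_smul, mul_assoc]
    exact mul_le_mul_of_nonneg_left (ht v w δ h0 hv hw hd) (norm_nonneg _)
  | star t ih =>
    obtain ⟨L, hL, ht⟩ := ih
    refine ⟨L, hL, fun v w δ h0 hv hw hd => ?_⟩
    have e : (Term.star t).eval v - (Term.star t).eval w = star (t.eval v - t.eval w) :=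
      (star_sub _ _).symm
    have hm : t.eval v - t.eval w ∈ M :=
      sub_mem (t.eval_mem_vN fun i => (hv i).1) (t.eval_mem_vN fun i => (hw i).1)
    rw [e, h.norm_star hm]
    exact ht v w δ h0 hv hw hd

theorem abs_re_le (h : IsTV M Ω) (x : H →L[ℂ] H) : |(vecState Ω x).re| ≤ ‖x Ω‖ := by
  refine (Complex.abs_re_le_norm _).trans ?_
  rw [vecState_apply]
  refine (norm_inner_le_norm _ _).trans ?_
  rw [h.norm_one, one_mul]

theorem adm (h : IsTV M Ω) : Adm (ball M) fun x => (vecState Ω x).re :=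
  adm_ball fun x _ => (abs_re_le h x).trans (by
    have := x.le_opNorm Ω
    rwa [h.norm_one, mul_one] at this)

theorem zero_mem_ball (M : VonNeumannAlgebra H) : (0 : H →L[ℂ] H) ∈ ball M :=
  ⟨zero_mem M, by simp⟩

/-- Formulas are uniformly continuous for the 2-norm on the ball. -/
theorem form_uc (h : IsTV M Ω) {n : ℕ} (φ : Form n) :
    ∀ ε : ℝ, 0 < ε → ∃ δ : ℝ, 0 < δ ∧ ∀ v w : Fin n → H →L[ℂ] H, (∀ i, v i ∈ ball M) →
      (∀ i, w i ∈ ball M) → (∀ i, ‖(v i - w i) Ω‖ ≤ δ) →
      |φ.eval (ball M) (fun x => (vecState Ω x).re) v -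
        φ.eval (ball M) (fun x => (vecState Ω x).re) w| ≤ ε := by
  induction φ with
  | atom t =>
    intro ε hε
    obtain ⟨L, hL, ht⟩ := term_lip h t
    have hL1 : 0 < L + 1 := by linarith
    refine ⟨ε / (L + 1), div_pos hε hL1, fun v w hv hw hd => ?_⟩
    rw [Form.eval_atom, Form.eval_atom, ← Complex.sub_re, ← map_sub]
    refine (abs_re_le h _).trans ((ht v w _ (div_pos hε hL1).le hv hw hd).trans ?_)
    rw [← mul_div_assoc, div_le_iff₀ hL1]
    nlinarith
  | conn k f φ ih =>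
    intro ε hε
    choose B hB0 hB using fun i => (adm h).bdd (φ i)
    have hc : IsCompact (Set.univ.pi fun i => Set.Icc (-B i) (B i)) :=
      isCompact_univ_pi fun _ => isCompact_Icc
    have hu := hc.uniformContinuousOn_of_continuous f.continuous.continuousOn
    rw [Metric.uniformContinuousOn_iff_le] at hu
    obtain ⟨η, hη, hf⟩ := hu ε hε
    choose δ hδ0 hδ using fun i => ih i η hη
    have hex : ∃ d : ℝ, 0 < d ∧ ∀ i, d ≤ δ i := by
      rcases isEmpty_or_nonempty (Fin k) with hk | hk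
      · exact ⟨1, one_pos, fun i => (hk.false i).elim⟩
      · obtain ⟨i, hi⟩ := Finite.exists_min δ
        exact ⟨δ i, hδ0 i, hi⟩
    obtain ⟨d, hd0, hd1⟩ := hex
    refine ⟨d, hd0, fun v w hv hw hd => ?_⟩
    rw [Form.eval_conn, Form.eval_conn, ← Real.dist_eq]
    refine hf _ (fun i _ => abs_le.1 (hB i v hv)) _ (fun i _ => abs_le.1 (hB i w hw)) ?_
    rw [dist_pi_le_iff hη.le]
    intro i
    rw [Real.dist_eq]
    exact hδ i v w hv hw fun j => (hd j).trans (hd1 i)
  | sup φ ih =>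
    intro ε hε
    obtain ⟨δ, hδ0, hδ⟩ := ih ε hε
    refine ⟨δ, hδ0, ?_⟩
    have : Nonempty (ball M) := ⟨⟨0, zero_mem_ball M⟩⟩
    have key : ∀ v w : Fin _ → H →L[ℂ] H, (∀ i, v i ∈ ball M) → (∀ i, w i ∈ ball M) →
        (∀ i, ‖(v i - w i) Ω‖ ≤ δ) →
        (Form.sup φ).eval (ball M) (fun x => (vecState Ω x).re) v ≤
          (Form.sup φ).eval (ball M) (fun x => (vecState Ω x).re) w + ε := by
      intro v w hv hw hd
      rw [Form.eval_sup, Form.eval_sup]
      refine ciSup_le fun x => ?_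
      have h1 := hδ (Fin.cons (x : H →L[ℂ] H) v) (Fin.cons (x : H →L[ℂ] H) w) (cons_mem x.2 hv)
        (cons_mem x.2 hw) (fun i => Fin.cases (by simpa using hδ0.le) hd i)
      have h2 := le_ciSup ((adm h).bddAbove φ hw) x
      have h3 := (abs_le.1 h1).2
      linarith
    intro v w hv hw hd
    have h1 := key v w hv hw hd
    have h2 := key w v hw hv fun i => by
      rw [← neg_sub, neg_apply, norm_neg]; exact hd i
    exact abs_le.2 ⟨by linarith, by linarith⟩

end DenseP

open DenseP in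
/-- Quantifiers may range over a 2-norm dense subset of the ball. -/
theorem dense : DenseStmt := by
  intro H _ _ _ M Ω h D hD hden n φ
  induction φ with
  | atom t => intro v _; rw [Form.eval_atom, Form.eval_atom]
  | conn k f φ ih =>
    intro v hv
    rw [Form.eval_conn, Form.eval_conn]
    congr 1
    funext i
    exact ih i v hv
  | sup φ ih =>
    intro v hv
    have : Nonempty (ball M) := ⟨⟨0, zero_mem_ball M⟩⟩
    have : Nonempty D := by
      obtain ⟨x, hx, -⟩ := hden 0 (zero_mem_ball M) 1 one_pos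
      exact ⟨⟨x, hx⟩⟩
    rw [Form.eval_sup, Form.eval_sup]
    have h1 : ∀ x : D, φ.eval D (fun x => (vecState Ω x).re) (Fin.cons (x : H →L[ℂ] H) v) =
        φ.eval (ball M) (fun x => (vecState Ω x).re) (Fin.cons (x : H →L[ℂ] H) v) :=
      fun x => ih _ (cons_mem (hD x.2) hv)
    simp only [h1]
    have hb := (adm h).bddAbove φ hv
    have hle : ∀ x : D, φ.eval (ball M) (fun x => (vecState Ω x).re) (Fin.cons (x : H →L[ℂ] H) v) ≤
        ⨆ y : ball M, φ.eval (ball M) (fun x => (vecState Ω x).re) (Fin.cons (y : H →L[ℂ] H) v) :=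
      fun x => le_ciSup hb ⟨x, hD x.2⟩
    have hb' : BddAbove (Set.range fun x : D =>
        φ.eval (ball M) (fun x => (vecState Ω x).re) (Fin.cons (x : H →L[ℂ] H) v)) :=
      ⟨_, by rintro _ ⟨y, rfl⟩; exact hle y⟩
    refine le_antisymm (ciSup_le hle) (ciSup_le fun T => le_of_forall_pos_le_add fun ε hε => ?_)
    obtain ⟨δ, hδ0, hδ⟩ := form_uc h φ ε hε
    obtain ⟨x, hx, hTx⟩ := hden T T.2 δ hδ0
    have h2 := hδ (Fin.cons (T : H →L[ℂ] H) v) (Fin.cons x v) (cons_mem T.2 hv)
      (cons_mem (hD hx) hv) (fun i => Fin.cases hTx (fun j => by simpa using hδ0.le) i)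
    have h3 := le_ciSup hb' ⟨x, hx⟩
    have h4 := (abs_le.1 h2).2
    linarith

end Pool.Agent.MP_755d6b_an.H27
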