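import Pool.Agent.MP_755d6b_an.H27.Spec

/-!
# Almost unital embeddings of matrix algebras
-/

namespace Pool.Agent.MP_755d6b_an.H27

open Pool.Agent.MP_755d6b_an.H98
open scoped InnerProductSpace

namespace EmbP

variable {Q : Type} [Ring Q] [StarRing Q] [Algebra ℂ Q] [StarModule ℂ Q]
  {Z : Type} [Fintype Z] [DecidableEq Z]

/-- The linear map attached to a system of matrix units. -/
noncomputable def TT (E : Z → Z → Q) : Matrix Z Z ℂ →ₗ[ℂ] Q where
  toFun A := ∑ z, ∑ z', A z z' • E z z'
  map_add' A B := by simp only [Matrix.add_apply, add_smul, Finset.sum_add_distrib]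
  map_smul' c A := by
    simp only [Matrix.smul_apply, smul_eq_mul, mul_smul, RingHom.id_apply, Finset.smul_sum]

omit [StarRing Q] [StarModule ℂ Q] [DecidableEq Z] in
theorem TT_apply (E : Z → Z → Q) (A : Matrix Z Z ℂ) : TT E A = ∑ z, ∑ z', A z z' • E z z' := rfl

omit [StarRing Q] [StarModule ℂ Q] in
theorem TT_mul {E : Z → Z → Q}
    (hm : ∀ a b c d, E a b * E c d = if b = c then E a d else 0) (A B : Matrix Z Z ℂ) :
    TT E (A * B) = TT E A * TT E B := by
  have h : ∀ a b, E a b * TT E B = ∑ d, B b d • E a d := fun a b => by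
    rw [TT_apply, Finset.mul_sum, Finset.sum_eq_single b]
    · simp only [Finset.mul_sum, mul_smul_comm, hm, if_true]
    · intro c _ hc
      simp only [Finset.mul_sum, mul_smul_comm, hm, if_neg hc.symm, smul_zero,
        Finset.sum_const_zero]
    · simp
  rw [TT_apply E A, TT_apply E (A * B), Finset.sum_mul]
  refine Finset.sum_congr rfl fun a _ => ?_
  simp only [Finset.sum_mul, smul_mul_assoc, h, Finset.smul_sum, smul_smul, Matrix.mul_apply,
    Finset.sum_smul]
  exact Finset.sum_comm

omit [DecidableEq Z] in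
theorem TT_star {E : Z → Z → Q} (hs : ∀ a b, star (E a b) = E b a) (A : Matrix Z Z ℂ) :
    TT E (star A) = star (TT E A) := by
  simp only [TT_apply, star_sum, star_smul, hs, Matrix.star_apply]
  exact Finset.sum_comm

/-- The linear map on the product. -/
noncomputable def TL (E : Z → Z → Q) : (Matrix Z Z ℂ × ℂ) →ₗ[ℂ] Q :=
  (TT E).coprod (LinearMap.toSpanSingleton ℂ Q (1 - TT E 1))

omit [StarRing Q] [StarModule ℂ Q] in
theorem TL_apply (E : Z → Z → Q) (y : Matrix Z Z ℂ × ℂ) :
    TL E y = TT E y.1 + y.2 • (1 - TT E 1) := rfl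

/-- The unital embedding. -/
noncomputable def TH (E : Z → Z → Q) (hm : ∀ a b c d, E a b * E c d = if b = c then E a d else 0)
    (hs : ∀ a b, star (E a b) = E b a) : (Matrix Z Z ℂ × ℂ) →⋆ₐ[ℂ] Q :=
  { AlgHom.ofLinearMap (TL E) (by rw [TL_apply]; simp) (fun x y => by
      have h1 : TT E x.1 * (1 - TT E 1) = 0 := by
        rw [mul_sub, mul_one, ← TT_mul hm, mul_one, sub_self]
      have h2 : (1 - TT E 1) * TT E y.1 = 0 := by
        rw [sub_mul, one_mul, ← TT_mul hm, one_mul, sub_self]
      have h3 : (1 - TT E 1) * (1 - TT E 1) = 1 - TT E 1 := by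
        rw [mul_sub, mul_one, sub_mul, one_mul, ← TT_mul hm, one_mul, sub_self, sub_zero]
      simp only [TL_apply, Prod.fst_mul, Prod.snd_mul, add_mul, mul_add, mul_smul_comm,
        smul_mul_assoc, h1, h2, h3, smul_zero, add_zero, zero_add, TT_mul hm, smul_smul,
        mul_comm y.2 x.2]) with
    map_star' := fun x => by
      show TL E (star x) = star (TL E x)
      have h1 : star (TT E 1) = TT E 1 := by rw [← TT_star hs, star_one]
      simp only [TL_apply, Prod.fst_star, Prod.snd_star, star_add, star_smul, star_sub, star_one,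
        h1, TT_star hs] }

theorem TH_apply (E : Z → Z → Q) (hm : ∀ a b c d, E a b * E c d = if b = c then E a d else 0)
    (hs : ∀ a b, star (E a b) = E b a) (y : Matrix Z Z ℂ × ℂ) :
    TH E hm hs y = TT E y.1 + y.2 • (1 - TT E 1) := rfl

omit [Algebra ℂ Q] [StarModule ℂ Q] [Fintype Z] in
theorem units_mul {J : Type} [Fintype J] [DecidableEq J] {f : Z × J → Q} {p : Q}
    (h1 : ∀ y y', f y * star (f y') = if y = y' then p else 0) (h2 : ∀ y, p * f y = f y)
    (a b c d : Z) :
    (∑ j, star (f (a, j)) * f (b, j)) * (∑ j, star (f (c, j)) * f (d, j)) =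
      if b = c then ∑ j, star (f (a, j)) * f (d, j) else 0 := by
  have h3 : ∀ j j', star (f (a, j)) * f (b, j) * (star (f (c, j')) * f (d, j')) =
      if b = c ∧ j = j' then star (f (a, j)) * f (d, j') else 0 := fun j j' => by
    rw [mul_assoc, ← mul_assoc (f (b, j)), h1]
    simp only [Prod.mk.injEq]
    split_ifs
    · rw [h2]
    · rw [zero_mul, mul_zero]
  simp only [Finset.sum_mul, Finset.mul_sum, h3]
  split_ifs with h
  · rw [Finset.sum_comm]
    refine Finset.sum_congr rfl fun j _ => ?_
    simp [h]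
  · simp [h]

end EmbP

open EmbP in
theorem emb (hu : UnitsStmt) : EmbStmt := by
  classical
  intro G _ hG Z _ _ _ ε hε
  obtain ⟨Y, _, _, f, p, b, ⟨k, hk⟩, hf, h1, h2, hb, hb1, hb2⟩ :=
    hu G hG (Fintype.card Z) Fintype.card_pos ε hε
  obtain ⟨e⟩ : Nonempty (Z × Fin k ≃ Y) :=
    ⟨Fintype.equivOfCardEq (by rw [Fintype.card_prod, Fintype.card_fin, hk])⟩
  have h1' : ∀ y y', f (e y) * star (f (e y')) = if y = y' then p else 0 := fun y y' => by
    rw [h1]; simp only [e.injective.eq_iff]
  let E : Z → Z → (L2 G →L[ℂ] L2 G) := fun a c => ∑ j, star (f (e (a, j))) * f (e (c, j))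
  have hm : ∀ a b c d, E a b * E c d = if b = c then E a d else 0 :=
    units_mul (f := fun y => f (e y)) h1' fun y => h2 (e y)
  have hs : ∀ a c, star (E a c) = E c a := fun a c => by
    simp only [E, star_sum, star_mul, star_star]
  have hE : ∀ a c, E a c ∈ LG G := fun a c =>
    sum_mem fun j _ => mul_mem (star_mem (hf _)) (hf _)
  have hT : ∀ A, TT E A ∈ LG G := fun A =>
    sum_mem fun a _ => sum_mem fun c _ => smul_mem_vN _ (hE a c)
  have tE : ∀ a c, vecState (dl (1 : G)) (E a c) = if c = a then (k : ℂ) * b else 0 := fun a c => by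
    have h3 : ∀ j, vecState (dl (1 : G)) (star (f (e (a, j))) * f (e (c, j))) =
        if c = a then (b : ℂ) else 0 := fun j => by
      have : vecState (dl (1 : G)) (star (f (e (a, j))) * f (e (c, j))) =
          vecState (dl (1 : G)) (f (e (c, j)) * star (f (e (a, j)))) :=
        isTV_LG.tr _ (star_mem (hf _)) _ (hf _)
      rw [this, h1']
      simp only [Prod.mk.injEq, and_true]
      split_ifs
      · exact hb
      · exact map_zero _
    simp only [E, map_sum, h3]
    split_ifs <;> simp
  have tT : ∀ A : Matrix Z Z ℂ, vecState (dl (1 : G)) (TT E A) = A.trace * (k * b) := fun A => by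
    simp only [TT_apply, map_sum, map_smul, tE, smul_eq_mul, mul_ite, mul_zero,
      Finset.sum_ite_eq', Finset.mem_univ, if_true, Matrix.trace, Matrix.diag_apply,
      Finset.sum_mul]
  have t1 : vecState (dl (1 : G)) (1 : L2 G →L[ℂ] L2 G) = 1 := by
    rw [vecState_apply, one_apply_eq_self, inner_self_eq_norm_sq_to_K, norm_dl]
    simp
  refine ⟨TH E hm hs, Fintype.card Y * b, hb1, hb2, fun y => ?_, fun A κ => ?_⟩
  · rw [TH_apply]
    exact add_mem (hT _) (smul_mem_vN _ (sub_mem (one_mem _) (hT _)))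
  · have hn : (Fintype.card Z : ℂ) ≠ 0 := Nat.cast_ne_zero.2 Fintype.card_ne_zero
    rw [TH_apply, map_add, map_smul, map_sub, tT, tT, t1, Matrix.trace_one, hk, smul_eq_mul]
    push_cast
    field_simp

end Pool.Agent.MP_755d6b_an.H27
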