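import Pool.Agent.MP_755d6b_an.H27.Spec

/-! Row Grp: the group of finitary permutations. -/

namespace Pool.Agent.MP_755d6b_an.H27

namespace GrpP

/-- The permutations that fix all numbers from `k` on. -/
def Fx (k : ℕ) : Subgroup (Equiv.Perm ℕ) where
  carrier := {s | ∀ n, k ≤ n → s n = n}
  one_mem' _ _ := rfl
  mul_mem' hs ht n hn := by rw [Equiv.Perm.mul_apply, ht n hn, hs n hn]
  inv_mem' hs n hn := Equiv.Perm.inv_eq_iff_eq.2 (hs n hn).symm

theorem Fx_mono {k l : ℕ} (h : k ≤ l) : Fx k ≤ Fx l := fun _ hs n hn => hs n (h.trans hn)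

theorem Fx_lt {k : ℕ} {s : Equiv.Perm ℕ} (hs : s ∈ Fx k) {n : ℕ} (hn : n < k) : s n < k := by
  by_contra h
  have := s.injective (hs (s n) (not_lt.1 h))
  omega

theorem Fx_finite (k : ℕ) : (Fx k : Set (Equiv.Perm ℕ)).Finite := by
  refine Finite.of_injective (β := Fin k → Fin k) (fun s n => ⟨s.1 n, Fx_lt s.2 n.2⟩)
    fun s t h => Subtype.ext (Equiv.ext fun n => ?_)
  by_cases hn : n < k
  · exact congrArg Fin.val (congrFun h ⟨n, hn⟩)
  · rw [s.2 n (not_lt.1 hn), t.2 n (not_lt.1 hn)]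

/-- The finitary permutations. -/
def FS : Subgroup (Equiv.Perm ℕ) where
  carrier := {s | ∃ k, s ∈ Fx k}
  one_mem' := ⟨0, one_mem _⟩
  mul_mem' := fun ⟨k, hk⟩ ⟨l, hl⟩ =>
    ⟨max k l, mul_mem (Fx_mono (le_max_left _ _) hk) (Fx_mono (le_max_right _ _) hl)⟩
  inv_mem' := fun ⟨k, hk⟩ => ⟨k, inv_mem hk⟩

theorem swap_mem (a b : ℕ) : Equiv.swap a b ∈ FS :=
  ⟨a + b + 1, fun n hn => Equiv.swap_apply_of_ne_of_ne (by omega) (by omega)⟩

theorem countable : Countable FS := by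
  have : (FS : Set (Equiv.Perm ℕ)) = ⋃ k, (Fx k : Set (Equiv.Perm ℕ)) := by
    ext s; simp only [Set.mem_iUnion]; rfl
  have h : (FS : Set (Equiv.Perm ℕ)).Countable := by
    rw [this]; exact Set.countable_iUnion fun k => (Fx_finite k).countable
  exact h

theorem infinite : Infinite FS :=
  Infinite.of_injective (fun m : ℕ => (⟨Equiv.swap 0 m, swap_mem 0 m⟩ : FS)) fun m m' h => by
    simpa using congrArg (fun s : FS => s.1 0) h

theorem icc : ICC FS := by
  intro g hg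
  obtain ⟨a, ha⟩ : ∃ a, g.1 a ≠ a := by
    by_contra h
    push Not at h
    exact hg (Subtype.ext (Equiv.ext h))
  have key : ∀ m : ℕ, (((⟨Equiv.swap (g.1 a) (a + 1 + m), swap_mem _ _⟩ : FS)⁻¹ * g *
      ⟨Equiv.swap (g.1 a) (a + 1 + m), swap_mem _ _⟩ : FS) : Equiv.Perm ℕ) a = a + 1 + m := by
    intro m
    change (Equiv.swap (g.1 a) (a + 1 + m))⁻¹ (g.1 (Equiv.swap (g.1 a) (a + 1 + m) a)) = _
    rw [Equiv.swap_apply_of_ne_of_ne ha.symm (by omega), Equiv.swap_inv, Equiv.swap_apply_left]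
  refine Set.infinite_of_injective_forall_mem
    (f := fun m : ℕ => (⟨Equiv.swap (g.1 a) (a + 1 + m), swap_mem _ _⟩ : FS)⁻¹ * g *
      ⟨Equiv.swap (g.1 a) (a + 1 + m), swap_mem _ _⟩) (fun m m' h => ?_) fun m => ⟨_, rfl⟩
  have := congrArg (fun s : FS => s.1 a) h
  simp only [key] at this
  omega

theorem locFin : LocFin FS := by
  intro s
  choose k hk using fun g : FS => g.2
  refine ⟨(Fx (s.sup k)).subgroupOf FS, ?_, fun g hg => Fx_mono (Finset.le_sup hg) (hk g)⟩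
  exact Set.Finite.preimage (f := (Subtype.val : FS → Equiv.Perm ℕ))
    Subtype.val_injective.injOn (Fx_finite (s.sup k))

theorem hasFin : HasFin FS := by
  intro F _
  obtain ⟨n, ⟨e⟩⟩ := Finite.exists_equiv_fin F
  let ι : F ↪ ℕ := e.toEmbedding.trans Fin.valEmbedding
  refine ⟨(Equiv.Perm.viaEmbeddingHom ι).codRestrict FS fun s => ⟨n, fun m hm => ?_⟩,
    fun s t h => Equiv.Perm.viaEmbeddingHom_injective ι (congrArg Subtype.val h)⟩
  refine Equiv.Perm.viaEmbedding_apply_of_notMem s ι m ?_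
  rintro ⟨x, rfl⟩
  exact absurd (e x).2 (not_lt.2 hm)

end GrpP

theorem grp : GrpStmt :=
  ⟨GrpP.FS, inferInstance, GrpP.countable, GrpP.infinite, GrpP.icc, GrpP.locFin, GrpP.hasFin⟩

end Pool.Agent.MP_755d6b_an.H27
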