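import Pool.Agent.MP_755d6b_an.H27.Spec

/-!
# The two halves of the Kaplansky density argument
-/

namespace Pool.Agent.MP_755d6b_an.H27

open Pool.Agent.MP_755d6b_an.H98

namespace KapP

variable {A : Type*} [CStarAlgebra A]

theorem exists_inv (y : A) : ∃ w : A, w * (1 + star y * y) = 1 ∧ (1 + star y * y) * w = 1 ∧
    ‖w‖ ≤ 1 ∧ ‖y * w‖ ≤ 1 / 2 ∧ ∀ z, Commute (star y * y) z → Commute w z := by
  have ha : IsSelfAdjoint (star y * y) := IsSelfAdjoint.star_mul_self y
  have hsp : ∀ t ∈ spectrum ℝ (star y * y), 0 ≤ t := spectrum_star_mul_self_nonneg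
  have hpos : ∀ t : ℝ, 0 < 1 + |t| := fun t => by positivity
  obtain ⟨g, hg, hd⟩ : ∃ g : ℝ → ℝ, Continuous g ∧ ∀ t, g t = (1 + |t|)⁻¹ :=
    ⟨_, Continuous.inv₀ (by fun_prop) fun t => (hpos t).ne', fun _ => rfl⟩
  have h0 : ‖y * cfc g (star y * y)‖ * ‖y * cfc g (star y * y)‖ =
      ‖cfc g (star y * y) * (star y * y) * cfc g (star y * y)‖ := by
    rw [← CStarRing.norm_star_mul_self, star_mul, (cfc_predicate g (star y * y)).star_eq]
    simp only [mul_assoc]
  generalize star y * y = a at ha hsp h0 ⊢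
  have h1 : 1 + a = cfc (fun t : ℝ => 1 + t) a := by
    rw [cfc_add a _ _, cfc_id' ℝ a, cfc_const_one ℝ a]
  have h2 : cfc g a * a * cfc g a = cfc (fun t : ℝ => g t * t * g t) a := by
    rw [cfc_mul _ _ a, cfc_mul _ _ a, cfc_id' ℝ a]
  refine ⟨cfc g a, ?_, ?_, ?_, ?_, fun z hz => hz.cfc_real g⟩
  · rw [h1, ← cfc_mul _ _ a, ← cfc_const_one ℝ a]
    refine cfc_congr fun t ht => ?_
    have := hsp t ht
    simp only [hd, abs_of_nonneg this]
    exact inv_mul_cancel₀ (by positivity)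
  · rw [h1, ← cfc_mul _ _ a, ← cfc_const_one ℝ a]
    refine cfc_congr fun t ht => ?_
    have := hsp t ht
    simp only [hd, abs_of_nonneg this]
    exact mul_inv_cancel₀ (by positivity)
  · refine norm_cfc_le zero_le_one fun t _ => ?_
    simp only [hd, Real.norm_eq_abs]
    rw [abs_of_pos (inv_pos.2 (hpos t))]
    exact inv_le_one_of_one_le₀ (by linarith [abs_nonneg t])
  · have h3 : ‖cfc g a * a * cfc g a‖ ≤ 1 / 4 := by
      rw [h2]
      refine norm_cfc_le (by norm_num) fun t ht => ?_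
      have := hsp t ht
      simp only [hd, abs_of_nonneg this]
      rw [Real.norm_of_nonneg (by positivity)]
      field_simp
      nlinarith [sq_nonneg (t - 1)]
    nlinarith [norm_nonneg (y * cfc g a)]

theorem exists_cay {T : A} (h1 : ‖T‖ ≤ 1) : ∃ u : A, T * (1 + star (T * u) * (T * u)) =
    (2 : ℂ) • (T * u) ∧ ∀ z, Commute (star T * T) z → Commute u z := by
  have ha : IsSelfAdjoint (star T * T) := IsSelfAdjoint.star_mul_self T
  have hn : ‖star T * T‖ ≤ 1 := by
    rw [CStarRing.norm_star_mul_self]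
    nlinarith [norm_nonneg T]
  have hpos : ∀ t : ℝ, 0 < 1 + √(1 - t) := fun t => by positivity
  obtain ⟨g, hg, hd⟩ : ∃ g : ℝ → ℝ, Continuous g ∧ ∀ t, g t = (1 + √(1 - t))⁻¹ :=
    ⟨_, Continuous.inv₀ (by fun_prop) fun t => (hpos t).ne', fun _ => rfl⟩
  refine ⟨cfc g (star T * T), ?_, fun z hz => hz.cfc_real g⟩
  have h0 : star (T * cfc g (star T * T)) * (T * cfc g (star T * T)) =
      cfc g (star T * T) * (star T * T) * cfc g (star T * T) := by
    rw [star_mul, (cfc_predicate g (star T * T)).star_eq]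
    simp only [mul_assoc]
  rw [h0, two_smul, ← mul_add]
  generalize star T * T = a at ha hn ⊢
  have h2 : 1 + cfc g a * a * cfc g a = cfc (fun t : ℝ => 1 + g t * t * g t) a := by
    rw [cfc_add a _ _, cfc_mul _ _ a, cfc_mul _ _ a, cfc_id' ℝ a, cfc_const_one ℝ a]
  rw [h2, ← cfc_add a g g hg.continuousOn hg.continuousOn]
  congr 1
  refine cfc_congr fun t ht => ?_
  have h3 : |t| ≤ 1 := by
    have h4 := norm_apply_le_norm_cfc (fun t : ℝ => t) a ht
    rw [cfc_id' ℝ a] at h4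
    exact h4.trans hn
  have h6 := Real.mul_self_sqrt (sub_nonneg.2 (le_of_abs_le h3))
  have h7 := hpos t
  simp only [hd]
  generalize √(1 - t) = r at h6 h7
  field_simp
  linear_combination h6

theorem ident {R : Type*} [Ring R] {y y' s s' w w' v : R} (h1 : (1 + y' * y) * w = 1)
    (h2 : w' * (1 + y * y') = 1) (h3 : (1 + s' * s) * v = 1) :
    s * v - y * w = w' * ((s - y) * v) + y * w * ((y' - s') * (s * v)) := by
  have e : y * w = w' * y := by
    calc y * w = w' * (1 + y * y') * (y * w) := by rw [h2, one_mul]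
      _ = w' * y * ((1 + y' * y) * w) := by noncomm_ring
      _ = w' * y := by rw [h1, mul_one]
  rw [e]
  calc s * v - w' * y = w' * (1 + y * y') * (s * v) - w' * y * ((1 + s' * s) * v) := by
        rw [h2, h3, one_mul, mul_one]
    _ = _ := by noncomm_ring

end KapP

open KapP in
theorem kap : KapStmt := by
  intro H _ _ _ M
  refine ⟨fun y hy => ?_, fun Ω hΩ T hT => ?_⟩
  · obtain ⟨w, h1, h2, h3, h4, h5⟩ := exists_inv y
    refine ⟨w, mem_vN_of_commute (mul_mem (star_mem hy) hy) h5, h1, h2, h3, ?_⟩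
    rw [norm_smul, Complex.norm_ofNat]
    linarith
  · obtain ⟨u, hu, hu'⟩ := exists_cay hT.2
    have hs : T * u ∈ M :=
      mul_mem hT.1 (mem_vN_of_commute (mul_mem (star_mem hT.1) hT.1) hu')
    refine ⟨T * u, hs, fun y hy w hw1 hw2 => ?_⟩
    generalize T * u = s at hu hs
    obtain ⟨v, -, v2, v3, v4, v5⟩ := exists_inv s
    obtain ⟨w₀, -, a2, -, a4, -⟩ := exists_inv y
    obtain ⟨w', b1, -, b3, -, -⟩ := exists_inv (star y)
    rw [star_star] at b1
    rw [← left_inv_eq_right_inv hw1 a2] at a4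
    have hv : v ∈ M := mem_vN_of_commute (mul_mem (star_mem hs) hs) v5
    have e : T = (2 : ℂ) • (s * v) := by
      rw [← smul_mul_assoc, ← hu, mul_assoc, v2, mul_one]
    have n0 := norm_nonneg ((y - s) Ω)
    have n1 : ‖(s - y) (v Ω)‖ ≤ ‖(y - s) Ω‖ := by
      refine (hΩ.norm_mul_right (sub_mem hs hy) hv).trans ?_
      rw [← neg_sub y s, neg_apply, norm_neg]
      exact mul_le_of_le_one_left n0 v3
    have n2 : ‖(star y - star s) ((s * v) Ω)‖ ≤ 1 / 2 * ‖(y - s) Ω‖ := by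
      refine (hΩ.norm_mul_right (sub_mem (star_mem hy) (star_mem hs)) (mul_mem hs hv)).trans ?_
      rw [← star_sub, hΩ.norm_star (sub_mem hy hs)]
      exact mul_le_mul_of_nonneg_right v4 n0
    have n3 : ‖w' ((s - y) (v Ω))‖ ≤ 1 * ‖(y - s) Ω‖ :=
      (w'.le_opNorm _).trans (mul_le_mul b3 n1 (norm_nonneg _) zero_le_one)
    have n4 : ‖(y * w) ((star y - star s) ((s * v) Ω))‖ ≤ 1 / 2 * (1 / 2 * ‖(y - s) Ω‖) :=
      ((y * w).le_opNorm _).trans (mul_le_mul a4 n2 (norm_nonneg _) (by norm_num))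
    have n5 : ‖(s * v - y * w) Ω‖ ≤ ‖w' ((s - y) (v Ω))‖ +
        ‖(y * w) ((star y - star s) ((s * v) Ω))‖ := by
      rw [ident hw2 b1 v2]
      exact norm_add_le _ _
    rw [e, ← smul_sub, smul_apply, norm_smul, Complex.norm_ofNat]
    linarith

end Pool.Agent.MP_755d6b_an.H27
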