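import Pool.Agent.MP_755d6b_an.H27.Spec
import Pool.Agent.MP_755d6b_an.H98.Rigid

/-!
# Properties of group von Neumann algebras
-/

namespace Pool.Agent.MP_755d6b_an.H27

open Filter Topology Pool.Agent.MP_755d6b_an.H98
open scoped ComplexOrder InnerProductSpace Classical

namespace LGPP

variable {G : Type} [Group G]

theorem gap (h : ICC G) : Gap (LG G) (dl (1 : G)) := by
  intro x hx
  by_contra hcon
  push Not at hcon
  set d2 := ‖x (dl 1)‖ ^ 2 - ‖⟪dl 1, x (dl 1)⟫_ℂ‖ ^ 2 with hd2
  have hpos : 0 < d2 := lt_of_le_of_lt (by positivity) (hcon _ (lam_mem 1) (opNorm_lam_le 1))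
  have hsq := Real.sq_sqrt hpos.le
  obtain ⟨η, hη1, hη2⟩ := exists_invariant_near (cj (G := G))
    (fun g h ξ => by rw [cj_mul, mul_apply_eq_comp]) norm_cj
    (fun ξ => by rw [cj_one, one_apply_eq_self]) (x (dl 1)) (√d2 / 2) (fun g => by
      rw [norm_cj_hat_sub hx]
      have h1 := hcon _ (lam_mem g) (opNorm_lam_le g)
      refine (pow_le_pow_iff_left₀ (norm_nonneg _) (by positivity) two_ne_zero).1 ?_
      rw [div_pow, hsq]
      linarith)
  have h2 : η = η 1 • dl 1 := eq_smul_dl fun y hy => by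
    refine apply_eq_zero_of_infinite η (h y hy) ?_
    rintro _ ⟨g, rfl⟩
    exact (cj_apply g η y).symm.trans (by rw [hη1])
  have h3 := norm_sub_inner_smul_sq (norm_dl (1 : G)) (x (dl 1)) (η 1)
  rw [← h2, norm_sub_rev] at h3
  have h4 := pow_le_pow_left₀ (norm_nonneg _) hη2 2
  rw [div_pow, hsq] at h4
  nlinarith [sq_nonneg ‖η 1 - ⟪dl 1, x (dl 1)⟫_ℂ‖]

/-- The group algebra of a subgroup. -/
noncomputable def alg (F : Subgroup G) : StarSubalgebra ℂ (L2 G →L[ℂ] L2 G) where
  carrier := Submodule.span ℂ (lam '' (F : Set G))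
  mul_mem' {a b} ha hb := by
    have := Submodule.mul_mem_mul ha hb
    rw [Submodule.span_mul_span] at this
    refine Submodule.span_mono ?_ this
    rintro _ ⟨_, ⟨g, hg, rfl⟩, _, ⟨k, hk, rfl⟩, rfl⟩
    exact ⟨g * k, F.mul_mem hg hk, lam_mul g k⟩
  add_mem' := add_mem
  algebraMap_mem' r := by
    rw [Algebra.algebraMap_eq_smul_one]
    exact Submodule.smul_mem _ _ (Submodule.subset_span ⟨1, F.one_mem, lam_one⟩)
  star_mem' {a} ha := by
    induction ha using Submodule.span_induction with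
    | mem _ h =>
      obtain ⟨g, hg, rfl⟩ := h
      exact Submodule.subset_span ⟨g⁻¹, F.inv_mem hg, (star_lam g).symm⟩
    | zero => rw [star_zero]; exact zero_mem _
    | add a b _ _ ha hb => rw [star_add]; exact add_mem ha hb
    | smul c a _ ha => rw [star_smul]; exact Submodule.smul_mem _ _ ha

theorem alg_le (F : Subgroup G) : alg F ≤ (LG G).toStarSubalgebra := fun a ha => by
  induction ha using Submodule.span_induction with
  | mem _ h => obtain ⟨g, -, rfl⟩ := h; exact lam_mem g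
  | zero => exact zero_mem _
  | add a b _ _ ha hb => exact add_mem ha hb
  | smul c a _ ha => exact (LG G).toStarSubalgebra.smul_mem ha c

theorem sep (G : Type) [Countable G] : TopologicalSpace.SeparableSpace (L2 G) := by
  have h := (Set.countable_range (dl (G := G))).isSeparable.span (R := ℂ)
  refine TopologicalSpace.isSeparable_univ_iff.1 (h.closure.mono fun ξ _ => ?_)
  exact mem_closure_of_tendsto (hasSum_dl ξ) (.of_forall fun s => Submodule.sum_mem _ fun g _ =>
    Submodule.smul_mem _ _ (Submodule.subset_span ⟨g, rfl⟩))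

theorem hyp (h : LocFin G) : IsHyperfinite (LG G) (vecState (dl 1)) := by
  intro F _ ε hε
  have h1 : ∀ᶠ s : Finset G in atTop, ∀ x ∈ F,
      ‖x (dl 1) - ∑ g ∈ s, x (dl 1) g • dl g‖ ≤ ε := by
    refine (eventually_all_finset F).2 fun x _ => ?_
    have h2 : Tendsto (fun s : Finset G => ∑ g ∈ s, x (dl 1) g • dl g) atTop (𝓝 (x (dl 1))) :=
      hasSum_dl (x (dl 1))
    filter_upwards [Metric.tendsto_nhds.1 h2 ε hε] with s hs
    rw [dist_comm, dist_eq_norm] at hs
    exact hs.le
  obtain ⟨s, hs⟩ := h1.exists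
  obtain ⟨K, hK, hsK⟩ := h s
  refine ⟨alg K, alg_le K, FiniteDimensional.span_of_finite ℂ (hK.image _), fun x hx =>
    ⟨∑ g ∈ s, x (dl 1) g • lam g, Submodule.sum_mem (Submodule.span ℂ _) fun g hg =>
      Submodule.smul_mem _ _ (Submodule.subset_span ⟨g, hsK g hg, rfl⟩), ?_⟩⟩
  rw [norm2_vecState]
  simpa [lam_dl] using hs x hx

end LGPP

theorem lgp : LGStmt := fun G _ => ⟨LGPP.gap, LGPP.hyp, fun _ => LGPP.sep G⟩

end Pool.Agent.MP_755d6b_an.H27
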