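import Pool.Agent.MP_755d6b_an.H27.Spec

/-!
# The downward Löwenheim–Skolem theorem
-/

namespace Pool.Agent.MP_755d6b_an.H27

open Filter Topology Set

namespace LSP

/-- A family of functions is uniformly approximated on `K` from a countable family. -/
def Sep {X : Type} (K : Set X) (F : Set (X → ℝ)) : Prop :=
  ∃ S : Set (X → ℝ), S.Countable ∧ ∀ g ∈ F, ∀ ε : ℝ, 0 < ε → ∃ s ∈ S, ∀ v ∈ K, |g v - s v| ≤ ε

section sep

variable {X : Type} {K : Set X} {F F' : Set (X → ℝ)}

theorem Sep.mono (h : Sep K F') (hF : F ⊆ F') : Sep K F :=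
  h.imp fun _ hS => ⟨hS.1, fun g hg => hS.2 g (hF hg)⟩

theorem Sep.of_countable (h : F.Countable) : Sep K F :=
  ⟨F, h, fun g hg ε hε => ⟨g, hg, fun v _ => by simpa using hε.le⟩⟩

theorem Sep.iUnion {ι : Type} [Countable ι] {F : ι → Set (X → ℝ)} (h : ∀ i, Sep K (F i)) :
    Sep K (⋃ i, F i) := by
  choose S hS h using h
  refine ⟨⋃ i, S i, countable_iUnion hS, fun g hg ε hε => ?_⟩
  obtain ⟨i, hi⟩ := mem_iUnion.1 hg
  obtain ⟨s, hs, H⟩ := h i g hi ε hε
  exact ⟨s, mem_iUnion.2 ⟨i, hs⟩, H⟩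

theorem Sep.union (h : Sep K F) (h' : Sep K F') : Sep K (F ∪ F') := by
  rw [union_eq_iUnion]
  exact Sep.iUnion fun b => by cases b; exacts [h', h]

/-- Continuous functions of members of the family. -/
def conn (F : Set (X → ℝ)) : Set (X → ℝ) :=
  ⋃ k : ℕ, {u | ∃ (f : C(Fin k → ℝ, ℝ)) (g : Fin k → X → ℝ), (∀ i, g i ∈ F) ∧
    u = fun v => f fun i => g i v}

theorem Sep.conn (h : Sep K F) (hb : ∀ g ∈ F, ∃ B : ℝ, ∀ v ∈ K, |g v| ≤ B) : Sep K (conn F) := by
  refine Sep.iUnion fun k => ?_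
  obtain ⟨S, hS, h⟩ := h
  obtain ⟨T, hT, hd⟩ := TopologicalSpace.exists_countable_dense C(Fin k → ℝ, ℝ)
  refine ⟨image2 (fun (f : C(Fin k → ℝ, ℝ)) (g : Fin k → X → ℝ) v => f fun i => g i v) T
    {g | ∀ i, g i ∈ S}, hT.image2 (countable_pi fun _ => hS) _, ?_⟩
  rintro _ ⟨f, g, hg, rfl⟩ ε hε
  choose B hB using fun i => hb _ (hg i)
  have hc : IsCompact (univ.pi fun i => Icc (-(B i + 1)) (B i + 1)) :=
    isCompact_univ_pi fun _ => isCompact_Icc
  obtain ⟨δ, hδ, hu⟩ := Metric.uniformContinuousOn_iff_le.1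
    (hc.uniformContinuousOn_of_continuous f.continuous.continuousOn) (ε / 2) (by positivity)
  have h1 := Metric.tendstoUniformlyOn_iff.1
    (ContinuousMap.tendsto_iff_forall_isCompact_tendstoUniformlyOn.1 (tendsto_id (x := 𝓝 f)) _ hc)
    (ε / 2) (by positivity)
  obtain ⟨f', hf', hfT⟩ := hd.inter_nhds_nonempty h1
  choose s hs hsg using fun i => h _ (hg i) (min δ 1) (lt_min hδ one_pos)
  refine ⟨_, mem_image2_of_mem hf' (show s ∈ {g : Fin k → X → ℝ | ∀ i, g i ∈ S} from hs),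
    fun v hv => ?_⟩
  have m1 : (fun i => g i v) ∈ univ.pi fun i => Icc (-(B i + 1)) (B i + 1) := fun i _ =>
    abs_le.1 ((hB i v hv).trans (by linarith))
  have m2 : (fun i => s i v) ∈ univ.pi fun i => Icc (-(B i + 1)) (B i + 1) := fun i _ => by
    have h2 := abs_le.1 (hB i v hv)
    have h3 := abs_le.1 ((hsg i v hv).trans (min_le_right _ _))
    constructor <;> linarith [h2.1, h2.2, h3.1, h3.2]
  have h2 := hu _ m1 _ m2 ((dist_pi_le_iff hδ.le).2 fun i => (hsg i v hv).trans (min_le_left _ _))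
  have h3 := hfT _ m2
  have h4 := dist_triangle (f fun i => g i v) (f fun i => s i v) (f' fun i => s i v)
  rw [← Real.dist_eq]
  simp only [id] at h3
  linarith

theorem abs_iSup_le {ι : Type} [Nonempty ι] {a b : ι → ℝ} {ε : ℝ} (ha : BddAbove (range a))
    (h : ∀ i, |a i - b i| ≤ ε) : |iSup a - iSup b| ≤ ε := by
  have hb : BddAbove (range b) := ⟨iSup a + ε, by
    rintro _ ⟨i, rfl⟩
    linarith [(abs_le.1 (h i)).1, le_ciSup ha i]⟩
  have h1 : iSup a ≤ iSup b + ε := ciSup_le fun i => by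
    linarith [(abs_le.1 (h i)).2, le_ciSup hb i]
  have h2 : iSup b ≤ iSup a + ε := ciSup_le fun i => by
    linarith [(abs_le.1 (h i)).1, le_ciSup ha i]
  rw [abs_le]
  constructor <;> linarith

theorem span_sub {g : X → ℝ} (hg : g ∈ Submodule.span ℝ F) : g ∈ conn F := by
  obtain ⟨k, c, b, rfl⟩ := Submodule.mem_span_set'.1 hg
  refine mem_iUnion.2 ⟨k, ⟨fun x => ∑ i, c i * x i, by fun_prop⟩, fun i => b i,
    fun i => (b i).2, ?_⟩
  funext v
  simp

end sep

/-- Monomials. -/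
inductive Mon (α : Type) : Type
  | var (i : α) : Mon α
  | one : Mon α
  | mul (s t : Mon α) : Mon α
  | star (t : Mon α) : Mon α
  deriving Countable

/-- The term of a monomial. -/
def Mon.tm {α : Type} : Mon α → Term α
  | .var i => .var i
  | .one => .one
  | .mul s t => .mul s.tm t.tm
  | .star t => .star t.tm

/-- The depth of a formula. -/
def dep : {n : ℕ} → Form n → ℕ
  | _, .atom _ => 0
  | _, .conn _ _ φ => (Finset.univ.sup fun i => dep (φ i)) + 1
  | _, .sup φ => dep φ + 1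

variable {A : Type} [Ring A] [StarRing A] [Algebra ℂ A] [StarModule ℂ A] {D : Set A} {ν : A → ℝ}

theorem term_mem {α : Type} (t : Term α) : (fun v : α → A => t.eval v) ∈
    Submodule.span ℂ (range fun (m : Mon α) (v : α → A) => m.tm.eval v) := by
  induction t with
  | var i => exact Submodule.subset_span ⟨.var i, rfl⟩
  | one => exact Submodule.subset_span ⟨.one, rfl⟩
  | add s t ihs iht => exact add_mem ihs iht
  | mul s t ihs iht =>
    have h := Submodule.mul_mem_mul ihs iht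
    rw [Submodule.span_mul_span] at h
    refine Submodule.span_mono ?_ h
    rintro _ ⟨_, ⟨a, rfl⟩, _, ⟨b, rfl⟩, rfl⟩
    exact ⟨.mul a b, rfl⟩
  | smul c t ih => exact Submodule.smul_mem _ c ih
  | star t ih =>
    change star (fun v : α → A => t.eval v) ∈ _
    generalize (fun v : α → A => t.eval v) = g at ih
    induction ih using Submodule.span_induction with
    | mem x hx =>
      obtain ⟨a, rfl⟩ := hx
      exact Submodule.subset_span ⟨.star a, rfl⟩
    | zero => rw [star_zero]; exact zero_mem _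
    | add x y _ _ hx hy => rw [star_add]; exact add_mem hx hy
    | smul c x _ hx => rw [star_smul]; exact Submodule.smul_mem _ _ hx

/-- The basic atomic formulas. -/
def base (ν : A → ℝ) (α : Type) : Set ((α → A) → ℝ) :=
  (range fun (m : Mon α) (v : α → A) => ν (m.tm.eval v)) ∪
    range fun (m : Mon α) (v : α → A) => ν (Complex.I • m.tm.eval v)

theorem atom_mem (ha : ∀ x y, ν (x + y) = ν x + ν y) (hs : ∀ (r : ℝ) x, ν ((r : ℂ) • x) = r * ν x)
    {α : Type} (t : Term α) : (fun v : α → A => ν (t.eval v)) ∈ Submodule.span ℝ (base ν α) := by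
  have key : ∀ g ∈ Submodule.span ℂ (range fun (m : Mon α) (v : α → A) => m.tm.eval v), ∀ c : ℂ,
      (fun v => ν (c • g v)) ∈ Submodule.span ℝ (base ν α) := by
    intro g hg
    induction hg using Submodule.span_induction with
    | mem x hx =>
      obtain ⟨m, rfl⟩ := hx
      intro c
      have h : (fun v : α → A => ν (c • m.tm.eval v)) = c.re • (fun v => ν (m.tm.eval v)) +
          c.im • fun v => ν (Complex.I • m.tm.eval v) := by
        funext v
        simp only [Pi.add_apply, Pi.smul_apply, smul_eq_mul, ← hs, ← ha, smul_smul, ← add_smul,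
          Complex.re_add_im]
      rw [h]
      exact add_mem (Submodule.smul_mem _ _ (Submodule.subset_span (Or.inl ⟨m, rfl⟩)))
        (Submodule.smul_mem _ _ (Submodule.subset_span (Or.inr ⟨m, rfl⟩)))
    | zero =>
      intro c
      have h0 : ν 0 = 0 := by simpa using hs 0 0
      simp only [Pi.zero_apply, smul_zero, h0]
      exact zero_mem _
    | add x y _ _ hx hy =>
      intro c
      simp only [Pi.add_apply, smul_add, ha]
      exact add_mem (hx c) (hy c)
    | smul r x _ hx =>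
      intro c
      simp only [Pi.smul_apply, smul_smul]
      exact hx _
  simpa only [one_smul] using key _ (term_mem t) 1

theorem sep_atom (ha : ∀ x y, ν (x + y) = ν x + ν y)
    (hs : ∀ (r : ℝ) x, ν ((r : ℂ) • x) = r * ν x) (hD : Adm D ν) (n : ℕ) :
    Sep {v : Fin n → A | ∀ i, v i ∈ D} (range fun (t : Term (Fin n)) v => ν (t.eval v)) := by
  refine ((Sep.of_countable (F := base ν (Fin n))
    ((countable_range _).union (countable_range _))).conn ?_).mono ?_
  · rintro _ (⟨m, rfl⟩ | ⟨m, rfl⟩)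
    · exact hD n m.tm
    · exact hD n (.smul Complex.I m.tm)
  · rintro _ ⟨t, rfl⟩
    exact span_sub (atom_mem ha hs t)

theorem sep_dep (ha : ∀ x y, ν (x + y) = ν x + ν y)
    (hs : ∀ (r : ℝ) x, ν ((r : ℂ) • x) = r * ν x) (hD : Adm D ν) (hne : D.Nonempty) (d n : ℕ) :
    Sep {v : Fin n → A | ∀ i, v i ∈ D} ((fun φ : Form n => φ.eval D ν) '' {φ | dep φ < d}) := by
  induction d generalizing n with
  | zero => exact Sep.of_countable (by simp)
  | succ d ih =>
    have := hne.to_subtype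
    have h1 := (ih n).conn (by
      rintro _ ⟨φ, -, rfl⟩
      exact (hD.bdd φ).imp fun _ h => h.2)
    have h2 : Sep {v : Fin n → A | ∀ i, v i ∈ D}
        ((fun φ : Form (n + 1) => φ.sup.eval D ν) '' {φ | dep φ < d}) := by
      obtain ⟨S, hS, h⟩ := ih (n + 1)
      refine ⟨(fun s v => ⨆ x : D, s (Fin.cons (x : A) v)) '' S, hS.image _, ?_⟩
      rintro _ ⟨φ, hφ, rfl⟩ ε hε
      obtain ⟨s, hs, H⟩ := h _ ⟨φ, hφ, rfl⟩ ε hε
      refine ⟨_, mem_image_of_mem _ hs, fun v hv => ?_⟩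
      simp only [Form.eval_sup]
      exact abs_iSup_le (hD.bddAbove φ hv) fun x => H _ (cons_mem x.2 hv)
    refine (((sep_atom ha hs hD n).union h1).union h2).mono ?_
    rintro _ ⟨φ, hφ, rfl⟩
    cases φ with
    | atom t => exact Or.inl (Or.inl ⟨t, funext fun v => (Form.eval_atom D ν t v).symm⟩)
    | conn k f φ =>
      refine Or.inl (Or.inr (mem_iUnion.2 ⟨k, f, fun i => (φ i).eval D ν, fun i => ⟨φ i, ?_, rfl⟩,
        funext fun v => Form.eval_conn D ν f φ v⟩))
      have h3 : dep (φ i) ≤ Finset.univ.sup fun i => dep (φ i) :=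
        Finset.le_sup (f := fun i => dep (φ i)) (Finset.mem_univ i)
      simp only [mem_ofPred_eq, dep] at hφ ⊢
      omega
    | sup φ =>
      refine Or.inr ⟨φ, ?_, rfl⟩
      simp only [mem_ofPred_eq, dep] at hφ ⊢
      omega

theorem sep_all (ha : ∀ x y, ν (x + y) = ν x + ν y)
    (hs : ∀ (r : ℝ) x, ν ((r : ℂ) • x) = r * ν x) (hD : Adm D ν) (hne : D.Nonempty) (n : ℕ) :
    Sep {v : Fin n → A | ∀ i, v i ∈ D} (range fun φ : Form n => φ.eval D ν) := by
  refine (Sep.iUnion fun d => sep_dep ha hs hD hne d n).mono ?_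
  rintro _ ⟨φ, rfl⟩
  exact mem_iUnion.2 ⟨dep φ + 1, φ, Nat.lt_succ_self _, rfl⟩

/-- Closing a countable set under countably many finitary operations. -/
theorem exists_closed {A : Type} {ι : ℕ → Type} [∀ n, Countable (ι n)] {D C : Set A}
    (w : ∀ n, ι n → (Fin n → A) → A) (hw : ∀ n j v, w n j v ∈ D) (hC : C.Countable)
    (hCD : C ⊆ D) : ∃ E : Set A, E.Countable ∧ C ⊆ E ∧ E ⊆ D ∧
      ∀ n j (v : Fin n → A), (∀ i, v i ∈ E) → w n j v ∈ E := by
  let St : ℕ → Set A := fun m =>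
    Nat.rec C (fun _ E => E ∪ ⋃ n, ⋃ j, w n j '' {v | ∀ i, v i ∈ E}) m
  have h0 : St 0 = C := rfl
  have h1 : ∀ m, St (m + 1) = St m ∪ ⋃ n, ⋃ j, w n j '' {v | ∀ i, v i ∈ St m} := fun _ => rfl
  have hm : Monotone St := monotone_nat_of_le_succ fun m => subset_union_left
  refine ⟨⋃ m, St m, countable_iUnion fun m => ?_, subset_iUnion St 0,
    iUnion_subset fun m => ?_, fun n j v hv => ?_⟩
  · induction m with
    | zero => exact hC
    | succ m ih =>
      exact ih.union (countable_iUnion fun n => countable_iUnion fun j =>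
        (countable_pi fun _ => ih).image _)
  · induction m with
    | zero => exact hCD
    | succ m ih =>
      refine union_subset ih (iUnion_subset fun n => iUnion_subset fun j => ?_)
      rintro _ ⟨v, -, rfl⟩
      exact hw n j v
  · choose m hm' using fun i => mem_iUnion.1 (hv i)
    obtain ⟨M, hM⟩ := Finite.exists_le m
    refine mem_iUnion.2 ⟨M + 1, Or.inr (mem_iUnion.2 ⟨n, mem_iUnion.2 ⟨j, v, ?_, rfl⟩⟩)⟩
    exact fun i => hm (hM i) (hm' i)

end LSP

theorem ls : LSStmt := by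
  intro A _ _ _ _ D ν ha hs hD hne C hC hCD
  choose S hS h using LSP.sep_all ha hs hD hne
  have := hne.to_subtype
  have hc : ∀ n, Countable (S n) := fun n => (hS n).to_subtype
  have hw : ∀ n (j : S (n + 1) × ℕ) (v : Fin n → A), ∃ x ∈ D,
      (∃ x ∈ D, ∀ y ∈ D, j.1.1 (Fin.cons y v) ≤ j.1.1 (Fin.cons x v) + 1 / ((j.2 : ℝ) + 1)) →
      ∀ y ∈ D, j.1.1 (Fin.cons y v) ≤ j.1.1 (Fin.cons x v) + 1 / ((j.2 : ℝ) + 1) := by
    intro n j v
    by_cases hx : ∃ x ∈ D, ∀ y ∈ D,
        j.1.1 (Fin.cons y v) ≤ j.1.1 (Fin.cons x v) + 1 / ((j.2 : ℝ) + 1)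
    · obtain ⟨x, hx, H⟩ := hx
      exact ⟨x, hx, fun _ => H⟩
    · exact hne.imp fun x hxD => ⟨hxD, fun h => absurd h hx⟩
  choose w hwD hw using hw
  obtain ⟨E, hE, hCE, hED, hcl⟩ := LSP.exists_closed w hwD hC hCD
  have key : ∀ n (φ : Form (n + 1)) (v : Fin n → A), (∀ i, v i ∈ E) → ∀ ε : ℝ, 0 < ε →
      ∃ x ∈ E, ∀ y ∈ D, φ.eval D ν (Fin.cons y v) ≤ φ.eval D ν (Fin.cons x v) + ε := by
    intro n φ v hv ε hε
    have hv' : ∀ i, v i ∈ D := fun i => hED (hv i)
    obtain ⟨m, hm⟩ := exists_nat_one_div_lt (show 0 < ε / 2 by positivity)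
    have hp : (0 : ℝ) < 1 / ((m : ℝ) + 1) := by positivity
    obtain ⟨s, hsS, H⟩ := h (n + 1) _ ⟨φ, rfl⟩ (1 / ((m : ℝ) + 1) / 3) (by positivity)
    have H' : ∀ y ∈ D, |φ.eval D ν (Fin.cons y v) - s (Fin.cons y v)| ≤ 1 / ((m : ℝ) + 1) / 3 :=
      fun y hy => H _ (cons_mem hy hv')
    obtain ⟨x, hx⟩ := exists_lt_of_lt_ciSup (f := fun x : D => φ.eval D ν (Fin.cons (x : A) v))
      (sub_lt_self _ (show 0 < 1 / ((m : ℝ) + 1) / 3 by positivity))
    have h1 := hw n (⟨s, hsS⟩, m) v ⟨x, x.2, fun y hy => by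
      have h2 := le_ciSup (hD.bddAbove φ hv') ⟨y, hy⟩
      have h3 := abs_le.1 (H' y hy)
      have h4 := abs_le.1 (H' x x.2)
      simp only at h2 ⊢
      linarith [h3.1, h4.2]⟩
    refine ⟨_, hcl n (⟨s, hsS⟩, m) v hv, fun y hy => ?_⟩
    have h2 := h1 y hy
    have h3 := abs_le.1 (H' y hy)
    have h4 := abs_le.1 (H' _ (hwD n (⟨s, hsS⟩, m) v))
    simp only at h2
    linarith [h3.2, h4.1]
  refine ⟨E, hE, hCE, hED, fun n φ => ?_⟩
  induction φ with
  | atom t => intro v _; rw [Form.eval_atom, Form.eval_atom]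
  | conn k f φ ih =>
    intro v hv
    simp only [Form.eval_conn, fun i => ih i v hv]
  | sup φ ih =>
    intro v hv
    have hv' : ∀ i, v i ∈ D := fun i => hED (hv i)
    have h1 : ∀ x : E, φ.eval E ν (Fin.cons (x : A) v) = φ.eval D ν (Fin.cons (x : A) v) :=
      fun x => ih _ (cons_mem x.2 hv)
    obtain ⟨x₀, hx₀, -⟩ := key _ φ v hv 1 one_pos
    have : Nonempty E := ⟨⟨x₀, hx₀⟩⟩
    rw [Form.eval_sup, Form.eval_sup]
    refine le_antisymm (ciSup_le fun x => ?_) (ciSup_le fun y => le_of_forall_pos_le_add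
      fun ε hε => ?_)
    · rw [h1]
      exact le_ciSup (hD.bddAbove φ hv') ⟨x, hED x.2⟩
    · obtain ⟨x, hx, H⟩ := key _ φ v hv ε hε
      have h2 := le_ciSup ((hD.mono hED).bddAbove φ hv) ⟨x, hx⟩
      rw [h1] at h2
      exact (H y y.2).trans (add_le_add h2 le_rfl)

end Pool.Agent.MP_755d6b_an.H27
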