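import Pool.Agent.MP_755d6b_an.H27.Spec

/-!
# The theorem of Łoś
-/

namespace Pool.Agent.MP_755d6b_an.H27

open Filter Topology Pool.Agent.MP_755d6b_an.H98

theorem los : LosStmt := by
  intro H _ _ _ N ν hν U μ hμ n φ
  have hA : Adm (ball N) ν := adm_ball hν
  have hm : ∀ a ∈ ballB ℕ N, ∀ i, a.1 i ∈ ball N := fun a ha i => ⟨a.2.1 i, ha i⟩
  have hB : Adm (ballB ℕ N) μ := fun n t => (hA n t).imp fun C hC v hv =>
    le_of_tendsto' (hμ (t.eval v)).abs fun i => by
      rw [Term.eval_apply]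
      exact hC _ fun j => hm _ (hv j) i
  have h0 : (0 : H →L[ℂ] H) ∈ ball N := ⟨zero_mem N, by simp⟩
  have : Nonempty (ball N) := ⟨⟨0, h0⟩⟩
  have : Nonempty (ballB ℕ N) := ⟨⟨0, fun _ => h0.2⟩⟩
  induction φ with
  | atom t =>
    intro v _
    simp only [Form.eval_atom, ← Term.eval_apply]
    exact hμ _
  | conn k f φ ih =>
    intro v hv
    simp only [Form.eval_conn]
    exact (f.continuous.tendsto _).comp (tendsto_pi_nhds.2 fun j => ih j v hv)
  | sup φ ih =>
    intro v hv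
    simp only [Form.eval_sup]
    have h1 : ∀ a ∈ ballB ℕ N, Tendsto
        (fun i => φ.eval (ball N) ν (Fin.cons (a.1 i) fun j => (v j).1 i)) U
        (𝓝 (φ.eval (ballB ℕ N) μ (Fin.cons a v))) := fun a ha =>
      (ih _ (cons_mem ha hv)).congr fun i =>
        congrArg _ (funext fun j => Fin.cases rfl (fun _ => rfl) j)
    refine tendsto_order.2 ⟨fun c hc => ?_, fun c hc => ?_⟩
    · obtain ⟨a, ha⟩ := exists_lt_of_lt_ciSup hc
      exact ((h1 a a.2).eventually (lt_mem_nhds ha)).mono fun i hi =>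
        hi.trans_le (le_ciSup (hA.bddAbove φ fun j => hm _ (hv j) i) ⟨_, hm _ a.2 i⟩)
    · obtain ⟨c', h2, h3⟩ := exists_between hc
      have h4 : ∀ i, ∃ x : ball N,
          c ≤ (⨆ x : ball N, φ.eval (ball N) ν (Fin.cons (x : H →L[ℂ] H) fun j => (v j).1 i)) →
          c' < φ.eval (ball N) ν (Fin.cons (x : H →L[ℂ] H) fun j => (v j).1 i) := fun i =>
        Classical.byCases (fun h => (exists_lt_of_lt_ciSup (h3.trans_le h)).imp fun _ hx _ => hx)
          fun h => ⟨⟨0, h0⟩, fun h' => absurd h' h⟩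
      choose x hx using h4
      let a : BddS ℕ N := ⟨fun i => x i, fun i => (x i).2.1, 1, fun i => (x i).2.2⟩
      have ha : a ∈ ballB ℕ N := fun i => (x i).2.2
      have h5 := (le_ciSup (hB.bddAbove φ hv) ⟨a, ha⟩).trans_lt h2
      exact ((h1 a ha).eventually (gt_mem_nhds h5)).mono fun i hi =>
        lt_of_not_ge fun h => lt_asymm hi (hx i h)

end Pool.Agent.MP_755d6b_an.H27
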