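import Pool.Agent.MP_755d6b_an.H27.Spec
import Pool.Agent.MP_755d6b_an.H98.NonIso

/-!
# Approximate solutions in the 2-norm, and the C⋆-side
-/

namespace Pool.Agent.MP_755d6b_an.H27

open Filter Topology Pool.Agent.MP_755d6b_an.H98
open scoped InnerProductSpace ComplexOrder

universe u v

variable {H : Type} [NormedAddCommGroup H] [InnerProductSpace ℂ H] [CompleteSpace H]
  {K : Type} [NormedAddCommGroup K] [InnerProductSpace ℂ K] [CompleteSpace K]

theorem norm_le_one_of_isometry {u : H →L[ℂ] H} (h : star u * u = 1) : ‖u‖ ≤ 1 := by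
  have h1 : ‖star u * u‖ = ‖u‖ * ‖u‖ := CStarRing.norm_star_mul_self
  rw [h] at h1
  have h2 : ‖(1 : H →L[ℂ] H)‖ ≤ 1 := ContinuousLinearMap.norm_id_le
  nlinarith [norm_nonneg u]

theorem re_vecState_star_mul (Ω : H) (x : H →L[ℂ] H) :
    (vecState Ω (star x * x)).re = ‖x Ω‖ ^ 2 := by
  rw [vecState_star_mul, inner_self_eq_norm_sq_to_K]
  norm_cast

theorem approx (hm : ModelStmt) (he : EmbStmt) {G : Type} [Group G] (hG : HasFin G) :
    ∃ ω : ℂ, ω ≠ 1 ∧ ∀ ε : ℝ, 0 < ε → ∃ x : Fin 5 → L2 G →L[ℂ] L2 G,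
      (∀ i, x i ∈ ball (LG G)) ∧ ∀ j, ‖relv ω x j (dl 1)‖ ^ 2 ≤ ε := by
  obtain ⟨ω, hω, hm⟩ := hm
  refine ⟨ω, hω, fun ε hε => ?_⟩
  set C : ℝ := ∑ j, ‖relv ω (fun _ => (1 : ℂ)) j‖ ^ 2 with hC
  have hC0 : 0 ≤ C := Finset.sum_nonneg fun _ _ => sq_nonneg _
  have hδ : 0 < min (ε / (1 + C)) 1 := lt_min (by positivity) one_pos
  set δ := min (ε / (1 + C)) 1 with hδ'
  obtain ⟨Z, _, _, _, x, hx1, hx2⟩ := hm δ hδ
  obtain ⟨Θ, β, hβ1, hβ2, hΘ, htr⟩ := he G hG Z δ hδ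
  refine ⟨fun i => Θ (x i, 1), fun i => ⟨hΘ _, norm_le_one_of_isometry ?_⟩, fun j => ?_⟩
  · rw [← map_star, ← map_mul, ← map_one Θ]
    congr 1
    exact Prod.ext (hx1 i) (by simp)
  · have h1 : relv ω (fun i => (x i, (1 : ℂ))) j = (relv ω x j, relv ω (fun _ => (1 : ℂ)) j) :=
      Prod.ext (relv_map (ω := ω) (ω' := ω) (RingHom.fst (Matrix Z Z ℂ) ℂ) (fun _ => rfl)
          (fun _ => rfl) (fun i => (x i, (1 : ℂ))) j).symm
        (relv_map (ω := ω) (ω' := ω) (RingHom.snd (Matrix Z Z ℂ) ℂ) (fun _ => rfl)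
          (fun _ => rfl) (fun i => (x i, (1 : ℂ))) j).symm
    rw [relv_hom, h1, ← re_vecState_star_mul, ← map_star, ← map_mul]
    have h2 := htr (star (relv ω x j) * relv ω x j)
      (star (relv ω (fun _ => (1 : ℂ)) j) * relv ω (fun _ => (1 : ℂ)) j)
    have h3 : star (relv ω x j, relv ω (fun _ => (1 : ℂ)) j) *
        (relv ω x j, relv ω (fun _ => (1 : ℂ)) j) = (star (relv ω x j) * relv ω x j,
          star (relv ω (fun _ => (1 : ℂ)) j) * relv ω (fun _ => (1 : ℂ)) j) := rfl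
    rw [h3, h2]
    have h4 : star (relv ω (fun _ => (1 : ℂ)) j) * relv ω (fun _ => (1 : ℂ)) j =
        ((‖relv ω (fun _ => (1 : ℂ)) j‖ ^ 2 : ℝ) : ℂ) := by
      rw [Complex.star_def, Complex.conj_mul']
      norm_cast
    have h5 : ‖relv ω (fun _ => (1 : ℂ)) j‖ ^ 2 ≤ C :=
      Finset.single_le_sum (f := fun j => ‖relv ω (fun _ => (1 : ℂ)) j‖ ^ 2)
        (fun _ _ => sq_nonneg _) (Finset.mem_univ j)
    have hZ : (0 : ℝ) < Fintype.card Z := by exact_mod_cast Fintype.card_pos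
    have h6 : ((star (relv ω x j) * relv ω x j).trace / (Fintype.card Z : ℂ)).re ≤ δ := by
      rw [Complex.div_natCast_re, div_le_iff₀ hZ]
      exact hx2 j
    have h7 : (1 - (β : ℂ)) = ((1 - β : ℝ) : ℂ) := by push_cast; rfl
    rw [h4, h7, ← Complex.ofReal_mul, Complex.add_re, Complex.re_ofReal_mul, Complex.ofReal_re]
    have h8 : δ ≤ 1 := min_le_right _ _
    have h9 : δ * (1 + C) ≤ ε := (le_div_iff₀ (by positivity)).1 (min_le_left _ _)
    have h10 := mul_le_mul_of_nonneg_left h6 (show 0 ≤ β by linarith)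
    have h11 := mul_le_mul (show 1 - β ≤ δ by linarith) h5 (sq_nonneg _) hδ.le
    nlinarith

/-- The universal closure by suprema. -/
def supAll : {n : ℕ} → Form n → Form 0
  | 0, φ => φ
  | _ + 1, φ => supAll (Form.sup φ)

section SupAll

variable {A : Type u} [One A] [Add A] [Mul A] [SMul ℂ A] [Star A] {D : Set A} {ν : A → ℝ}

theorem le_supAll (h : Adm D ν) {n : ℕ} (φ : Form n) (v : Fin n → A) (hv : ∀ i, v i ∈ D) :
    φ.eval D ν v ≤ (supAll φ).eval D ν ![] := by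
  induction n with
  | zero => rw [supAll, Subsingleton.elim v ![]]
  | succ n ih =>
    rw [supAll]
    refine le_trans ?_ (ih _ (Fin.tail v) fun i => hv i.succ)
    rw [Form.eval_sup]
    refine le_ciSup_of_le (h.bddAbove φ fun i => hv i.succ) ⟨v 0, hv 0⟩ ?_
    rw [Fin.cons_self_tail]

theorem supAll_le (hD : D.Nonempty) {n : ℕ} (φ : Form n) {c : ℝ}
    (hc : ∀ v : Fin n → A, (∀ i, v i ∈ D) → φ.eval D ν v ≤ c) : (supAll φ).eval D ν ![] ≤ c := by
  induction n with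
  | zero => exact hc _ fun i => i.elim0
  | succ n ih =>
    rw [supAll]
    refine ih _ fun v hv => ?_
    rw [Form.eval_sup]
    have := hD.to_subtype
    exact ciSup_le fun x => hc _ (cons_mem x.2 hv)

end SupAll

theorem not_sameCStar {N : VonNeumannAlgebra H} {M : VonNeumannAlgebra K} {ω : ℂ}
    (hN : ∃ ε : ℝ, 0 < ε ∧ ∀ x : Fin 5 → H →L[ℂ] H, (∀ i, x i ∈ N ∧ ‖x i‖ ≤ 1) →
      ∃ j, ε ≤ ‖relv ω x j‖)
    {y : Fin 5 → K →L[ℂ] K} (hy : ∀ i, y i ∈ ball M) (hs : Sol ω y) : ¬ SameCStarTheory N M := by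
  intro h
  obtain ⟨ε, hε, hN⟩ := hN
  let e := (Fintype.equivFin Ix).symm
  let f : C(Fin (Fintype.card Ix) → ℝ, ℝ) := ⟨fun z => -∑ k, |z k|, by fun_prop⟩
  let φ : Form 5 := Form.conn _ f fun k => Form.atom (relv ω Term.var (e k))
  have h1 := le_supAll (adm_ball (N := M) (ν := fun y => ‖y‖) fun x _ => (abs_norm x).le) φ y hy
  have h2 := supAll_le (D := ball N) (ν := fun x => ‖x‖) ⟨0, zero_mem N, by simp⟩ φ (c := -ε)
    fun x hx => by
      obtain ⟨j, hj⟩ := hN x hx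
      simp only [φ, Form.eval_conn, Form.eval_atom, eval_relv, f, ContinuousMap.coe_mk,
        neg_le_neg_iff, abs_norm]
      refine hj.trans ?_
      have h3 := Finset.single_le_sum (f := fun k => ‖relv ω x (e k)‖) (fun _ _ => norm_nonneg _)
        (Finset.mem_univ (e.symm j))
      simpa using h3
  have h3 : φ.eval (ball M) (fun y => ‖y‖) y = 0 := by
    simp only [φ, Form.eval_conn, Form.eval_atom, eval_relv, f, ContinuousMap.coe_mk, hs _]
    simp
  have h4 := h (supAll φ)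
  linarith

theorem not_cstarEquiv {N : VonNeumannAlgebra H} {M : VonNeumannAlgebra K} {ω : ℂ}
    (hN : ∀ C : ℝ, ∃ ε : ℝ, 0 < ε ∧ ∀ x : Fin 5 → H →L[ℂ] H, (∀ i, x i ∈ N ∧ ‖x i‖ ≤ C) →
      ∃ j, ε ≤ ‖relv ω x j‖)
    {y : Fin 5 → K →L[ℂ] K} (hy : ∀ i, y i ∈ M) (hs : Sol ω y) : ¬ CStarEquiv.{u, v} N M := by
  rintro ⟨I, J, U, V, ⟨Φ⟩⟩
  let : One (Ultrapower (isGauge_norm N) U) := ⟨mkS (isGauge_norm N) U 1⟩
  let : One (Ultrapower (isGauge_norm M) V) := ⟨mkS (isGauge_norm M) V 1⟩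
  let Y : Fin 5 → BddS J M := fun i => constB J (hy i)
  choose x hx using fun i => mk_surj (isGauge_norm N) U (Φ.symm (mkS (isGauge_norm M) V (Y i)))
  have h1 : Φ.symm (mkS (isGauge_norm M) V 1) = mkS (isGauge_norm N) U 1 := by
    have h2 := mk_one_mul (isGauge_norm M) V (Φ (mkS (isGauge_norm N) U 1))
    have h3 := congrArg Φ.symm h2
    rw [map_mul, Φ.symm_apply_apply] at h3
    obtain ⟨a, ha⟩ := mk_surj (isGauge_norm N) U (Φ.symm (mkS (isGauge_norm M) V 1))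
    rw [← ha, ← mk_mul, mul_one] at h3
    rw [← ha, h3]
  have h0 : Φ.symm (mkS (isGauge_norm M) V 0) = mkS (isGauge_norm N) U 0 := by
    have h2 := map_smul Φ.symm (0 : ℂ) (mkS (isGauge_norm M) V 0)
    obtain ⟨a, ha⟩ := mk_surj (isGauge_norm N) U (Φ.symm (mkS (isGauge_norm M) V 0))
    rw [← mk_smul, zero_smul, ← ha, ← mk_smul, zero_smul] at h2
    rw [← ha, h2]
  have h2 : ∀ j, Tendsto (fun i => ‖relv ω (fun k => (x k).1 i) j‖) U (𝓝 0) := fun j => by
    have h3 := Term.eval_map x (mkS (isGauge_norm N) U) rfl (mk_add _ U) (mk_mul _ U)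
      (mk_smul _ U) (mk_star _ U) (relv ω Term.var j)
    have h4 := Term.eval_map Y (mkS (isGauge_norm M) V) rfl (mk_add _ V) (mk_mul _ V)
      (mk_smul _ V) (mk_star _ V) (relv ω Term.var j)
    have h5 := Term.eval_map (fun i => mkS (isGauge_norm M) V (Y i)) Φ.symm h1 (map_add _)
      (map_mul _) (map_smul _) (map_star _) (relv ω Term.var j)
    have h6 : (relv ω Term.var j).eval Y = 0 := Subtype.ext (funext fun i => by
      rw [Term.eval_apply, eval_relv]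
      exact hs j)
    simp only [← hx] at h5
    rw [h3, h4, h6, h0] at h5
    refine ((mk_eq_iff _ U _ _).1 h5).congr fun i => ?_
    rw [Term.eval_apply, eval_relv]
    exact congrArg norm (sub_zero _)
  choose C hC using fun k => (x k).2.2
  obtain ⟨ε, hε, hN⟩ := hN (∑ k, |C k|)
  obtain ⟨i, hi⟩ := (eventually_all.2 fun j => (h2 j).eventually (gt_mem_nhds hε)).exists
  obtain ⟨j, hj⟩ := hN (fun k => (x k).1 i) fun k => ⟨(x k).2.1 i, ((hC k i).trans
    (le_abs_self _)).trans (Finset.single_le_sum (f := fun k => |C k|) (fun _ _ => abs_nonneg _)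
      (Finset.mem_univ k))⟩
  exact (hi j).not_ge hj

end Pool.Agent.MP_755d6b_an.H27
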