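import Pool.Agent.MP_755d6b_an.H27.MainA

/-!
# A separable elementary substructure of the tracial ultrapower
-/

namespace Pool.Agent.MP_755d6b_an.H27

open Filter Topology Pool.Agent.MP_755d6b_an.H98
open scoped InnerProductSpace ComplexOrder

universe u

/-- A bound for the variables of a term. -/
def Term.deg : Term ℕ → ℕ
  | .var i => i + 1
  | .one => 0
  | .add s t => max s.deg t.deg
  | .mul s t => max s.deg t.deg
  | .smul _ t => t.deg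
  | .star t => t.deg

theorem Term.eval_congr {A : Type u} [One A] [Add A] [Mul A] [SMul ℂ A] [Star A] {v w : ℕ → A}
    (t : Term ℕ) (h : ∀ i, i < t.deg → v i = w i) : t.eval v = t.eval w := by
  induction t with
  | var i => exact h i (Nat.lt_succ_self i)
  | one => rfl
  | add s t ihs iht =>
    simp only [Term.eval, ihs fun i hi => h i (hi.trans_le (le_max_left _ _)),
      iht fun i hi => h i (hi.trans_le (le_max_right _ _))]
  | mul s t ihs iht =>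
    simp only [Term.eval, ihs fun i hi => h i (hi.trans_le (le_max_left _ _)),
      iht fun i hi => h i (hi.trans_le (le_max_right _ _))]
  | smul c t ih => simp only [Term.eval, ih h]
  | star t ih => simp only [Term.eval, ih h]

theorem Term.exists_fin {A : Type u} [One A] [Add A] [Mul A] [SMul ℂ A] [Star A] (s : ℕ → A)
    (t : Term ℕ) : ∃ (n : ℕ) (t' : Term (Fin (n + 1))), ∀ z : A,
      t'.eval (Fin.cons z fun i : Fin n => s i) = t.eval s := by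
  refine ⟨t.deg, t.eval fun i => if h : i < t.deg then Term.var (Fin.succ ⟨i, h⟩) else 1,
    fun z => ?_⟩
  rw [Term.eval_eval]
  refine t.eval_congr fun i hi => ?_
  rw [dif_pos hi]
  rfl

/-- The values of all terms at a valuation form a ⋆-subalgebra. -/
def termAlg {A : Type u} [Ring A] [StarRing A] [Algebra ℂ A] [StarModule ℂ A] (s : ℕ → A) :
    StarSubalgebra ℂ A where
  carrier := Set.range fun t : Term ℕ => t.eval s
  mul_mem' := by rintro _ _ ⟨a, rfl⟩ ⟨b, rfl⟩; exact ⟨a * b, rfl⟩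
  add_mem' := by rintro _ _ ⟨a, rfl⟩ ⟨b, rfl⟩; exact ⟨a + b, rfl⟩
  algebraMap_mem' c := ⟨c • 1, (Algebra.algebraMap_eq_smul_one c).symm⟩
  star_mem' := by rintro _ ⟨a, rfl⟩; exact ⟨star a, rfl⟩

theorem capture {A : Type u} [One A] [Add A] [Mul A] [SMul ℂ A] [Star A] {D E : Set A}
    {ν : A → ℝ} (hD : Adm D ν) (hE : E.Nonempty) (hED : E ⊆ D)
    (h : ∀ (n : ℕ) (φ : Form n) (v : Fin n → A), (∀ i, v i ∈ E) → φ.eval E ν v = φ.eval D ν v)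
    {n : ℕ} (t : Term (Fin (n + 1))) {v : Fin n → A} (hv : ∀ i, v i ∈ E) {a : A} (ha : a ∈ D)
    {ε : ℝ} (hε : 0 < ε) :
    ∃ e ∈ E, ν (t.eval (Fin.cons a v)) - ε ≤ ν (t.eval (Fin.cons e v)) := by
  have h1 := h n (Form.sup (Form.atom t)) v hv
  have h2 := le_ciSup (hD.bddAbove (Form.atom t) fun i => hED (hv i)) ⟨a, ha⟩
  rw [Form.eval_sup, Form.eval_sup] at h1
  rw [← h1] at h2
  simp only [Form.eval_atom] at h2
  have := hE.to_subtype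
  obtain ⟨e, he⟩ := exists_lt_of_lt_ciSup ((sub_lt_self _ hε).trans_le h2)
  exact ⟨e, e.2, he.le⟩

variable {H : Type} [NormedAddCommGroup H] [InnerProductSpace ℂ H] [CompleteSpace H]
  {N : VonNeumannAlgebra H} {Ω : H}

/-- The real part of the limit trace. -/
noncomputable def muU (Ω : H) (U : Ultrafilter ℕ) (a : BddS ℕ N) : ℝ :=
  (limUnder U fun i => vecState Ω (a.1 i)).re

omit [CompleteSpace H] in
theorem abs_re_vecState_le (hΩ : ‖Ω‖ = 1) (x : H →L[ℂ] H) : |(vecState Ω x).re| ≤ ‖x‖ := by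
  refine (Complex.abs_re_le_norm _).trans ((norm_inner_le_norm _ _).trans ?_)
  rw [hΩ, one_mul]
  simpa [hΩ] using x.le_opNorm Ω

theorem tendsto_muU (Ω : H) (U : Ultrafilter ℕ) (a : BddS ℕ N) :
    Tendsto (fun i => (vecState Ω (a.1 i)).re) U (𝓝 (muU Ω U a)) :=
  (Complex.continuous_re.tendsto _).comp (tendsto_inner_lim U Ω 1 a)

theorem tendsto_muU_sq (Ω : H) (U : Ultrafilter ℕ) (a : BddS ℕ N) :
    Tendsto (fun i => ‖a.1 i Ω‖ ^ 2) U (𝓝 (muU Ω U (star a * a))) :=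
  (tendsto_muU Ω U (star a * a)).congr fun i => re_vecState_star_mul Ω (a.1 i)

theorem muU_add (Ω : H) (U : Ultrafilter ℕ) (a b : BddS ℕ N) :
    muU Ω U (a + b) = muU Ω U a + muU Ω U b :=
  tendsto_nhds_unique (tendsto_muU Ω U (a + b))
    (((tendsto_muU Ω U a).add (tendsto_muU Ω U b)).congr fun i => by
      show _ = (vecState Ω (a.1 i + b.1 i)).re
      rw [map_add, Complex.add_re])

theorem muU_smul (Ω : H) (U : Ultrafilter ℕ) (r : ℝ) (a : BddS ℕ N) :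
    muU Ω U ((r : ℂ) • a) = r * muU Ω U a :=
  tendsto_nhds_unique (tendsto_muU Ω U ((r : ℂ) • a))
    (((tendsto_muU Ω U a).const_mul r).congr fun i => by
      show _ = (vecState Ω ((r : ℂ) • a.1 i)).re
      rw [map_smul, smul_eq_mul, Complex.re_ofReal_mul])

theorem adm_muU (hΩ : ‖Ω‖ = 1) (U : Ultrafilter ℕ) : Adm (ballB ℕ N) (muU Ω U) := fun _ t =>
  ⟨t.bound, fun v hv => le_of_tendsto' (tendsto_muU Ω U (t.eval v)).abs fun i =>
    (abs_re_vecState_le hΩ _).trans (by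
      rw [Term.eval_apply]
      exact t.norm_eval_le fun j => hv j i)⟩

theorem nearest (hΩ : ‖Ω‖ = 1) (U : Ultrafilter ℕ) {s : ℕ → BddS ℕ N}
    (hs : Set.range s ⊆ ballB ℕ N)
    (h : ∀ (n : ℕ) (φ : Form n) (v : Fin n → BddS ℕ N), (∀ i, v i ∈ Set.range s) →
      φ.eval (Set.range s) (muU Ω U) v = φ.eval (ballB ℕ N) (muU Ω U) v)
    {p : BddS ℕ N} (hp : p ∈ termAlg s) {a : BddS ℕ N} (ha : a ∈ ballB ℕ N) {ε : ℝ} (hε : 0 < ε) :
    ∃ e ∈ Set.range s, muU Ω U (star (e - p) * (e - p)) ≤ muU Ω U (star (a - p) * (a - p)) + ε := by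
  obtain ⟨t, rfl⟩ := hp
  obtain ⟨n, t', ht'⟩ := t.exists_fin s
  obtain ⟨e, he, h1⟩ := capture (adm_muU hΩ U) (Set.range_nonempty s) hs h
    (((-1 : ℝ) : ℂ) • (star (Term.var 0 - t') * (Term.var 0 - t'))) (v := fun i : Fin n => s i)
    (fun i => ⟨i, rfl⟩) ha hε
  simp only [Term.eval_smul, Term.eval_mul, Term.eval_star, Term.eval_sub, Term.eval_var,
    Fin.cons_zero, ht', muU_smul] at h1
  exact ⟨e, he, by linarith⟩

theorem countable_approx (hΩ : ‖Ω‖ = 1) (U : Ultrafilter ℕ) {s : ℕ → BddS ℕ N}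
    (hEb : Set.range s ⊆ ballB ℕ N)
    (hel : ∀ (n : ℕ) (φ : Form n) (v : Fin n → BddS ℕ N), (∀ i, v i ∈ Set.range s) →
      φ.eval (Set.range s) (muU Ω U) v = φ.eval (ballB ℕ N) (muU Ω U) v) :
    ∀ a ∈ termAlg s, ∀ ε : ℝ, 0 < ε → ∃ c ∈ Set.range fun q : ℕ × ℕ => (q.1 : ℂ) • s q.2,
      ∀ᶠ i in (U : Filter ℕ), ‖(a.1 i - c.1 i) Ω‖ ≤ ε := by
  rintro _ ⟨t, rfl⟩ ε hε
  obtain ⟨m, hm⟩ := exists_nat_gt (max t.bound 0)
  have hm0 : (0 : ℝ) < m := (le_max_right _ _).trans_lt hm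
  have hm1 : (m : ℂ) ≠ 0 := by exact_mod_cast hm0.ne'
  have hb : (m : ℂ)⁻¹ • t.eval s ∈ ballB ℕ N := fun i => by
    show ‖(m : ℂ)⁻¹ • (t.eval s).1 i‖ ≤ 1
    rw [norm_smul, norm_inv, Complex.norm_natCast, inv_mul_le_iff₀ hm0, mul_one,
      Term.eval_apply]
    exact (t.norm_eval_le fun j => hEb ⟨j, rfl⟩ i).trans ((le_max_left _ _).trans hm.le)
  obtain ⟨_, ⟨k, rfl⟩, he⟩ := nearest hΩ U hEb hel
    ((termAlg s).smul_mem ⟨t, rfl⟩ (m : ℂ)⁻¹) hb (ε := (ε / m) ^ 2 / 2) (by positivity)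
  have h1 : muU Ω U (0 : BddS ℕ N) = 0 := by simpa using muU_smul Ω U 0 (0 : BddS ℕ N)
  rw [sub_self, mul_zero, h1, zero_add] at he
  refine ⟨_, ⟨(m, k), rfl⟩, ?_⟩
  filter_upwards [(tendsto_muU_sq Ω U (s k - (m : ℂ)⁻¹ • t.eval s)).eventually
    (gt_mem_nhds (he.trans_lt (half_lt_self (by positivity))))] with i hi
  have h2 : (t.eval s).1 i - ((m : ℂ) • s k).1 i =
      (-(m : ℂ)) • (s k - (m : ℂ)⁻¹ • t.eval s).1 i := by
    show (t.eval s).1 i - (m : ℂ) • (s k).1 i =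
      (-(m : ℂ)) • ((s k).1 i - (m : ℂ)⁻¹ • (t.eval s).1 i)
    rw [neg_smul, smul_sub, smul_inv_smul₀ hm1, neg_sub]
  have h3 := (pow_lt_pow_iff_left₀ (norm_nonneg _) (by positivity) two_ne_zero).1 hi
  rw [h2, smul_apply, norm_smul, norm_neg, Complex.norm_natCast, mul_comm]
  exact ((lt_div_iff₀ hm0).1 h3).le

variable {K : Type} [NormedAddCommGroup K] [InnerProductSpace ℂ K] [CompleteSpace K]
  {A : Type} [Ring A] [StarRing A] [Algebra ℂ A]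

/-- The data of a realisation of a countable elementary substructure. -/
structure IsSub (N : VonNeumannAlgebra H) (Ω : H) (U : Ultrafilter ℕ) (M : VonNeumannAlgebra K)
    (Ω' : K) (ι : A →⋆ₐ[ℂ] BddS ℕ N) (r : A →⋆ₐ[ℂ] (K →L[ℂ] K)) (e : ℕ → A) : Prop where
  one : ‖Ω‖ = 1
  tv : IsTV M Ω'
  mem : ∀ a, r a ∈ M
  lim : ∀ a, Tendsto (fun i => ⟪Ω, (ι a).1 i Ω⟫_ℂ) U (𝓝 ⟪Ω', r a Ω'⟫_ℂ)
  norm : ∀ a, ι a ∈ ballB ℕ N → ‖r a‖ ≤ 1
  sub : (Set.range fun k => ι (e k)) ⊆ ballB ℕ N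
  el : ∀ (n : ℕ) (φ : Form n) (v : Fin n → BddS ℕ N), (∀ i, v i ∈ Set.range fun k => ι (e k)) →
    φ.eval (Set.range fun k => ι (e k)) (muU Ω U) v = φ.eval (ballB ℕ N) (muU Ω U) v
  den : ∀ (ξ : K) (ε : ℝ), 0 < ε → ∃ a, ι a ∈ termAlg (fun k => ι (e k)) ∧ ‖ξ - r a Ω'‖ ≤ ε
  kap : ∀ T ∈ ball M, ∀ ε : ℝ, 0 < ε → ∃ a, ι a ∈ ballB ℕ N ∧ ‖(T - r a) Ω'‖ ≤ ε

variable {U : Ultrafilter ℕ} {M : VonNeumannAlgebra K} {Ω' : K} {ι : A →⋆ₐ[ℂ] BddS ℕ N}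
  {r : A →⋆ₐ[ℂ] (K →L[ℂ] K)} {e : ℕ → A}

theorem IsSub.mu (h : IsSub N Ω U M Ω' ι r e) (a : A) :
    (vecState Ω' (r a)).re = muU Ω U (ι a) :=
  tendsto_nhds_unique ((Complex.continuous_re.tendsto _).comp (h.lim a)) (tendsto_muU Ω U (ι a))

theorem IsSub.sq (h : IsSub N Ω U M Ω' ι r e) (a : A) :
    ‖r a Ω'‖ ^ 2 = muU Ω U (star (ι a) * ι a) := by
  rw [← re_vecState_star_mul, ← map_star, ← map_mul, h.mu, map_mul, map_star]

theorem IsSub.ball (h : IsSub N Ω U M Ω' ι r e) : r '' Set.range e ⊆ ball M := by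
  rintro _ ⟨_, ⟨k, rfl⟩, rfl⟩
  exact ⟨h.mem _, h.norm _ (h.sub ⟨k, rfl⟩)⟩

theorem IsSub.dense (h : IsSub N Ω U M Ω' ι r e) :
    ∀ T ∈ H27.ball M, ∀ ε : ℝ, 0 < ε → ∃ x ∈ r '' Set.range e, ‖(T - x) Ω'‖ ≤ ε := by
  intro T hT ε hε
  obtain ⟨a, ha, h1⟩ := h.kap T hT (ε / 5) (by positivity)
  obtain ⟨p, hp, h2⟩ := h.den (r a Ω') (ε / 5) (by positivity)
  obtain ⟨_, ⟨k, rfl⟩, he⟩ := nearest h.one U h.sub h.el hp ha (ε := (ε / 5) ^ 2) (by positivity)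
  rw [← map_sub, ← map_sub, ← h.sq, ← h.sq, map_sub, map_sub, sub_apply, sub_apply] at he
  have h6 : ‖r (e k) Ω' - r p Ω'‖ ≤ 2 * (ε / 5) :=
    (pow_le_pow_iff_left₀ (norm_nonneg _) (by positivity) two_ne_zero).1 (by
      nlinarith [norm_nonneg (r a Ω' - r p Ω')])
  refine ⟨_, ⟨_, ⟨k, rfl⟩, rfl⟩, ?_⟩
  have h7 : (T - r (e k)) Ω' = (T - r a) Ω' + (r a Ω' - r p Ω') - (r (e k) Ω' - r p Ω') := by
    simp only [sub_apply]
    abel
  rw [h7]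
  refine (norm_sub_le _ _).trans ((add_le_add (norm_add_le _ _) le_rfl).trans ?_)
  linarith

theorem IsSub.gap (h : IsSub N Ω U M Ω' ι r e) (hg : Gap N Ω) (k : ℕ) {δ : ℝ} (hδ : 0 < δ) :
    ∃ l, ‖r (e k) Ω'‖ ^ 2 - ‖⟪Ω', r (e k) Ω'⟫_ℂ‖ ^ 2 ≤
      4 * (‖(r (e l) * r (e k) - r (e k) * r (e l)) Ω'‖ ^ 2 + δ) := by
  choose u huN hu1 hu2 using fun i => hg ((ι (e k)).1 i) ((ι (e k)).2.1 i)
  let uB : BddS ℕ N := ⟨u, huN, 1, hu1⟩
  have h2 : ‖r (e k) Ω'‖ ^ 2 - ‖⟪Ω', r (e k) Ω'⟫_ℂ‖ ^ 2 ≤ 4 * muU Ω U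
      (star (uB * ι (e k) - ι (e k) * uB) * (uB * ι (e k) - ι (e k) * uB)) := by
    rw [h.sq]
    exact le_of_tendsto_of_tendsto' ((tendsto_muU_sq Ω U (ι (e k))).sub ((h.lim _).norm.pow 2))
      ((tendsto_muU_sq Ω U (uB * ι (e k) - ι (e k) * uB)).const_mul 4) hu2
  obtain ⟨_, ⟨l, rfl⟩, h3⟩ := capture (adm_muU h.one U) (Set.range_nonempty _) h.sub h.el
    (star (Term.var 0 * Term.var 1 - Term.var 1 * Term.var 0) *
      (Term.var 0 * Term.var 1 - Term.var 1 * Term.var 0)) (v := ![ι (e k)])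
    (fun i => ⟨k, by fin_cases i; rfl⟩) (a := uB) hu1 hδ
  simp only [Term.eval_mul, Term.eval_star, Term.eval_sub, Term.eval_var, Fin.cons_zero,
    Fin.cons_one, Matrix.cons_val_zero] at h3
  have h4 := h.sq (e l * e k - e k * e l)
  simp only [map_sub, map_mul] at h4
  exact ⟨l, by linarith⟩

theorem IsSub.factor (h : IsSub N Ω U M Ω' ι r e) (hg : Gap N Ω) :
    ∀ z ∈ M, (∀ x ∈ M, z * x = x * z) → ∃ c : ℂ, z = c • (1 : K →L[ℂ] K) := by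
  have key : ∀ z ∈ H27.ball M, (∀ x ∈ M, z * x = x * z) →
      ∃ c : ℂ, z = c • (1 : K →L[ℂ] K) := by
    intro z hz hc
    refine h.tv.scalar_of_le hz.1 (le_of_forall_pos_le_add fun ε hε => ?_)
    have hδ : 0 < √ε / 6 := by positivity
    set δ := √ε / 6 with hδ'
    obtain ⟨_, ⟨_, ⟨k, rfl⟩, rfl⟩, h1⟩ := h.dense z hz δ hδ
    obtain ⟨l, h2⟩ := h.gap hg k (δ := δ ^ 2) (by positivity)
    have h5 : r (e l) * r (e k) - r (e k) * r (e l) =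
        r (e l) * (r (e k) - z) - (r (e k) - z) * r (e l) := by
      rw [mul_sub, sub_mul, hc _ (h.mem (e l))]
      abel
    have h6 := h.tv.norm_comm_le (h.mem (e l)) (h.norm _ (h.sub ⟨l, rfl⟩))
      (sub_mem (h.mem (e k)) hz.1)
    have h7 : ‖(r (e k) - z) Ω'‖ = ‖(z - r (e k)) Ω'‖ := norm_sub_rev _ _
    rw [← h5, h7] at h6
    have h8 : ‖(r (e l) * r (e k) - r (e k) * r (e l)) Ω'‖ ^ 2 ≤ (2 * δ) ^ 2 :=
      pow_le_pow_left₀ (norm_nonneg _) (by linarith) 2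
    have h10 := norm_sub_inner_smul_sq h.tv.norm_one (r (e k) Ω') ⟪Ω', r (e k) Ω'⟫_ℂ
    have h11 := norm_sub_inner_smul_sq h.tv.norm_one (z Ω') ⟪Ω', r (e k) Ω'⟫_ℂ
    simp only [sub_self, norm_zero] at h10
    have h12 : ‖r (e k) Ω' - ⟪Ω', r (e k) Ω'⟫_ℂ • Ω'‖ ≤ 5 * δ :=
      (pow_le_pow_iff_left₀ (norm_nonneg _) (by positivity) two_ne_zero).1 (by nlinarith)
    have h13 : ‖z Ω' - ⟪Ω', r (e k) Ω'⟫_ℂ • Ω'‖ ≤ 6 * δ := by
      have h14 : z Ω' - ⟪Ω', r (e k) Ω'⟫_ℂ • Ω' =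
          (z - r (e k)) Ω' + (r (e k) Ω' - ⟪Ω', r (e k) Ω'⟫_ℂ • Ω') := by
        rw [sub_apply]
        abel
      rw [h14]
      exact (norm_add_le _ _).trans (by linarith)
    have h14 := pow_le_pow_left₀ (norm_nonneg _) h13 2
    have h15 : (6 * δ) ^ 2 = ε := by
      rw [hδ', mul_div_cancel₀ _ (by norm_num), Real.sq_sqrt hε.le]
    nlinarith [sq_nonneg ‖⟪Ω', r (e k) Ω'⟫_ℂ - ⟪Ω', z Ω'⟫_ℂ‖]
  intro z hz hc
  have hn : (0 : ℝ) < ‖z‖ + 1 := by positivity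
  have hn' : ((‖z‖ + 1 : ℝ) : ℂ) ≠ 0 := by exact_mod_cast hn.ne'
  obtain ⟨c, hc⟩ := key (((‖z‖ + 1 : ℝ) : ℂ)⁻¹ • z) ⟨smul_mem_vN _ hz, by
    rw [norm_smul, norm_inv, Complex.norm_real, Real.norm_of_nonneg hn.le, inv_mul_le_iff₀ hn]
    linarith⟩ fun x hx => by rw [smul_mul_assoc, mul_smul_comm, hc x hx]
  exact ⟨((‖z‖ + 1 : ℝ) : ℂ) * c, by rw [mul_smul, ← hc, smul_inv_smul₀ hn']⟩

theorem IsSub.same (h : IsSub N Ω U M Ω' ι r e) (hlos : LosStmt) (hd : DenseStmt) :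
    SameTracialTheory N (vecState Ω) M (vecState Ω') := by
  intro φ
  have h1 := hlos H N (fun x => (vecState Ω x).re) (fun x _ => abs_re_vecState_le h.one x) U
    (muU Ω U) (tendsto_muU Ω U) 0 φ ![] fun i => i.elim0
  have h2 : (fun i : ℕ => φ.eval (H27.ball N) (fun x => (vecState Ω x).re)
      fun j => ((![] : Fin 0 → BddS ℕ N) j).1 i) =
      fun _ => φ.eval (H27.ball N) (fun x => (vecState Ω x).re) ![] :=
    funext fun i => congrArg _ (Subsingleton.elim _ _)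
  rw [h2] at h1
  have h3 := Form.eval_map ι (Set.range e) (fun a => muU Ω U (ι a)) (muU Ω U)
    (fun n t v => by rw [Term.eval_hom]) φ ![]
  have h4 := Form.eval_map r (Set.range e) (fun a => muU Ω U (ι a))
    (fun y => (vecState Ω' y).re) (fun n t v => by rw [Term.eval_hom, h.mu]) φ ![]
  have h5 := hd K M Ω' h.tv _ h.ball h.dense 0 φ ![] fun i => i.elim0
  rw [← Set.range_comp] at h3
  rw [tendsto_const_nhds_iff.1 h1, ← h.el 0 φ ![] fun i => i.elim0, ← h5]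
  exact (congrArg _ (Subsingleton.elim _ _)).trans
    (h3.trans (h4.symm.trans (congrArg _ (Subsingleton.elim _ _))))

theorem exists_isSub (hls : LSStmt) (hsub : SubStmt) (h : IsTV N Ω) (U : Ultrafilter ℕ)
    (C : Set (BddS ℕ N)) (hC : C.Countable) (hCb : C ⊆ ballB ℕ N) :
    ∃ (K : Type) (_ : NormedAddCommGroup K) (_ : InnerProductSpace ℂ K) (_ : CompleteSpace K)
      (M : VonNeumannAlgebra K) (Ω' : K) (A : Type) (_ : Ring A) (_ : StarRing A)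
      (_ : Algebra ℂ A) (ι : A →⋆ₐ[ℂ] BddS ℕ N) (r : A →⋆ₐ[ℂ] (K →L[ℂ] K)) (e : ℕ → A),
      TopologicalSpace.SeparableSpace K ∧ IsSub N Ω U M Ω' ι r e ∧ ∀ a ∈ C, ∃ k, ι (e k) = a := by
  have hΩ := h.norm_one
  have h0 : (0 : BddS ℕ N) ∈ ballB ℕ N := fun i => by
    show ‖(0 : H →L[ℂ] H)‖ ≤ 1
    simp
  obtain ⟨E, hE, hCE, hEb, hel⟩ := hls (BddS ℕ N) (ballB ℕ N) (muU Ω U) (muU_add Ω U)
    (muU_smul Ω U) (adm_muU hΩ U) ⟨0, h0⟩ (insert 0 C) (hC.insert 0)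
    (Set.insert_subset h0 hCb)
  obtain ⟨s, rfl⟩ := hE.exists_eq_range ⟨0, hCE (Set.mem_insert _ _)⟩
  obtain ⟨K, i1, i2, i3, M, Ω', A₁, r, hsep, hA, htv, hrM, hlim, hrn, hden, hkap⟩ :=
    hsub H N Ω h U (termAlg s) _ (Set.countable_range _) (countable_approx hΩ U hEb hel)
  exact ⟨K, i1, i2, i3, M, Ω', A₁, inferInstance, inferInstance, inferInstance, A₁.subtype, r,
    fun k => ⟨s k, hA ⟨Term.var k, rfl⟩⟩, hsep,
    ⟨hΩ, htv, hrM, hlim, fun a ha => hrn a 1 ha, hEb, hel, hden, hkap⟩,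
    fun a ha => hCE (Set.mem_insert_of_mem _ ha)⟩

end Pool.Agent.MP_755d6b_an.H27
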