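import Pool.Agent.MP_755d6b_an.H27.MainB

/-!
# The assembly
-/

namespace Pool.Agent.MP_755d6b_an.H27

open Filter Topology Pool.Agent.MP_755d6b_an.H98
open scoped InnerProductSpace ComplexOrder Classical

universe u v

variable {H : Type} [NormedAddCommGroup H] [InnerProductSpace ℂ H] [CompleteSpace H]
  {N : VonNeumannAlgebra H} {Ω : H}
  {K : Type} [NormedAddCommGroup K] [InnerProductSpace ℂ K] [CompleteSpace K]
  {A : Type} [Ring A] [StarRing A] [Algebra ℂ A]
  {U : Ultrafilter ℕ} {M : VonNeumannAlgebra K} {Ω' : K} {ι : A →⋆ₐ[ℂ] BddS ℕ N}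
  {r : A →⋆ₐ[ℂ] (K →L[ℂ] K)} {e : ℕ → A}

theorem IsSub.inner (h : IsSub N Ω U M Ω' ι r e) (a b : A) :
    Tendsto (fun i => ⟪(ι a).1 i Ω, (ι b).1 i Ω⟫_ℂ) U (𝓝 ⟪r a Ω', r b Ω'⟫_ℂ) := by
  have h1 := h.lim (star a * b)
  rw [map_mul r, map_star r, mul_apply_eq_comp, inner_apply_star, map_mul, map_star] at h1
  exact h1.congr fun i => vecState_star_mul Ω _ _

theorem infinite_of_orthonormal {J : Type} [Infinite J] {x : J → K →L[ℂ] K} (hx : ∀ j, x j ∈ M)
    (ho : Orthonormal ℂ fun j => x j Ω') : ¬ FiniteDimensional ℂ M.toStarSubalgebra := by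
  intro hfd
  let f : M.toStarSubalgebra →ₗ[ℂ] K :=
    { toFun := fun x => x.1 Ω'
      map_add' := fun _ _ => rfl
      map_smul' := fun _ _ => rfl }
  have h2 : LinearIndependent ℂ (fun j => (⟨x j, hx j⟩ : M.toStarSubalgebra)) :=
    LinearIndependent.of_comp f ho.linearIndependent
  exact Module.Finite.not_linearIndependent_of_infinite _ h2

theorem main (hls : LSStmt) (hlos : LosStmt) (hd : DenseStmt) (hsub : SubStmt) (hns : NoSolStmt)
    (hm : ModelStmt) (he : EmbStmt) (hg : GrpStmt) (hl : LGStmt) :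
    ∃ (H K : Type) (_ : NormedAddCommGroup H) (_ : InnerProductSpace ℂ H) (_ : CompleteSpace H)
      (_ : NormedAddCommGroup K) (_ : InnerProductSpace ℂ K) (_ : CompleteSpace K)
      (N : VonNeumannAlgebra H) (M : VonNeumannAlgebra K)
      (τ : (H →L[ℂ] H) → ℂ) (σ : (K →L[ℂ] K) → ℂ),
      TopologicalSpace.SeparableSpace H ∧ TopologicalSpace.SeparableSpace K ∧
      IsII1Factor N τ ∧ IsII1Factor M σ ∧ IsHyperfinite N τ ∧ SameTracialTheory N τ M σ ∧
      ¬ SameCStarTheory N M ∧ ¬ CStarEquiv.{u, v} N M := by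
  obtain ⟨G, _, _, _, hicc, hlf, hfin⟩ := hg
  obtain ⟨hgap, hhyp, hsepG⟩ := hl G
  have h : IsTV (LG G) (dl 1) := isTV_LG
  have hU : ((hyperfilter ℕ : Ultrafilter ℕ) : Filter ℕ) ≤ atTop :=
    Nat.cofinite_eq_atTop ▸ hyperfilter_le_cofinite
  obtain ⟨ω, hω, hap⟩ := approx hm he hfin
  choose x hx1 hx2 using fun k : ℕ => hap (1 / ((k : ℝ) + 1)) Nat.one_div_pos_of_nat
  let X : Fin 5 → BddS ℕ (LG G) := fun i =>
    ⟨fun k => x k i, fun k => (hx1 k i).1, 1, fun k => (hx1 k i).2⟩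
  let c : G → BddS ℕ (LG G) := fun g => constB ℕ (lam_mem g)
  obtain ⟨K, i1, i2, i3, M, Ω', A, _, _, _, ι, r, e, hsep, hs, hC⟩ :=
    exists_isSub hls hsub h (hyperfilter ℕ) (Set.range X ∪ Set.range c)
      ((Set.countable_range _).union (Set.countable_range _)) (by
        rintro _ (⟨i, rfl⟩ | ⟨g, rfl⟩)
        · exact fun k => (hx1 k i).2
        · exact fun _ => opNorm_lam_le g)
  choose kX hkX using fun i => hC _ (Or.inl ⟨i, rfl⟩ : X i ∈ Set.range X ∪ Set.range c)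
  choose kc hkc using fun g => hC _ (Or.inr ⟨g, rfl⟩ : c g ∈ Set.range X ∪ Set.range c)
  have hy : ∀ i, r (e (kX i)) ∈ ball M := fun i => hs.ball ⟨_, ⟨_, rfl⟩, rfl⟩
  have hsol : Sol ω fun i => r (e (kX i)) := fun j => by
    rw [relv_hom]
    refine hs.tv.sep _ (hs.mem _) (norm_eq_zero.1 (pow_eq_zero_iff two_ne_zero |>.1 ?_))
    rw [hs.sq]
    refine tendsto_nhds_unique (tendsto_muU_sq _ _ _) ?_
    refine squeeze_zero (fun _ => sq_nonneg _) (fun k => ?_)
      (tendsto_one_div_add_atTop_nhds_zero_nat.mono_left hU)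
    rw [← relv_hom, ← eval_relv, Term.eval_apply, eval_relv]
    simp only [hkX]
    exact hx2 k j
  have hinf : ¬ FiniteDimensional ℂ M.toStarSubalgebra := by
    refine infinite_of_orthonormal (Ω' := Ω') (x := fun g => r (e (kc g))) (fun _ => hs.mem _)
      (orthonormal_iff_ite.2 fun g g' => ?_)
    have h1 := hs.inner (e (kc g)) (e (kc g'))
    rw [hkc, hkc] at h1
    have h2 : ⟪lam g (dl 1), lam g' (dl 1)⟫_ℂ = _ := tendsto_const_nhds_iff.1 h1
    rw [← h2, lam_dl, lam_dl, mul_one, mul_one, inner_dl, dl_apply]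
  exact ⟨L2 G, K, inferInstance, inferInstance, inferInstance, i1, i2, i3, LG G, M,
    vecState (dl 1), vecState Ω', hsepG inferInstance, hsep,
    ⟨h.isTrace, h.factor (hgap hicc), infinite_LG⟩,
    ⟨hs.tv.isTrace, hs.factor (hgap hicc), hinf⟩, hhyp hlf, hs.same hlos hd,
    not_sameCStar (hns G hlf ω hω 1) hy hsol,
    not_cstarEquiv (hns G hlf ω hω) (fun i => (hy i).1) hsol⟩

end Pool.Agent.MP_755d6b_an.H27
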