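import Mathlib

/-!
# Monomial matrices and the data of the model
-/

namespace Pool.Agent.MP_755d6b_an.H27.ModelP

open Polynomial

section Mono

variable {Z : Type} [Fintype Z] [DecidableEq Z]

/-- The monomial matrix sending the basis vector `z` to `f z` times the basis vector `s z`. -/
def mono (s : Z → Z) (f : Z → ℂ) : Matrix Z Z ℂ := fun z z' => if z = s z' then f z' else 0

theorem mono_mul (s s' : Z → Z) (f f' : Z → ℂ) :
    mono s f * mono s' f' = mono (fun z => s (s' z)) (fun z => f (s' z) * f' z) := by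
  ext z z'
  rw [Matrix.mul_apply, Finset.sum_eq_single (s' z')]
  · simp only [mono, if_true]
    split_ifs <;> simp
  · intro b _ hb
    simp only [mono, if_neg hb, mul_zero]
  · intro h
    exact absurd (Finset.mem_univ _) h

omit [Fintype Z] in
theorem mono_star {s s' : Z → Z} (h1 : ∀ z, s (s' z) = z) (h2 : ∀ z, s' (s z) = z) (f : Z → ℂ) :
    star (mono s f) = mono s' (fun z => star (f (s' z))) := by
  ext z z'
  rw [Matrix.star_apply]
  simp only [mono]
  by_cases h : z = s' z'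
  · rw [if_pos h, if_pos (by rw [h, h1]), h]
  · rw [if_neg h, if_neg (fun h' => h (by rw [h', h2])), star_zero]

omit [Fintype Z] in
theorem mono_congr {s s' : Z → Z} {f f' : Z → ℂ} (h1 : ∀ z, s z = s' z) (h2 : ∀ z, f z = f' z) :
    mono s f = mono s' f' := by
  rw [funext h1, funext h2]

omit [Fintype Z] in
theorem mono_one {s : Z → Z} {f : Z → ℂ} (h1 : ∀ z, s z = z) (h2 : ∀ z, f z = 1) :
    mono s f = 1 := by
  ext z z'
  simp only [mono, h1, h2, Matrix.one_apply]

omit [Fintype Z] in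
theorem mono_smul (c : ℂ) (s : Z → Z) (f : Z → ℂ) : c • mono s f = mono s (fun z => c * f z) := by
  ext z z'
  simp only [mono, Matrix.smul_apply, smul_eq_mul]
  split_ifs <;> simp

omit [DecidableEq Z] in
theorem trace_re (D : Matrix Z Z ℂ) :
    (star D * D).trace.re = ∑ z', ∑ z, ‖D z z'‖ ^ 2 := by
  simp only [Matrix.trace, Matrix.diag, Matrix.mul_apply, Matrix.star_apply, Complex.re_sum]
  refine Finset.sum_congr rfl fun z' _ => Finset.sum_congr rfl fun z _ => ?_
  rw [Complex.star_def, Complex.conj_mul', ← Complex.ofReal_pow, Complex.ofReal_re]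

theorem col_sq (s : Z → Z) {f : Z → ℂ} (hf : ∀ z, ‖f z‖ = 1) (z' : Z) :
    ∑ z, ‖mono s f z z'‖ ^ 2 = 1 := by
  rw [Finset.sum_eq_single (s z')]
  · simp [mono, hf]
  · intro b _ hb
    simp [mono, hb]
  · intro h
    exact absurd (Finset.mem_univ _) h

theorem diff_le (s s' : Z → Z) {f f' : Z → ℂ} (hf : ∀ z, ‖f z‖ = 1) (hf' : ∀ z, ‖f' z‖ = 1)
    (B : Finset Z) (hB : ∀ z, z ∉ B → s z = s' z ∧ f z = f' z) :
    (star (mono s f - mono s' f') * (mono s f - mono s' f')).trace.re ≤ 4 * B.card := by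
  rw [trace_re]
  have h : ∀ z', ∑ z, ‖(mono s f - mono s' f') z z'‖ ^ 2 ≤ if z' ∈ B then 4 else 0 := by
    intro z'
    split_ifs with hz
    · calc ∑ z, ‖(mono s f - mono s' f') z z'‖ ^ 2
          ≤ ∑ z, (2 * ‖mono s f z z'‖ ^ 2 + 2 * ‖mono s' f' z z'‖ ^ 2) := by
            refine Finset.sum_le_sum fun z _ => ?_
            rw [Matrix.sub_apply]
            have h1 := norm_sub_le (mono s f z z') (mono s' f' z z')
            have h2 := norm_nonneg (mono s f z z' - mono s' f' z z')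
            nlinarith [sq_nonneg (‖mono s f z z'‖ - ‖mono s' f' z z'‖)]
        _ = 4 := by
            rw [Finset.sum_add_distrib, ← Finset.mul_sum, ← Finset.mul_sum, col_sq s hf,
              col_sq s' hf']
            norm_num
    · refine le_of_eq (Finset.sum_eq_zero fun z _ => ?_)
      simp only [Matrix.sub_apply, mono, (hB z' hz).1, (hB z' hz).2, sub_self, norm_zero]
      norm_num
  refine (Finset.sum_le_sum fun z' _ => h z').trans (le_of_eq ?_)
  rw [Finset.sum_ite_mem, Finset.univ_inter, Finset.sum_const, nsmul_eq_mul, mul_comm]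

end Mono

/-- The ring, the elements and the functionals. -/
theorem exists_data (L : ℕ) [NeZero L] :
    ∃ (V : Type) (_ : CommRing V) (_ : Finite V) (r u : ZMod L → V) (l : ZMod L → V →+ ZMod 5),
      (5 : V) = 0 ∧ (∀ k y, l k (r k * y) = 0) ∧ (∀ k, r k * u k = 0) ∧
      (∀ m, m + 1 ≠ 0 → r (m + 1) = r m * r m) ∧
      ∀ m, m + 1 ≠ 0 → l (m + 1) (r m * u (m + 1)) = 1 := by
  classical
  have : Fact (Nat.Prime 5) := ⟨by norm_num⟩
  have hval : ∀ m : ZMod L, m + 1 ≠ 0 → (m + 1).val = m.val + 1 := by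
    intro m hm
    have h1 : m.val + 1 < L := by
      have h2 := ZMod.val_lt m
      by_contra h3
      have h4 : m.val + 1 = L := by omega
      apply hm
      have h5 : ((m.val + 1 : ℕ) : ZMod L) = 0 := by rw [h4, ZMod.natCast_self]
      rwa [Nat.cast_add, Nat.cast_one, ZMod.natCast_zmod_val] at h5
    have h6 : m + 1 = ((m.val + 1 : ℕ) : ZMod L) := by
      rw [Nat.cast_add, Nat.cast_one, ZMod.natCast_zmod_val]
    rw [h6, ZMod.val_cast_of_lt h1]
  let W : ZMod L → Type := fun k => AdjoinRoot (X ^ (2 ^ k.val) : (ZMod 5)[X])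
  let ρ : ∀ k, W k := fun k => AdjoinRoot.root _
  have hfin : ∀ k, Finite (W k) := fun k => by
    have := (monic_X_pow (R := ZMod 5) (2 ^ k.val)).finite_adjoinRoot
    exact Module.finite_of_finite (ZMod 5)
  have hz : ∀ k, ρ k ^ (2 ^ k.val) = 0 := fun k => by
    have h := AdjoinRoot.mk_self (f := (X ^ (2 ^ k.val) : (ZMod 5)[X]))
    rwa [map_pow, AdjoinRoot.mk_X] at h
  have hnz : ∀ k, ∃ φ : W k →+ ZMod 5, k.val ≠ 0 → φ (ρ k ^ (2 ^ (k.val - 1))) = 1 := fun k => by
    by_cases hk : k.val = 0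
    · exact ⟨0, fun h => absurd hk h⟩
    have h1 : ρ k ^ (2 ^ (k.val - 1)) ≠ 0 := by
      intro h
      have h2 : AdjoinRoot.mk (X ^ (2 ^ k.val) : (ZMod 5)[X]) (X ^ (2 ^ (k.val - 1))) = 0 := by
        rw [map_pow, AdjoinRoot.mk_X]
        exact h
      rw [AdjoinRoot.mk_eq_zero] at h2
      have h3 := natDegree_le_of_dvd h2 (pow_ne_zero _ X_ne_zero)
      rw [natDegree_X_pow, natDegree_X_pow] at h3
      have h4 : 2 ^ (k.val - 1) < 2 ^ k.val := Nat.pow_lt_pow_right (by norm_num) (by omega)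
      omega
    obtain ⟨φ, hφ⟩ := Module.Projective.exists_dual_eq_one (ZMod 5) h1
    exact ⟨φ.toAddMonoidHom, fun _ => hφ⟩
  choose φ hφ using hnz
  refine ⟨∀ k, W k, inferInstance, inferInstance, fun k => ρ ^ (2 ^ k.val), fun k => Pi.single k 1,
    fun k => (φ k).comp (Pi.evalAddMonoidHom W k), ?_, ?_, ?_, ?_, ?_⟩
  · funext k
    have h : ((5 : ℕ) : W k) = algebraMap (ZMod 5) (W k) ((5 : ℕ) : ZMod 5) := (map_natCast _ _).symm
    rw [ZMod.natCast_self, map_zero] at h
    exact_mod_cast h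
  · intro k y
    show φ k (ρ k ^ (2 ^ k.val) * y k) = 0
    rw [hz, zero_mul, map_zero]
  · intro k
    funext j
    show ρ j ^ (2 ^ k.val) * (Pi.single k 1 : ∀ k, W k) j = 0
    by_cases h : j = k
    · subst h
      rw [hz, zero_mul]
    · rw [Pi.single_eq_of_ne h, mul_zero]
  · intro m hm
    show ρ ^ (2 ^ (m + 1).val) = ρ ^ (2 ^ m.val) * ρ ^ (2 ^ m.val)
    rw [hval m hm, ← pow_add, pow_succ, mul_two]
  · intro m hm
    show φ (m + 1) (ρ (m + 1) ^ (2 ^ m.val) * (Pi.single (m + 1) 1 : ∀ k, W k) (m + 1)) = 1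
    have h := hφ (m + 1) (by rw [hval m hm]; omega)
    have e : (m + 1).val - 1 = m.val := by rw [hval m hm, Nat.add_sub_cancel]
    rw [e] at h
    rw [Pi.single_eq_same, mul_one]
    exact h

end Pool.Agent.MP_755d6b_an.H27.ModelP
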