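import Pool.Agent.MP_755d6b_an.H27.Spec
import Pool.Agent.MP_755d6b_an.H27.ModelA

/-!
# Approximate solutions of the relations in matrices
-/

namespace Pool.Agent.MP_755d6b_an.H27

namespace ModelP


variable {L : ℕ} {V : Type} [CommRing V]

/-- The index set. -/
abbrev ZZ (L : ℕ) (V : Type) : Type := ZMod L × V × V × V

/-- Fibrewise elementary maps. -/
def e12 (ρ : ZMod L → V) (z : ZZ L V) : ZZ L V := (z.1, z.2.1 + ρ z.1 * z.2.2.1, z.2.2.1, z.2.2.2)
def e23 (ρ : ZMod L → V) (z : ZZ L V) : ZZ L V := (z.1, z.2.1, z.2.2.1 + ρ z.1 * z.2.2.2, z.2.2.2)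
def e31 (ρ : ZMod L → V) (z : ZZ L V) : ZZ L V := (z.1, z.2.1, z.2.2.1, z.2.2.2 + ρ z.1 * z.2.1)
def e13 (ρ : ZMod L → V) (z : ZZ L V) : ZZ L V := (z.1, z.2.1 + ρ z.1 * z.2.2.2, z.2.2.1, z.2.2.2)
def e21 (ρ : ZMod L → V) (z : ZZ L V) : ZZ L V := (z.1, z.2.1, z.2.2.1 + ρ z.1 * z.2.1, z.2.2.2)
def e32 (ρ : ZMod L → V) (z : ZZ L V) : ZZ L V := (z.1, z.2.1, z.2.2.1, z.2.2.2 + ρ z.1 * z.2.2.1)

/-- The shift. -/
def sh (k : ZMod L) (z : ZZ L V) : ZZ L V := (z.1 + k, z.2)

/-- The translation. -/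
def tr (u : ZMod L → V) (z : ZZ L V) : ZZ L V := (z.1, z.2.1 + u z.1, z.2.2.1, z.2.2.2)

omit [CommRing V] in
theorem ext4 {z z' : ZZ L V} (h1 : z.1 = z'.1) (h2 : z.2.1 = z'.2.1) (h3 : z.2.2.1 = z'.2.2.1)
    (h4 : z.2.2.2 = z'.2.2.2) : z = z' :=
  Prod.ext h1 (Prod.ext h2 (Prod.ext h3 h4))

variable [NeZero L] [Fintype V] [DecidableEq V]

/-- The matrix of a map. -/
def P (s : ZZ L V → ZZ L V) : Matrix (ZZ L V) (ZZ L V) ℂ := mono s fun _ => 1

theorem P_mul (s s' : ZZ L V → ZZ L V) : P s * P s' = P fun z => s (s' z) := by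
  simp only [P, mono_mul, mul_one]

theorem P_star {s s' : ZZ L V → ZZ L V} (h1 : ∀ z, s (s' z) = z) (h2 : ∀ z, s' (s z) = z) :
    star (P s) = P s' := by
  simp only [P, mono_star h1 h2, star_one]

theorem P_congr {s s' : ZZ L V → ZZ L V} (h : ∀ z, s z = s' z) : P s = P s' := by
  rw [funext h]

theorem P_one {s : ZZ L V → ZZ L V} (h : ∀ z, s z = z) : P s = 1 := mono_one h fun _ => rfl

theorem st12 (ρ : ZMod L → V) : star (P (e12 ρ)) = P (e12 (-ρ)) :=
  P_star (fun z => by apply ext4 <;> simp [e12]) (fun z => by apply ext4 <;> simp [e12])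
theorem st23 (ρ : ZMod L → V) : star (P (e23 ρ)) = P (e23 (-ρ)) :=
  P_star (fun z => by apply ext4 <;> simp [e23]) (fun z => by apply ext4 <;> simp [e23])
theorem st31 (ρ : ZMod L → V) : star (P (e31 ρ)) = P (e31 (-ρ)) :=
  P_star (fun z => by apply ext4 <;> simp [e31]) (fun z => by apply ext4 <;> simp [e31])
theorem st21 (ρ : ZMod L → V) : star (P (e21 ρ)) = P (e21 (-ρ)) :=
  P_star (fun z => by apply ext4 <;> simp [e21]) (fun z => by apply ext4 <;> simp [e21])
theorem st32 (ρ : ZMod L → V) : star (P (e32 ρ)) = P (e32 (-ρ)) :=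
  P_star (fun z => by apply ext4 <;> simp [e32]) (fun z => by apply ext4 <;> simp [e32])
theorem stsh (k : ZMod L) : star (P (sh k : ZZ L V → ZZ L V)) = P (sh (-k)) :=
  P_star (fun z => by apply ext4 <;> simp [sh]) (fun z => by apply ext4 <;> simp [sh])

theorem cm0 (ρ σ : ZMod L → V) : cm (P (e12 ρ)) (P (e23 σ)) = P (e13 (ρ * σ)) := by
  simp only [cm, st12, st23, P_mul]
  refine P_congr fun z => ?_
  apply ext4 <;> simp only [e12, e23, e13, Pi.neg_apply, Pi.mul_apply] <;> ring
theorem cm1 (ρ σ : ZMod L → V) : cm (P (e23 ρ)) (P (e31 σ)) = P (e21 (ρ * σ)) := by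
  simp only [cm, st23, st31, P_mul]
  refine P_congr fun z => ?_
  apply ext4 <;> simp only [e23, e31, e21, Pi.neg_apply, Pi.mul_apply] <;> ring
theorem cm2 (ρ σ : ZMod L → V) : cm (P (e31 ρ)) (P (e12 σ)) = P (e32 (ρ * σ)) := by
  simp only [cm, st31, st12, P_mul]
  refine P_congr fun z => ?_
  apply ext4 <;> simp only [e31, e12, e32, Pi.neg_apply, Pi.mul_apply] <;> ring
theorem cm3 (ρ σ : ZMod L → V) : cm (P (e32 ρ)) (P (e21 σ)) = P (e31 (ρ * σ)) := by
  simp only [cm, st32, st21, P_mul]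
  refine P_congr fun z => ?_
  apply ext4 <;> simp only [e32, e21, e31, Pi.neg_apply, Pi.mul_apply] <;> ring

/-- The weighted translation. -/
def Cm (u : ZMod L → V) (w : ZMod L → AddChar V ℂ) : Matrix (ZZ L V) (ZZ L V) ℂ :=
  mono (tr u) fun z => w z.1 z.2.2.2

theorem stC (u : ZMod L → V) (w : ZMod L → AddChar V ℂ) :
    star (Cm u w) = mono (tr (-u)) fun z => star (w z.1 z.2.2.2) :=
  mono_star (fun z => by apply ext4 <;> simp [tr]) (fun z => by apply ext4 <;> simp [tr]) _

/-- The five matrices. -/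
def X (r u : ZMod L → V) (w : ZMod L → AddChar V ℂ) : Fin 5 → Matrix (ZZ L V) (ZZ L V) ℂ :=
  ![P (e12 1), P (e23 1), P (e31 r), P (sh (-1)), Cm u w]

theorem unit (r u : ZMod L → V) (w : ZMod L → AddChar V ℂ) (i : Fin 5) :
    star (X r u w i) * X r u w i = 1 := by
  fin_cases i
  · show star (P (e12 1)) * P (e12 1) = 1
    rw [st12, P_mul]
    exact P_one fun z => by apply ext4 <;> simp [e12]
  · show star (P (e23 1)) * P (e23 1) = 1
    rw [st23, P_mul]
    exact P_one fun z => by apply ext4 <;> simp [e23]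
  · show star (P (e31 r)) * P (e31 r) = 1
    rw [st31, P_mul]
    exact P_one fun z => by apply ext4 <;> simp [e31]
  · show star (P (sh (-1))) * P (sh (-1)) = 1
    rw [stsh, P_mul]
    exact P_one fun z => by apply ext4 <;> simp [sh]
  · show star (Cm u w) * Cm u w = 1
    rw [stC, Cm, mono_mul]
    refine mono_one (fun z => by apply ext4 <;> simp [tr]) fun z => ?_
    show star (w z.1 z.2.2.2) * w z.1 z.2.2.2 = 1
    rw [Complex.star_def, ← AddChar.map_neg_eq_conj, ← AddChar.map_add_eq_mul, neg_add_cancel,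
      AddChar.map_zero_eq_one]

theorem card_bad (m : ZMod L) :
    (L : ℝ) * (Finset.univ.filter fun z : ZZ L V => z.1 = m).card = Fintype.card (ZZ L V) := by
  have h : (Finset.univ.filter fun z : ZZ L V => z.1 = m) = {m} ×ˢ Finset.univ := by
    ext z
    simp only [Finset.mem_filter, Finset.mem_univ, true_and, Finset.mem_product,
      Finset.mem_singleton, and_true]
  rw [h, Finset.card_product, Finset.card_singleton, one_mul, Finset.card_univ,
    Fintype.card_prod (ZMod L), ZMod.card, Nat.cast_mul]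

theorem c1_eq (r u : ZMod L → V) (w : ZMod L → AddChar V ℂ) :
    c1 (X r u w) = mono (tr fun m => u (m + 1)) fun z => w (z.1 + 1) z.2.2.2 := by
  show P (sh (-1)) * Cm u w * star (P (sh (-1))) = _
  rw [stsh, neg_neg]
  simp only [P, Cm, mono_mul]
  refine mono_congr (fun z => ?_) fun z => ?_
  · apply ext4 <;> simp [sh, tr]
  · simp [sh]

theorem c2_eq (r u : ZMod L → V) (w : ZMod L → AddChar V ℂ) :
    c2 (X r u w) = mono
      (fun z => (z.1, z.2.1 + u (z.1 + 1), z.2.2.1, z.2.2.2 + r z.1 * u (z.1 + 1)))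
      fun z => w (z.1 + 1) (z.2.2.2 - r z.1 * z.2.1) := by
  show P (e31 r) * c1 (X r u w) * star (P (e31 r)) = _
  rw [st31, c1_eq]
  simp only [P, mono_mul]
  refine mono_congr (fun z => ?_) fun z => ?_
  · apply ext4 <;> simp only [e31, tr, Pi.neg_apply] <;> ring
  · simp only [e31, Pi.neg_apply, one_mul, mul_one, neg_mul, sub_eq_add_neg]

theorem rel_le (r u : ZMod L → V) (w : ZMod L → AddChar V ℂ) (ζ : ℂ) (hζ : ‖ζ‖ = 1)
    (h5 : (5 : V) = 0) (hw : ∀ k y, w k (r k * y) = 1) (hu : ∀ k, r k * u k = 0)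
    (hr : ∀ m, m + 1 ≠ 0 → r (m + 1) = r m * r m)
    (hz : ∀ m, m + 1 ≠ 0 → w (m + 1) (r m * u (m + 1)) = ζ) {ε : ℝ} (hε : 4 ≤ ε * L) (j : Ix) :
    (star (relv (ζ * ζ) (X r u w) j) * relv (ζ * ζ) (X r u w) j).trace.re ≤
      ε * Fintype.card (ZZ L V) := by
  have hL : (0 : ℝ) < L := Nat.cast_pos.2 (NeZero.pos L)
  have hε0 : 0 ≤ ε := by
    by_contra h
    have := mul_neg_of_neg_of_pos (not_le.1 h) hL
    linarith
  have h0 : ∀ D : Matrix (ZZ L V) (ZZ L V) ℂ, D = 0 →
      (star D * D).trace.re ≤ ε * Fintype.card (ZZ L V) := by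
    rintro D rfl
    rw [mul_zero, Matrix.trace_zero, Complex.zero_re]
    positivity
  have hb : ∀ m : ZMod L, 4 * ((Finset.univ.filter fun z : ZZ L V => z.1 = m).card : ℝ) ≤
      ε * Fintype.card (ZZ L V) := fun m => by
    rw [← card_bad m, ← mul_assoc]
    exact mul_le_mul_of_nonneg_right hε (Nat.cast_nonneg _)
  cases j with
  | u1 i => exact h0 _ (sub_eq_zero.2 (unit r u w i))
  | u2 i => exact h0 _ (sub_eq_zero.2 (mul_eq_one_comm.1 (unit r u w i)))
  | pw i =>
    refine h0 _ (sub_eq_zero.2 ?_)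
    fin_cases i
    · show p5 (P (e12 1)) = 1
      simp only [p5, P_mul]
      refine P_one fun z => ?_
      apply ext4 <;> simp only [e12, Pi.one_apply]
      linear_combination z.2.2.1 * h5
    · show p5 (P (e23 1)) = 1
      simp only [p5, P_mul]
      refine P_one fun z => ?_
      apply ext4 <;> simp only [e23, Pi.one_apply]
      linear_combination z.2.2.2 * h5
    · show p5 (P (e31 r)) = 1
      simp only [p5, P_mul]
      refine P_one fun z => ?_
      apply ext4 <;> simp only [e31]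
      linear_combination r z.1 * z.2.1 * h5
  | h1 i =>
    refine h0 _ (sub_eq_zero.2 ?_)
    fin_cases i
    · show cm (P (e12 1)) (P (e23 1)) * P (e12 1) = P (e12 1) * cm (P (e12 1)) (P (e23 1))
      simp only [cm0, P_mul]
      refine P_congr fun z => ?_
      apply ext4 <;> simp only [e12, e13, Pi.one_apply, Pi.mul_apply] <;> ring
    · show cm (P (e23 1)) (P (e31 r)) * P (e23 1) = P (e23 1) * cm (P (e23 1)) (P (e31 r))
      simp only [cm1, P_mul]
      refine P_congr fun z => ?_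
      apply ext4 <;> simp only [e23, e21, Pi.one_apply, Pi.mul_apply] <;> ring
    · show cm (P (e31 r)) (P (e12 1)) * P (e31 r) = P (e31 r) * cm (P (e31 r)) (P (e12 1))
      simp only [cm2, P_mul]
      refine P_congr fun z => ?_
      apply ext4 <;> simp only [e31, e32, Pi.one_apply, Pi.mul_apply] <;> ring
  | h2 i =>
    refine h0 _ (sub_eq_zero.2 ?_)
    fin_cases i
    · show cm (P (e12 1)) (P (e23 1)) * P (e23 1) = P (e23 1) * cm (P (e12 1)) (P (e23 1))
      simp only [cm0, P_mul]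
      refine P_congr fun z => ?_
      apply ext4 <;> simp only [e23, e13, Pi.one_apply, Pi.mul_apply]
    · show cm (P (e23 1)) (P (e31 r)) * P (e31 r) = P (e31 r) * cm (P (e23 1)) (P (e31 r))
      simp only [cm1, P_mul]
      refine P_congr fun z => ?_
      apply ext4 <;> simp only [e31, e21, Pi.one_apply, Pi.mul_apply]
    · show cm (P (e31 r)) (P (e12 1)) * P (e12 1) = P (e12 1) * cm (P (e31 r)) (P (e12 1))
      simp only [cm2, P_mul]
      refine P_congr fun z => ?_
      apply ext4 <;> simp only [e12, e32, Pi.one_apply, Pi.mul_apply]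
  | tt i =>
    fin_cases i
    · refine h0 _ (sub_eq_zero.2 ?_)
      show P (sh (-1)) * P (e12 1) = P (e12 1) * P (sh (-1))
      simp only [P_mul]
      refine P_congr fun z => ?_
      apply ext4 <;> simp only [e12, sh, Pi.one_apply]
    · refine h0 _ (sub_eq_zero.2 ?_)
      show P (sh (-1)) * P (e23 1) = P (e23 1) * P (sh (-1))
      simp only [P_mul]
      refine P_congr fun z => ?_
      apply ext4 <;> simp only [e23, sh, Pi.one_apply]
    · have h : relv (ζ * ζ) (X r u w) (.tt 2) = P (sh (-1)) * P (e31 r) -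
          cm (cm (P (e31 r)) (P (e12 1))) (cm (P (e23 1)) (P (e31 r))) * P (sh (-1)) := rfl
      refine le_trans ?_ (hb 0)
      show (star (relv (ζ * ζ) (X r u w) (.tt 2)) * relv (ζ * ζ) (X r u w) (.tt 2)).trace.re ≤ _
      rw [h, cm2, cm1, cm3, P_mul, P_mul]
      refine diff_le _ _ (fun _ => norm_one) (fun _ => norm_one) _ fun z hz0 => ⟨?_, rfl⟩
      have hm : z.1 + -1 + 1 ≠ 0 := by simpa using hz0
      have h1 := hr _ hm
      rw [neg_add_cancel_right] at h1
      apply ext4 <;> simp only [e31, sh, mul_one, one_mul, Pi.mul_apply]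
      rw [h1]
  | cc i =>
    refine h0 _ (sub_eq_zero.2 ?_)
    fin_cases i
    · show Cm u w * P (e12 1) = P (e12 1) * Cm u w
      simp only [P, Cm, mono_mul]
      refine mono_congr (fun z => ?_) fun z => ?_
      · apply ext4 <;> simp only [e12, tr, Pi.one_apply, Pi.mul_apply] <;> ring
      · simp only [e12, mul_one, one_mul]
    · show Cm u w * P (e23 1) = P (e23 1) * Cm u w
      simp only [P, Cm, mono_mul]
      refine mono_congr (fun z => ?_) fun z => ?_
      · apply ext4 <;> simp only [e23, tr, Pi.one_apply, Pi.mul_apply]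
      · simp only [e23, mul_one, one_mul]
    · show Cm u w * P (e31 r) = P (e31 r) * Cm u w
      simp only [P, Cm, mono_mul]
      refine mono_congr (fun z => ?_) fun z => ?_
      · apply ext4 <;> simp only [e31, tr]
        rw [mul_add, hu, add_zero]
      · simp only [e31, mul_one, one_mul, AddChar.map_add_eq_mul, hw]
  | weyl =>
    refine le_trans ?_ (hb (-1))
    have h : relv (ζ * ζ) (X r u w) .weyl = c1 (X r u w) * c2 (X r u w) -
        (ζ * ζ) • (c2 (X r u w) * c1 (X r u w)) := rfl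
    rw [h, c2_eq, c1_eq, mono_mul, mono_mul, mono_smul]
    refine diff_le _ _ (fun _ => ?_) (fun _ => ?_) _ fun z hz0 => ⟨?_, ?_⟩
    · simp only [norm_mul, AddChar.norm_apply, mul_one]
    · simp only [norm_mul, AddChar.norm_apply, mul_one, hζ]
    · apply ext4 <;> simp only [tr]
    · have hm : z.1 + 1 ≠ 0 := fun h => hz0 (by simpa using eq_neg_of_add_eq_zero_left h)
      simp only [tr]
      rw [← hz _ hm]
      simp only [← AddChar.map_add_eq_mul]
      exact congrArg _ (by ring)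

end ModelP

open ModelP in
theorem model : ModelStmt := by
  classical
  refine ⟨ZMod.stdAddChar (1 : ZMod 5) * ZMod.stdAddChar (1 : ZMod 5), ?_, fun ε hε => ?_⟩
  · rw [← AddChar.map_add_eq_mul, ← (ZMod.stdAddChar (N := 5)).map_zero_eq_one]
    intro h
    exact absurd (ZMod.injective_stdAddChar h) (by decide)
  obtain ⟨L, hL⟩ := exists_nat_gt (4 / ε)
  have hL0 : (0 : ℝ) < L := (div_pos (by norm_num) hε).trans hL
  have : NeZero L := ⟨(Nat.cast_pos.1 hL0).ne'⟩
  obtain ⟨V, _, _, r, u, l, h5, hl, hu, hr, hz⟩ := exists_data L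
  have : Fintype V := Fintype.ofFinite V
  refine ⟨ZZ L V, inferInstance, inferInstance, inferInstance,
    X r u fun k => (ZMod.stdAddChar (N := 5)).compAddMonoidHom (l k), unit _ _ _, fun j => ?_⟩
  refine rel_le r u _ _ (AddChar.norm_apply _ _) h5 (fun k y => ?_) hu hr (fun m hm => ?_) ?_ j
  · rw [AddChar.compAddMonoidHom_apply, hl, AddChar.map_zero_eq_one]
  · rw [AddChar.compAddMonoidHom_apply, hz m hm]
  · rw [div_lt_iff₀ hε] at hL
    linarith

end Pool.Agent.MP_755d6b_an.H27
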