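import Pool.Agent.MP_755d6b_an.H27.Spec

/-!
# No norm-approximate solutions in the algebra of a locally finite group
-/

namespace Pool.Agent.MP_755d6b_an.H27

open Filter Topology Pool.Agent.MP_755d6b_an.H98
open scoped InnerProductSpace ComplexOrder

namespace NoSolP

section Alg

variable {Q : Type} [Ring Q] [Algebra ℂ Q]

/-- The cofactor of `1 - u` in `qq u`. -/
noncomputable def ww (u : Q) : Q :=
  (1 / 5 : ℂ) • (1 + 1 + 1 + 1 + (u + u + u) + (u * u + u * u) + u * u * u)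

theorem qq_eq (u : Q) : qq u = ww u * (1 - u) := by
  have h1 : (1 : Q) = (1 / 5 : ℂ) • (1 + 1 + 1 + 1 + 1 : Q) := by
    simp only [smul_add]
    rw [← add_smul, ← add_smul, ← add_smul, ← add_smul]
    norm_num
  have h2 : (1 + 1 + 1 + 1 + (u + u + u) + (u * u + u * u) + u * u * u) * (1 - u) =
      (1 + 1 + 1 + 1 + 1) - (1 + u + u * u + u * u * u + u * u * u * u) := by
    noncomm_ring
  rw [ww, smul_mul_assoc, h2, smul_sub, ← h1, qq]

theorem mul_one_sub_qq {u : Q} (hu : p5 u = 1) : u * (1 - qq u) = 1 - qq u := by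
  have h1 : u * (1 + u + u * u + u * u * u + u * u * u * u) =
      u + u * u + u * u * u + u * u * u * u + p5 u := by
    rw [p5]; noncomm_ring
  rw [qq, sub_sub_cancel, mul_smul_comm, h1, hu]
  congr 1
  abel

theorem fix_of_qq {u p : Q} (hu : p5 u = 1) (h : qq u * p = 0) : u * p = p := by
  have h1 : (1 - qq u) * p = p := by rw [sub_mul, one_mul, h, sub_zero]
  calc u * p = u * ((1 - qq u) * p) := by rw [h1]
    _ = p := by rw [← mul_assoc, mul_one_sub_qq hu, h1]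

theorem lap_eq [Star Q] (a : Fin 3 → Q) :
    lap a = ∑ i, (star (qq (a i)) * ww (a i)) * (1 - a i) := by
  rw [lap]
  refine Finset.sum_congr rfl fun i _ => ?_
  rw [mul_assoc, ← qq_eq]

theorem lap_mul_fix [Star Q] {a : Fin 3 → Q} {X : Q} (h : ∀ i, a i * X = X) : lap a * X = 0 := by
  rw [lap_eq, Finset.sum_mul]
  refine Finset.sum_eq_zero fun i _ => ?_
  rw [mul_assoc, sub_mul, one_mul, h, sub_self, mul_zero]

theorem qq_hom {B : Type} [StarRing Q] [Ring B] [StarRing B] [Algebra ℂ B] (f : Q →⋆ₐ[ℂ] B)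
    (u : Q) : qq (f u) = f (qq u) := by
  simp only [qq, map_mul, map_sub, map_smul, map_add, map_one]

end Alg

variable {H : Type} [NormedAddCommGroup H] [InnerProductSpace ℂ H] [CompleteSpace H]
  {N : VonNeumannAlgebra H}

/-- Evaluation of a family at an index. -/
noncomputable def ev (N : VonNeumannAlgebra H) (k : ℕ) : BddS ℕ N →⋆ₐ[ℂ] (H →L[ℂ] H) :=
  (Pi.evalStarAlgHom ℂ (fun _ : ℕ => H →L[ℂ] H) k).comp (BddS ℕ N).subtype

theorem ev_apply (k : ℕ) (a : BddS ℕ N) : ev N k a = a.1 k := rfl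

theorem bdd_ext {a b : BddS ℕ N} (h : ∀ k, ev N k a = ev N k b) : a = b :=
  Subtype.ext (funext h)

theorem lap_nonneg (a : Fin 3 → H →L[ℂ] H) : 0 ≤ lap a :=
  Finset.sum_nonneg fun _ _ => star_mul_self_nonneg _

theorem norm_qq_le (a : Fin 3 → H →L[ℂ] H) {P : H →L[ℂ] H} (hP : ‖P‖ ≤ 1) (i : Fin 3) :
    ‖qq (a i) * P‖ ^ 2 ≤ ‖lap a * P‖ := by
  have h1 : star P * (lap a * P) = ∑ j, star (qq (a j) * P) * (qq (a j) * P) := by
    rw [lap, Finset.sum_mul, Finset.mul_sum]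
    refine Finset.sum_congr rfl fun j _ => ?_
    rw [star_mul]
    simp only [mul_assoc]
  have h2 : star (qq (a i) * P) * (qq (a i) * P) ≤ star P * (lap a * P) := by
    rw [h1]
    exact Finset.single_le_sum (f := fun j => star (qq (a j) * P) * (qq (a j) * P))
      (fun j _ => star_mul_self_nonneg _) (Finset.mem_univ i)
  have h3 := CStarAlgebra.norm_le_norm_of_nonneg_of_le (star_mul_self_nonneg _) h2
  rw [CStarRing.norm_star_mul_self] at h3
  have h4 : ‖star P * (lap a * P)‖ ≤ ‖lap a * P‖ := by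
    refine (norm_mul_le _ _).trans ?_
    rw [norm_star]
    exact mul_le_of_le_one_left (norm_nonneg _) hP
  rw [sq]
  exact h3.trans h4

theorem tendsto_of_sq {f g : ℕ → ℝ} (hf : ∀ k, 0 ≤ f k) (h : ∀ k, f k ^ 2 ≤ g k)
    (hg : Tendsto g atTop (𝓝 0)) : Tendsto f atTop (𝓝 0) := by
  have h1 : Tendsto (fun k => Real.sqrt (g k)) atTop (𝓝 0) := by
    simpa using hg.sqrt
  exact squeeze_zero hf (fun k => Real.le_sqrt_of_sq_le (h k)) h1

/-- Families that kill the vectors `η` in the limit. -/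
def Kill (η : ℕ → H) (a : BddS ℕ N) : Prop := Tendsto (fun k => ‖ev N k a (η k)‖) atTop (𝓝 0)

theorem Kill.add {η : ℕ → H} {a b : BddS ℕ N} (ha : Kill η a) (hb : Kill η b) : Kill η (a + b) := by
  have h1 := Tendsto.add ha hb
  rw [add_zero] at h1
  refine squeeze_zero (fun _ => norm_nonneg _) (fun k => ?_) h1
  rw [map_add, add_apply]
  exact norm_add_le _ _

theorem Kill.mul {η : ℕ → H} (a : BddS ℕ N) {b : BddS ℕ N} (hb : Kill η b) : Kill η (a * b) := by
  obtain ⟨C, hC⟩ := a.2.2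
  have h1 := Tendsto.const_mul C hb
  rw [mul_zero] at h1
  refine squeeze_zero (fun _ => norm_nonneg _) (fun k => ?_) h1
  rw [map_mul, mul_apply_eq_comp]
  exact ((ev N k a).le_opNorm _).trans (mul_le_mul_of_nonneg_right (hC k) (norm_nonneg _))

theorem Kill.sum {η : ℕ → H} {a : Fin 3 → BddS ℕ N} (ha : ∀ i, Kill η (a i)) :
    Kill η (∑ i, a i) := by
  rw [Fin.sum_univ_three]
  exact ((ha 0).add (ha 1)).add (ha 2)

section Core

variable {Q : Type} [Ring Q] [StarRing Q] [Algebra ℂ Q] [StarModule ℂ Q]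
  (q : BddS ℕ N →⋆ₐ[ℂ] Q) (hsur : Function.Surjective q)
  (hker : ∀ a, q a = 0 ↔ Tendsto (fun i => ‖ev N i a‖) atTop (𝓝 0))

omit [StarModule ℂ Q] in
include hsur in
theorem lift_sos {z : Q} (hz : z ∈ AddSubmonoid.closure (Set.range fun y : Q => star y * y)) :
    ∃ s : BddS ℕ N, (∀ k, 0 ≤ ev N k s) ∧ q s = z := by
  induction hz using AddSubmonoid.closure_induction with
  | mem z hz =>
    obtain ⟨y, rfl⟩ := hz
    obtain ⟨a, rfl⟩ := hsur y
    refine ⟨star a * a, fun k => ?_, by rw [map_mul, map_star]⟩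
    rw [map_mul, map_star]
    exact star_mul_self_nonneg _
  | zero => exact ⟨0, fun k => by rw [map_zero], map_zero q⟩
  | add x y _ _ hx hy =>
    obtain ⟨s, hs, rfl⟩ := hx
    obtain ⟨t, ht, rfl⟩ := hy
    refine ⟨s + t, fun k => ?_, map_add q s t⟩
    rw [map_add]
    exact add_nonneg (hs k) (ht k)

omit [StarModule ℂ Q] in
include hsur hker in
theorem fin_quot (hf : FinStmt) {Ω : H} (hΩ : IsTV N Ω) (y : Q) (hy : star y * y = 1) :
    y * star y = 1 := by
  obtain ⟨a, rfl⟩ := hsur y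
  have h1 : q (star a * a - 1) = 0 := by rw [map_sub, map_mul, map_star, map_one, hy, sub_self]
  have h2 := (hker _).1 h1
  simp only [map_sub, map_mul, map_star, map_one] at h2
  have h3 : q (a * star a - 1) = 0 := by
    refine (hker _).2 ?_
    have h4 := h2.const_mul 3
    rw [mul_zero] at h4
    refine squeeze_zero' (Eventually.of_forall fun _ => norm_nonneg _) ?_ h4
    filter_upwards [h2.eventually_le_const (by norm_num : (0 : ℝ) < 1 / 2)] with k hk
    rw [map_sub, map_mul, map_star, map_one]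
    exact hf H N Ω hΩ (ev N k a) (a.2.1 k) _ hk le_rfl
  rwa [map_sub, map_mul, map_star, map_one, sub_eq_zero] at h3

include hsur hker in
theorem core (hs : SosStmt) (ha : AlgStmt) (hc : CfcStmt) (hf : FinStmt) {Ω : H} (hΩ : IsTV N Ω)
    {ω : ℂ} (hω : ω ≠ 1) (Y : Fin 5 → BddS ℕ N) (hY : Sol ω fun i => q (Y i)) (η : ℕ → H)
    (hη : ∀ k, ‖η k‖ = 1) (hinv : ∀ i, Kill η (1 - Y (ia i))) : False := by
  obtain ⟨D, hD⟩ : ∃ D : BddS ℕ N, D = lap fun i => Y (ia i) := ⟨_, rfl⟩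
  have hqD : lap (fun i => q (Y (ia i))) = q D := by rw [hD]; exact lap_hom q _
  have heD : ∀ k, lap (fun i => ev N k (Y (ia i))) = ev N k D := fun k => by
    rw [hD]; exact lap_hom (ev N k) _
  have hp5 : ∀ i, p5 (q (Y (ia i))) = 1 := fun i => sub_eq_zero.1 (hY (.pw i))
  have hsos := hs Q (fun i => q (Y (ia i))) (fun i => sub_eq_zero.1 (hY (.u1 (ia i))))
    (fun i => sub_eq_zero.1 (hY (.u2 (ia i)))) hp5 (fun i => sub_eq_zero.1 (hY (.h1 i)))
    (fun i => sub_eq_zero.1 (hY (.h2 i)))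
  obtain ⟨s, hs0, hs1⟩ := lift_sos q hsur hsos
  have h1 : q (D * D - (1 / 10 : ℂ) • D - s) = 0 := by
    rw [map_sub, map_sub, map_mul, map_smul, hs1, hqD, sub_self]
  have hδ := (hker _).1 h1
  simp only [map_sub, map_mul, map_smul] at hδ
  choose P hPN B hBN hP1 hP2 hB2 e1 e2 e3 using fun k => hc H N (ev N k D) (ev N k s) _ (D.2.1 k)
    (by rw [← heD]; exact lap_nonneg _) (hs0 k) le_rfl
  obtain ⟨P', hP'⟩ : ∃ P' : BddS ℕ N, ∀ k, ev N k P' = P k := ⟨⟨P, hPN, 1, hP2⟩, fun _ => rfl⟩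
  obtain ⟨B', hB'⟩ : ∃ B' : BddS ℕ N, ∀ k, ev N k B' = B k := ⟨⟨B, hBN, 40, hB2⟩, fun _ => rfl⟩
  have f1 : star P' = P' := bdd_ext fun k => by rw [map_star, hP', hP1]
  have f2 : 1 - P' = B' * D := bdd_ext fun k => by rw [map_sub, map_one, map_mul, hP', hB', e1]
  have hDP : Tendsto (fun k => ‖ev N k D * P k‖) atTop (𝓝 0) := by
    have h2 := hδ.const_mul 20
    rw [mul_zero] at h2
    exact squeeze_zero (fun _ => norm_nonneg _) e3 h2
  have g1 : q D * q P' = 0 := by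
    rw [← map_mul]
    refine (hker _).2 ?_
    simpa only [map_mul, hP'] using hDP
  have g2 : 1 - q P' = q B' * q D := by rw [← map_mul, ← f2, map_sub, map_one]
  have g3 : q P' * q P' = q P' := by
    have h2 : (1 - q P') * q P' = 0 := by rw [g2, mul_assoc, g1, mul_zero]
    rw [sub_mul, one_mul, sub_eq_zero] at h2
    exact h2.symm
  have g4 : ∀ i, q (Y (ia i)) * q P' = q P' := fun i => by
    refine fix_of_qq (hp5 i) ?_
    rw [qq_hom, ← map_mul]
    refine (hker _).2 (tendsto_of_sq (fun _ => norm_nonneg _) (fun k => ?_) hDP)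
    have h2 := norm_qq_le (fun i => ev N k (Y (ia i))) (hP2 k) i
    rw [heD, qq_hom] at h2
    rw [map_mul, hP']
    exact h2
  have g5 : q P' = 0 := by
    refine ha Q ω (fun i => q (Y i)) (q P') hω hY (fin_quot q hsur hker hf hΩ)
      (by rw [← map_star, f1]) g3 g4 fun X hX => ?_
    have h2 : (1 - q P') * X = 0 := by rw [g2, mul_assoc, ← hqD, lap_mul_fix hX, mul_zero]
    rw [sub_mul, one_mul, sub_eq_zero] at h2
    exact h2.symm
  have k1 : Kill η P' := by
    refine squeeze_zero (fun _ => norm_nonneg _) (fun k => ?_) ((hker _).1 g5)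
    have h2 := (ev N k P').le_opNorm (η k)
    rwa [hη, mul_one] at h2
  have k2 : Kill η D := by
    rw [hD, lap_eq]
    exact Kill.sum fun i => (hinv i).mul _
  have k3 : Kill η (P' + B' * D) := k1.add (k2.mul _)
  rw [← f2, add_sub_cancel] at k3
  have k4 : Tendsto (fun _ : ℕ => (1 : ℝ)) atTop (𝓝 0) := k3.congr fun k => by
    rw [map_one, one_apply_eq_self, hη]
  exact one_ne_zero (tendsto_nhds_unique tendsto_const_nhds k4)

end Core

theorem near_fix {K : Type} [NormedAddCommGroup K] [InnerProductSpace ℂ K] {σ : H →L[ℂ] H}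
    {U : K →L[ℂ] K} {Ω : H} {η : K} {ε : ℝ} (hε : ε ≤ 1) (hΩ : ‖Ω‖ = 1) (hη : ‖η‖ = 1)
    (hσ : ‖star σ * σ - 1‖ ≤ ε) (hU : ‖U‖ ≤ ‖σ‖ * ‖σ‖)
    (h : ‖σ Ω‖ ^ 2 - ε ≤ (⟪η, U η⟫_ℂ).re) : ‖η - U η‖ ^ 2 ≤ 7 * ε := by
  have h0 : 0 ≤ ε := (norm_nonneg _).trans hσ
  have h1 : ‖σ‖ * ‖σ‖ ≤ 1 + ε := by
    rw [← CStarRing.norm_star_mul_self]
    have h2 := norm_add_le (star σ * σ - 1) 1
    rw [sub_add_cancel] at h2
    have h3 : ‖(1 : H →L[ℂ] H)‖ ≤ 1 := ContinuousLinearMap.norm_id_le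
    linarith
  have h2 : ‖U η‖ ≤ 1 + ε := by
    have h3 := U.le_opNorm η
    rw [hη, mul_one] at h3
    linarith
  have h3 : 1 - ε ≤ ‖σ Ω‖ ^ 2 := by
    have h4 : ⟪Ω, (star σ * σ - 1) Ω⟫_ℂ = ((‖σ Ω‖ ^ 2 - 1 : ℝ) : ℂ) := by
      rw [sub_apply, inner_sub_right, ← vecState_apply, vecState_star_mul,
        one_apply_eq_self, inner_self_eq_norm_sq_to_K, inner_self_eq_norm_sq_to_K, hΩ]
      simp
    have h5 := norm_inner_le_norm (𝕜 := ℂ) Ω ((star σ * σ - 1) Ω)
    have h6 := (star σ * σ - 1).le_opNorm Ω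
    rw [h4, Complex.norm_real, Real.norm_eq_abs, hΩ, one_mul] at h5
    rw [hΩ, mul_one] at h6
    have h7 := neg_abs_le (‖σ Ω‖ ^ 2 - 1)
    linarith
  rw [@norm_sub_sq ℂ, hη, RCLike.re_to_complex]
  have h4 : ‖U η‖ ^ 2 ≤ (1 + ε) ^ 2 := pow_le_pow_left₀ (norm_nonneg _) h2 2
  nlinarith

end NoSolP

open NoSolP in
theorem noSol (hs : SosStmt) (ht : TensStmt) (ha : AlgStmt) (hc : CfcStmt) (hf : FinStmt)
    (hq : QuotStmt) (hm : AmpStmt) : NoSolStmt := by
  intro G _ hG ω hω C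
  by_contra hn
  push Not at hn
  choose x hx hr using fun k : ℕ => hn (1 / ((k : ℝ) + 1)) (by positivity)
  obtain ⟨L, R, hR1, hR2, hL3, hR3, hLR, hmem, hvec⟩ := hm G
  obtain ⟨Q, _, _, _, _, q, hsur, hker⟩ := hq (L2 (G × G)) (LG (G × G))
  have t0 : Tendsto (fun k : ℕ => 1 / ((k : ℝ) + 1)) atTop (𝓝 0) :=
    tendsto_one_div_add_atTop_nhds_zero_nat
  obtain ⟨X, hX⟩ : ∃ X : Fin 5 → BddS ℕ (LG (G × G)), ∀ k i, ev _ k (X i) = L (x k i) :=
    ⟨fun i => ⟨fun k => L (x k i), fun k => (hmem _ (hx k i).1).1, C,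
      fun k => (hL3 _).trans (hx k i).2⟩, fun _ _ => rfl⟩
  obtain ⟨X', hX'⟩ : ∃ X : Fin 5 → BddS ℕ (LG (G × G)), ∀ k i, ev _ k (X i) = R (x k i) :=
    ⟨fun i => ⟨fun k => R (x k i), fun k => (hmem _ (hx k i).1).2, C,
      fun k => (hR3 _).trans (hx k i).2⟩, fun _ _ => rfl⟩
  have s1 : Sol ω fun i => q (X i) := fun j => by
    rw [relv_hom]
    refine (hker _).2 (squeeze_zero (fun _ => norm_nonneg _) (fun k => ?_) t0)
    rw [← ev_apply, ← relv_hom]
    simp only [hX]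
    rw [relv_hom]
    exact (hL3 _).trans (hr k j).le
  have s2 : Sol ((starRingEnd ℂ) ω) fun i => q (X' i) := fun j => by
    rw [relv_hom]
    refine (hker _).2 (squeeze_zero (fun _ => norm_nonneg _) (fun k => ?_) t0)
    rw [← ev_apply, ← relv_hom]
    simp only [hX']
    rw [relv_map R hR1 (hR2 ω)]
    exact (hR3 _).trans (hr k j).le
  have s3 := ht Q ω _ _ _ s1 s2 fun i j => by
    rw [← map_mul, ← map_mul]
    refine congrArg q (bdd_ext fun k => ?_)
    rw [map_mul, map_mul, hX, hX', hLR]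
  have e1 : tens (fun i => q (X i)) (fun i => q (X' i)) = fun i => q (tens X X' i) := by
    funext i
    fin_cases i <;> simp [tens]
  rw [e1] at s3
  choose η hη hin using fun k : ℕ => hvec hG (fun i => x k (ia i)) (fun i => (hx k (ia i)).1)
    (1 / ((k : ℝ) + 1)) (by positivity)
  refine core q hsur hker hs ha hc hf isTV_LG hω (tens X X') s3 η hη fun i => ?_
  have e2 : tens X X' (ia i) = X (ia i) * X' (ia i) := by fin_cases i <;> rfl
  rw [e2]
  have t1 := t0.const_mul 7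
  rw [mul_zero] at t1
  refine tendsto_of_sq (fun _ => norm_nonneg _) (fun k => ?_) t1
  have h1 : 1 / ((k : ℝ) + 1) ≤ 1 := by
    rw [div_le_one (by positivity)]
    linarith [Nat.cast_nonneg (α := ℝ) k]
  rw [map_sub, map_one, map_mul, hX, hX', sub_apply, one_apply_eq_self]
  exact near_fix h1 (norm_dl 1) (hη k)
    (hr k (.u1 (ia i))).le ((norm_mul_le _ _).trans
      (mul_le_mul (hL3 _) (hR3 _) (norm_nonneg _) (norm_nonneg _))) (hin k i)

end Pool.Agent.MP_755d6b_an.H27
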