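import Pool.Agent.MP_755d6b_an.H27.Spec

/-!
# Row Quot: bounded sequences modulo null sequences
-/

namespace Pool.Agent.MP_755d6b_an.H27

open Filter Topology Pool.Agent.MP_755d6b_an.H98

namespace QuotP

/-- The quotient of a ⋆-algebra by a ⋆-closed two-sided ideal. -/
theorem exists_quot (A : Type) [Ring A] [StarRing A] [Algebra ℂ A] [StarModule ℂ A]
    (J : TwoSidedIdeal A) (hs : ∀ a ∈ J, star a ∈ J) :
    ∃ (Q : Type) (_ : Ring Q) (_ : StarRing Q) (_ : Algebra ℂ Q) (_ : StarModule ℂ Q)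
      (q : A →⋆ₐ[ℂ] Q), Function.Surjective q ∧ ∀ a, q a = 0 ↔ a ∈ J := by
  have hc : ∀ a b, J.ringCon a b → J.ringCon (star a) (star b) := fun a b h => by
    rw [J.rel_iff] at h ⊢
    rw [← star_sub]
    exact hs _ h
  have hq := J.ringCon.mkₐ_surjective (α := ℂ)
  let st : J.ringCon.Quotient → J.ringCon.Quotient := Quotient.map' star hc
  have hst : ∀ a, st (J.ringCon.mkₐ ℂ a) = J.ringCon.mkₐ ℂ (star a) := fun _ => rfl
  let i1 : StarRing J.ringCon.Quotient :=
    { star := st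
      star_involutive := fun x => by
        obtain ⟨a, rfl⟩ := hq x
        show st (st _) = _
        rw [hst, hst, star_star]
      star_mul := fun x y => by
        obtain ⟨a, rfl⟩ := hq x
        obtain ⟨b, rfl⟩ := hq y
        show st _ = st _ * st _
        rw [← map_mul, hst, hst, hst, star_mul, map_mul]
      star_add := fun x y => by
        obtain ⟨a, rfl⟩ := hq x
        obtain ⟨b, rfl⟩ := hq y
        show st _ = st _ + st _
        rw [← map_add, hst, hst, hst, star_add, map_add] }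
  have i2 : StarModule ℂ J.ringCon.Quotient := ⟨fun c x => by
    obtain ⟨a, rfl⟩ := hq x
    show st _ = star c • st _
    rw [← map_smul, hst, hst, star_smul, map_smul]⟩
  exact ⟨J.ringCon.Quotient, inferInstance, i1, inferInstance, i2,
    { J.ringCon.mkₐ ℂ with map_star' := fun a => (hst a).symm }, hq, fun a =>
      (J.ringCon.eq (a := a) (b := 0)).trans (J.mem_iff a).symm⟩

end QuotP

theorem quot : QuotStmt := by
  intro H _ _ _ N
  have hb : ∀ (C : ℝ) (f g : ℕ → ℝ), (∀ i, 0 ≤ f i) → (∀ i, f i ≤ C * g i) →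
      Tendsto g atTop (𝓝 0) → Tendsto f atTop (𝓝 0) := fun C f g h0 h1 hg =>
    squeeze_zero h0 h1 (by simpa using hg.const_mul C)
  let S : Set (BddS ℕ N) := {a | Tendsto (fun i => ‖a.1 i‖) atTop (𝓝 0)}
  have h0 : (0 : BddS ℕ N) ∈ S := by
    show Tendsto (fun _ : ℕ => ‖(0 : H →L[ℂ] H)‖) atTop (𝓝 0)
    rw [norm_zero]; exact tendsto_const_nhds
  have h1 : ∀ {x y}, x ∈ S → y ∈ S → x + y ∈ S := fun {x y} hx hy =>
    squeeze_zero (fun _ => norm_nonneg _) (fun i => norm_add_le (x.1 i) (y.1 i))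
      (by simpa using Tendsto.add hx hy)
  have h2 : ∀ {x}, x ∈ S → -x ∈ S := fun {x} hx =>
    hb 1 _ _ (fun _ => norm_nonneg _) (fun i => by
      rw [one_mul]; exact (norm_neg (x.1 i)).le) hx
  have h3 : ∀ {x y}, y ∈ S → x * y ∈ S := fun {x y} hy => by
    obtain ⟨C, hC⟩ := x.2.2
    exact hb C _ _ (fun _ => norm_nonneg _) (fun i => (norm_mul_le (x.1 i) (y.1 i)).trans
      (mul_le_mul_of_nonneg_right (hC i) (norm_nonneg _))) hy
  have h4 : ∀ {x y}, x ∈ S → x * y ∈ S := fun {x y} hx => by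
    obtain ⟨C, hC⟩ := y.2.2
    exact hb C _ _ (fun _ => norm_nonneg _) (fun i => (norm_mul_le (x.1 i) (y.1 i)).trans
      ((mul_comm _ _).trans_le (mul_le_mul_of_nonneg_right (hC i) (norm_nonneg _)))) hx
  obtain ⟨Q, i1, i2, i3, i4, q, hq, hk⟩ := QuotP.exists_quot (BddS ℕ N)
    (TwoSidedIdeal.mk' S h0 h1 h2 h3 h4) fun a ha => by
      rw [TwoSidedIdeal.mem_mk'] at ha ⊢
      exact hb 1 _ _ (fun _ => norm_nonneg _) (fun i => by
        rw [one_mul]; exact (norm_star (a.1 i)).le) ha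
  exact ⟨Q, i1, i2, i3, i4, q, hq, fun a => (hk a).trans (TwoSidedIdeal.mem_mk' _ _ _ _ _ _ a)⟩

end Pool.Agent.MP_755d6b_an.H27
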