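import Pool.Agent.MP_755d6b_an.H27.Spec

/-! The spectral gap of the Laplacian as a sum of squares. -/

namespace Pool.Agent.MP_755d6b_an.H27

namespace SosP

variable {Q : Type} [Ring Q] [Algebra ℂ Q]

/-- The average of the first five powers. -/
noncomputable def pr (u : Q) : Q := (1 / 5 : ℂ) • ∑ k ∈ Finset.range 5, u ^ k

theorem qq_eq (u : Q) : qq u = 1 - pr u := by
  simp [qq, pr, Finset.sum_range_succ, pow_succ]

theorem mul_pr {u : Q} (h : u ^ 5 = 1) : u * pr u = pr u := by
  rw [pr, mul_smul_comm, Finset.mul_sum]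
  simp only [← pow_succ', Finset.sum_range_succ, Finset.sum_range_zero, Nat.reduceAdd, h, pow_zero]
  congr 1
  abel

theorem comm_pr {x u : Q} (h : Commute x u) : Commute x (pr u) :=
  (Commute.sum_right _ _ _ fun k _ => h.pow_right k).smul_right _

theorem pr_mul' {u : Q} (h : u ^ 5 = 1) : pr u * u = pr u :=
  (comm_pr (Commute.refl u)).eq.symm.trans (mul_pr h)

omit [Algebra ℂ Q] in
theorem pow_fix {u X : Q} (h : u * X = X) (k : ℕ) : u ^ k * X = X := by
  induction k with
  | zero => simp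
  | succ k ih => rw [pow_succ, mul_assoc, h, ih]

theorem pr_fix {u X : Q} (h : u * X = X) : pr u * X = X := by
  rw [pr, smul_mul_assoc, Finset.sum_mul]
  simp only [pow_fix h, Finset.sum_const, Finset.card_range]
  module

theorem pr_pr {u : Q} (h : u ^ 5 = 1) : pr u * pr u = pr u := pr_fix (mul_pr h)

omit [Algebra ℂ Q] in
theorem pow_comm {a b c : Q} (h : a * b = c * b * a) (ha : Commute c a) (k : ℕ) :
    a ^ k * b = c ^ k * b * a ^ k := by
  induction k with
  | zero => simp
  | succ k ih =>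
    rw [pow_succ a, mul_assoc, h, mul_assoc c, ← mul_assoc, ← (ha.pow_right k).eq, mul_assoc c,
      ← mul_assoc _ b, ih, pow_succ' c]
    simp only [mul_assoc]

theorem ang {a b c z : Q} (h : a * b = c * b * a) (ha : Commute c a) (hb : Commute c b)
    (hc5 : c ^ 5 = 1) (hb5 : b ^ 5 = 1) (hz : ∀ X, c * X = X → z * X = X) :
    (1 - z) * (pr b * pr a * pr b) = (1 / 5 : ℂ) • ((1 - z) * pr b) := by
  have h1 : ∀ k, c ^ k * (pr b * a ^ k * pr b) = pr b * a ^ k * pr b := fun k => by
    conv_rhs => rw [← mul_pr hb5, ← mul_assoc _ b, mul_assoc _ _ b, pow_comm h ha, mul_pr hb5]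
    rw [← mul_assoc (pr b), ← mul_assoc (pr b), ← (comm_pr (hb.pow_left k)).eq,
      mul_assoc _ _ b, pr_mul' hb5]
    simp only [mul_assoc]
  have h2 : ∀ k, k ^ 4 % 5 = 1 → (1 - z) * (pr b * a ^ k * pr b) = 0 := fun k hk => by
    have h3 := pow_fix (h1 k) (k ^ 3)
    rw [← pow_mul, ← pow_succ', pow_eq_pow_mod _ hc5, hk, pow_one] at h3
    rw [sub_mul, one_mul, hz _ h3, sub_self]
  rw [pr.eq_1 a, mul_smul_comm, smul_mul_assoc, mul_smul_comm, Finset.mul_sum, Finset.sum_mul,
    Finset.mul_sum]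
  simp only [Finset.sum_range_succ, Finset.sum_range_zero, h2 1 rfl, h2 2 rfl, h2 3 rfl, h2 4 rfl,
    pow_zero, mul_one, pr_pr hb5, add_zero, zero_add]

variable [StarRing Q] [StarModule ℂ Q]

theorem star_pr {u : Q} (h : u ^ 5 = 1) (hu : star u * u = 1) : star (pr u) = pr u := by
  have h1 : star (pr u) = pr (star u) := by simp [pr, star_sum]
  have h2 : star (pr u) * pr u = pr u := by
    rw [h1]
    refine pr_fix ?_
    conv_lhs => rw [← mul_pr h, ← mul_assoc, hu, one_mul]
  rw [← h2, star_mul, star_star]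

/-- The sums of squares. -/
abbrev SS (Q : Type) [Ring Q] [StarRing Q] : AddSubmonoid Q :=
  AddSubmonoid.closure (Set.range fun y : Q => star y * y)

theorem sq_mem {y : Q} (hy : star y = y) (c : ℝ) (hc : 0 ≤ c) : (c : ℂ) • (y * y) ∈ SS Q := by
  refine AddSubmonoid.subset_closure ⟨((√c : ℝ) : ℂ) • y, ?_⟩
  simp only [star_smul, hy, smul_mul_smul_comm, Complex.star_def, Complex.conj_ofReal]
  rw [← Complex.ofReal_mul, Real.mul_self_sqrt hc]

theorem pj_mem {y : Q} (hy : star y = y) (h : y * y = y) (c : ℝ) (hc : 0 ≤ c) :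
    (c : ℂ) • y ∈ SS Q := by
  simpa only [h] using sq_mem hy c hc

theorem cornerA {w P R : Q} (sw : star w = w) (sP : star P = P) (sR : star R = R)
    (ww : w * w = w) (PP : P * P = P) (RR : R * R = R) (wP : w * P = P) (wR : w * R = R)
    (Pw : P * w = P) (Rw : R * w = R) (h1 : P * (R * P) = (1 / 5 : ℂ) • P)
    (h2 : R * (P * R) = (1 / 5 : ℂ) • R) :
    (w - P + (w - R)) * (w - P + (w - R)) - (11 / 20 : ℂ) • (w - P + (w - R)) ∈ SS Q := by
  obtain ⟨r, hr⟩ : ∃ r, r = P + R := ⟨_, rfl⟩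
  have sr : star r = r := by rw [hr, star_add, sP, sR]
  have wr : w * r = r := by rw [hr, mul_add, wP, wR]
  have rw' : r * w = r := by rw [hr, add_mul, Pw, Rw]
  have r3 : r * (r * r) = (2 : ℂ) • (r * r) - (4 / 5 : ℂ) • r := by
    simp only [hr, mul_add, add_mul, PP, RR, h1, h2, ← mul_assoc P P, ← mul_assoc R R]
    module
  have hs : w - P + (w - R) = (2 : ℂ) • w - r := by rw [hr]; module
  obtain ⟨E, hE⟩ : ∃ E, E = (5 / 4 : ℂ) • ((2 : ℂ) • r - r * r) := ⟨_, rfl⟩
  have sE : star E = E := by simp [hE, sr]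
  have rE : r * E = r := by
    simp only [hE, mul_smul_comm, mul_sub, r3]
    module
  have Er : E * r = r := by simpa only [star_mul, sr, sE] using congrArg star rE
  have EE : E * E = E := by
    conv_lhs => rw [hE, smul_mul_assoc, ← hE, sub_mul, smul_mul_assoc, mul_assoc, rE]
    exact hE.symm
  have wE : w * E = E := by simp only [hE, mul_smul_comm, mul_sub, wr, ← mul_assoc]
  have Ew : E * w = E := by simpa only [star_mul, sw, sE] using congrArg star wE
  have k1 := pj_mem (y := w - E) (by rw [star_sub, sw, sE])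
    (by simp [mul_sub, sub_mul, ww, wE, Ew, EE]) (29 / 10) (by norm_num)
  have k2 := sq_mem (y := (29 / 20 : ℂ) • E - r) (by simp [sE, sr]) (29 / 18) (by norm_num)
  have k3 := pj_mem sE EE (11 / 7200) (by norm_num)
  have hr2 : r * r = (2 : ℂ) • r - (4 / 5 : ℂ) • E := by rw [hE]; module
  refine (congrArg (· ∈ SS Q) ?_).mp (add_mem (add_mem k1 k2) k3)
  simp only [hs, mul_sub, sub_mul, smul_mul_assoc, mul_smul_comm, ww, wr, rw', EE, rE, Er, hr2]
  push_cast
  module

theorem cornerB {w P R : Q} (sw : star w = w) (sP : star P = P) (sR : star R = R)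
    (ww : w * w = w) (PP : P * P = P) (RR : R * R = R) (wP : w * P = P) (wR : w * R = R)
    (Pw : P * w = P) (Rw : R * w = R) (h : Commute P R) :
    (w - P + (w - R)) * (w - P + (w - R)) - (11 / 20 : ℂ) • (w - P + (w - R)) ∈ SS Q := by
  have h1 : (w - P) * (w - P) = w - P := by simp [mul_sub, sub_mul, ww, wP, Pw, PP]
  have h2 : (w - R) * (w - R) = w - R := by simp [mul_sub, sub_mul, ww, wR, Rw, RR]
  have h3 : Commute (w - P) (w - R) := by
    simp only [Commute, SemiconjBy, mul_sub, sub_mul, ww, wP, wR, Pw, Rw, h.eq]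
    abel
  have s1 : star (w - P) = w - P := by rw [star_sub, sw, sP]
  have s2 : star (w - R) = w - R := by rw [star_sub, sw, sR]
  generalize w - P = x at *
  generalize w - R = y at *
  have k1 := pj_mem (y := x * y) (by rw [star_mul, s1, s2, h3.eq])
    (by rw [h3.symm.mul_mul_mul_comm, h1, h2]) 2 (by norm_num)
  refine (congrArg (· ∈ SS Q) ?_).mp (add_mem (add_mem k1 (pj_mem s1 h1 (9 / 20) (by norm_num)))
    (pj_mem s2 h2 (9 / 20) (by norm_num)))
  simp only [mul_add, add_mul, h1, h2, ← h3.eq]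
  push_cast
  module

theorem pair {a b : Q} (a1 : star a * a = 1) (a2 : a * star a = 1) (b1 : star b * b = 1)
    (b2 : b * star b = 1) (a5 : a ^ 5 = 1) (b5 : b ^ 5 = 1) (ha : Commute (cm a b) a)
    (hb : Commute (cm a b) b) :
    (qq a + qq b) * (qq a + qq b) - (11 / 20 : ℂ) • (qq a + qq b) ∈ SS Q := by
  have h : a * b = cm a b * b * a := by
    simp only [cm, mul_assoc, b1, a1, mul_one]
  have c1 : star (cm a b) * cm a b = 1 := by
    simp only [cm, star_mul, star_star, mul_assoc, ← mul_assoc (star a) a, a1, one_mul,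
      ← mul_assoc (star b) b, b1, ← mul_assoc a (star a), a2, b2]
  generalize cm a b = c at *
  have c5 : c ^ 5 = 1 := by
    have h1 := pow_comm h ha 5
    rw [a5, one_mul, mul_one] at h1
    rw [← mul_one (c ^ 5), ← b2, ← mul_assoc, ← h1]
  have h' : b * a = c ^ 4 * a * b := by
    rw [mul_assoc, h, ← mul_assoc, ← mul_assoc, ← pow_succ, c5, one_mul]
  have k1 := ang h ha hb c5 b5 (z := pr c) fun X => pr_fix
  have k2 := ang h' (hb.pow_left 4) (ha.pow_left 4)
    (by rw [← pow_mul, mul_comm, pow_mul, c5, one_pow]) a5 (z := pr c) fun X hX =>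
      pr_fix (by rw [← hX, ← mul_assoc, ← pow_succ', c5, one_mul, hX])
  have zb : Commute b (pr c) := comm_pr hb.symm
  have k3 : Commute (pr c * pr a) (pr b) := by
    refine comm_pr (Commute.symm ?_)
    rw [pr.eq_1 a, mul_smul_comm, Finset.mul_sum]
    refine (Commute.sum_right _ _ _ fun k _ => ?_).smul_right _
    rw [Commute, SemiconjBy, mul_assoc, pow_comm h ha, ← mul_assoc, zb.eq, ← mul_assoc, ← mul_assoc,
      ← (comm_pr ((Commute.refl c).pow_left k)).eq, pow_fix (mul_pr c5)]
  have zP : Commute (pr c) (pr a) := comm_pr (comm_pr ha.symm).symm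
  have zR : Commute (pr c) (pr b) := comm_pr zb.symm
  have sz := star_pr c5 c1
  have sP := star_pr a5 a1
  have sR := star_pr b5 b1
  have zz := pr_pr c5
  have PP := pr_pr a5
  have RR := pr_pr b5
  rw [qq_eq, qq_eq]
  generalize pr a = P at *
  generalize pr b = R at *
  generalize pr c = z at *
  have key : ∀ w : Q, star w = w → w * w = w → ∀ {X : Q}, star X = X → X * X = X → Commute w X →
      star (w * X) = w * X ∧ w * X * (w * X) = w * X ∧ w * (w * X) = w * X ∧ w * X * w = w * X :=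
    fun w sw ww X sX XX hc => ⟨by rw [star_mul, sw, sX, hc.eq],
      by rw [hc.symm.mul_mul_mul_comm, ww, XX], by rw [← mul_assoc, ww],
      by rw [mul_assoc, ← hc.eq, ← mul_assoc, ww]⟩
  have sw : star (1 - z) = 1 - z := by simp [sz]
  have ww : (1 - z) * (1 - z) = 1 - z := by simp [mul_sub, sub_mul, zz]
  have wP : Commute (1 - z) P := (Commute.one_left _).sub_left zP
  have wR : Commute (1 - z) R := (Commute.one_left _).sub_left zR
  obtain ⟨p1, p2, p3, p4⟩ := key z sz zz sP PP zP
  obtain ⟨q1, q2, q3, q4⟩ := key z sz zz sR RR zR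
  obtain ⟨r1, r2, r3, r4⟩ := key _ sw ww sP PP wP
  obtain ⟨t1, t2, t3, t4⟩ := key _ sw ww sR RR wR
  have tri : ∀ {w X Y : Q}, w * w = w → Commute w X → Commute w Y →
      w * X * (w * Y * (w * X)) = w * (X * Y * X) := fun {w X Y} ww hX hY => by
    rw [hY.symm.mul_mul_mul_comm, ww, hX.symm.mul_mul_mul_comm, ww, mul_assoc]
  have m1 := cornerA sw r1 t1 ww r2 t2 r3 t3 r4 t4 ((tri ww wP wR).trans k2)
    ((tri ww wR wP).trans k1)
  have m2 := cornerB sz p1 q1 zz p2 q2 p3 q3 p4 q4
    (Commute.mul_right (p4.trans p3.symm) k3)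
  have sp : ∀ w : Q, w * w = w → Commute w P → Commute w R →
      (w - w * P + (w - w * R)) * (w - w * P + (w - w * R)) -
        (11 / 20 : ℂ) • (w - w * P + (w - w * R)) =
      w * ((1 - P + (1 - R)) * (1 - P + (1 - R)) - (11 / 20 : ℂ) • (1 - P + (1 - R))) :=
    fun w ww hP hR => by
      have h1 : w - w * P + (w - w * R) = w * (1 - P + (1 - R)) := by
        simp only [mul_add, mul_sub, mul_one]
      have h2 : Commute w (1 - P + (1 - R)) :=
        ((Commute.one_right _).sub_right hP).add_right ((Commute.one_right _).sub_right hR)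
      rw [h1, h2.symm.mul_mul_mul_comm, ww, mul_sub, mul_smul_comm]
  rw [sp _ ww wP wR] at m1
  rw [sp _ zz zP zR] at m2
  have m3 := add_mem m1 m2
  rwa [← add_mul, sub_add_cancel, one_mul] at m3

end SosP

open SosP in
theorem sos : SosStmt := by
  intro Q _ _ _ _ a h1 h2 h5 h3 h4
  have a5 : ∀ i, a i ^ 5 = 1 := fun i => by simpa [p5, pow_succ] using h5 i
  have hp := fun i => pair (h1 i) (h2 i) (h1 (i + 1)) (h2 (i + 1)) (a5 i) (a5 (i + 1)) (h3 i) (h4 i)
  have hq : ∀ i, qq (a i) * qq (a i) = qq (a i) := fun i => by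
    simp [qq_eq, mul_sub, sub_mul, pr_pr (a5 i)]
  have hs : ∀ i, star (qq (a i)) = qq (a i) := fun i => by simp [qq_eq, star_pr (a5 i) (h1 i)]
  refine (congrArg (· ∈ SS Q) ?_).mp (add_mem (add_mem (hp 0) (hp 1)) (hp 2))
  simp only [lap, Fin.sum_univ_three, hs, hq, mul_add, add_mul, Fin.reduceAdd]
  module

end Pool.Agent.MP_755d6b_an.H27
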