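import Pool.Agent.MP_755d6b_an.H27.Basic

/-!
# The relations and the statements of the steps
-/

namespace Pool.Agent.MP_755d6b_an.H27

open Filter Topology Pool.Agent.MP_755d6b_an.H98
open scoped InnerProductSpace ComplexOrder

universe u

section Rel

variable {A : Type u}

/-- The group commutator of unitaries. -/
def cm [Mul A] [Star A] (x y : A) : A := x * y * star x * star y

/-- The fifth power. -/
def p5 [Mul A] (x : A) : A := x * x * x * x * x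

/-- The substitution `e₁₂(1), e₂₃(1), e₃₁(r) ↦ e₁₂(1), e₂₃(1), e₃₁(r²)`. -/
def ph [Mul A] [Star A] (a : Fin 3 → A) : Fin 3 → A :=
  ![a 0, a 1, cm (cm (a 2) (a 0)) (cm (a 1) (a 2))]

/-- The first three of the five variables. -/
def ia : Fin 3 → Fin 5 := ![0, 1, 2]

/-- The conjugate of the last variable by the fourth. -/
def c1 [Mul A] [Star A] (x : Fin 5 → A) : A := x 3 * x 4 * star (x 3)

/-- The conjugate of `c1` by the third variable. -/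
def c2 [Mul A] [Star A] (x : Fin 5 → A) : A := x 2 * c1 x * star (x 2)

/-- The index set of the relations. -/
inductive Ix : Type
  | u1 (i : Fin 5)
  | u2 (i : Fin 5)
  | pw (i : Fin 3)
  | h1 (i : Fin 3)
  | h2 (i : Fin 3)
  | tt (i : Fin 3)
  | cc (i : Fin 3)
  | weyl
  deriving DecidableEq, Fintype

/-- The relations, as differences of the two sides. -/
def relv [One A] [Mul A] [Star A] [Sub A] [SMul ℂ A] (ω : ℂ) (x : Fin 5 → A) : Ix → A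
  | .u1 i => star (x i) * x i - 1
  | .u2 i => x i * star (x i) - 1
  | .pw i => p5 (x (ia i)) - 1
  | .h1 i => cm (x (ia i)) (x (ia (i + 1))) * x (ia i) - x (ia i) * cm (x (ia i)) (x (ia (i + 1)))
  | .h2 i => cm (x (ia i)) (x (ia (i + 1))) * x (ia (i + 1)) -
      x (ia (i + 1)) * cm (x (ia i)) (x (ia (i + 1)))
  | .tt i => x 3 * x (ia i) - ph (fun j => x (ia j)) i * x 3
  | .cc i => x 4 * x (ia i) - x (ia i) * x 4
  | .weyl => c1 x * c2 x - ω • (c2 x * c1 x)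

/-- An exact solution of the relations. -/
def Sol [Ring A] [Star A] [SMul ℂ A] (ω : ℂ) (x : Fin 5 → A) : Prop := ∀ j, relv ω x j = 0

/-- The product of two commuting solutions, the last variable taken from the first one. -/
def tens [Mul A] (x y : Fin 5 → A) : Fin 5 → A :=
  ![x 0 * y 0, x 1 * y 1, x 2 * y 2, x 3 * y 3, x 4]

/-- One minus the average of the powers. -/
noncomputable def qq [Ring A] [SMul ℂ A] (u : A) : A :=
  1 - (1 / 5 : ℂ) • (1 + u + u * u + u * u * u + u * u * u * u)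

/-- The Laplacian. -/
noncomputable def lap [Ring A] [Star A] [SMul ℂ A] (a : Fin 3 → A) : A :=
  ∑ i, star (qq (a i)) * qq (a i)

theorem relv_map {B : Type*} [Ring A] [Star A] [SMul ℂ A] [Ring B] [Star B] [SMul ℂ B]
    (f : A →+* B) (hst : ∀ x, f (star x) = star (f x)) {ω ω' : ℂ}
    (hs : ∀ x, f (ω • x) = ω' • f x) (x : Fin 5 → A) (j : Ix) :
    relv ω' (fun i => f (x i)) j = f (relv ω x j) := by
  have hp : ∀ i, ph (fun j => f (x (ia j))) i = f (ph (fun j => x (ia j)) i) := fun i => by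
    fin_cases i <;> simp [ph, cm, hst]
  cases j <;> simp only [relv, cm, p5, c1, c2, hp, map_sub, map_mul, map_one, hst, hs]

theorem relv_hom {B : Type*} [Ring A] [StarRing A] [Algebra ℂ A] [Ring B] [StarRing B]
    [Algebra ℂ B] (f : A →⋆ₐ[ℂ] B) (ω : ℂ) (x : Fin 5 → A) (j : Ix) :
    relv ω (fun i => f (x i)) j = f (relv ω x j) :=
  relv_map (f : A →+* B) (map_star f) (map_smul f ω) x j

theorem lap_hom {B : Type*} [Ring A] [StarRing A] [Algebra ℂ A] [Ring B] [StarRing B]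
    [Algebra ℂ B] (f : A →⋆ₐ[ℂ] B) (a : Fin 3 → A) : lap (fun i => f (a i)) = f (lap a) := by
  simp only [lap, qq, map_sum, map_mul, map_star, map_sub, map_smul, map_add, map_one]

theorem eval_relv [Ring A] [Star A] [Module ℂ A] (ω : ℂ) (x : Fin 5 → A) (j : Ix) :
    (relv ω Term.var j).eval x = relv ω x j := by
  have hp : ∀ i, (ph (fun j => Term.var (ia j)) i).eval x = ph (fun j => x (ia j)) i := fun i => by
    fin_cases i <;> simp [ph, cm]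
  cases j <;> simp only [relv, cm, p5, c1, c2, hp, Term.eval_sub, Term.eval_mul, Term.eval_one,
    Term.eval_star, Term.eval_smul, Term.eval_var]

end Rel

/-- Nontrivial conjugacy classes are infinite. -/
def ICC (G : Type) [Group G] : Prop := ∀ g : G, g ≠ 1 → (Set.range fun h : G => h⁻¹ * g * h).Infinite

/-- Finite subsets lie in finite subgroups. -/
def LocFin (G : Type) [Group G] : Prop :=
  ∀ s : Finset G, ∃ F : Subgroup G, (F : Set G).Finite ∧ ∀ g ∈ s, g ∈ F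

/-- All finite symmetric groups embed. -/
def HasFin (G : Type) [Group G] : Prop :=
  ∀ (F : Type) [Finite F], ∃ ι : Equiv.Perm F →* G, Function.Injective ι

/-- Row Grp: the finitary permutations of `ℕ`. -/
def GrpStmt : Prop :=
  ∃ (G : Type) (_ : Group G), Countable G ∧ Infinite G ∧ ICC G ∧ LocFin G ∧ HasFin G

/-- Row LGP: properties of group von Neumann algebras. -/
def LGStmt : Prop :=
  ∀ (G : Type) [Group G], (ICC G → Gap (LG G) (dl 1)) ∧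
    (LocFin G → IsHyperfinite (LG G) (vecState (dl 1))) ∧
    (Countable G → TopologicalSpace.SeparableSpace (L2 G))

/-- Row LS: the downward Löwenheim–Skolem theorem. -/
def LSStmt : Prop :=
  ∀ (A : Type) [Ring A] [StarRing A] [Algebra ℂ A] [StarModule ℂ A] (D : Set A) (ν : A → ℝ),
    (∀ x y, ν (x + y) = ν x + ν y) → (∀ (r : ℝ) x, ν ((r : ℂ) • x) = r * ν x) → Adm D ν →
    D.Nonempty → ∀ C : Set A, C.Countable → C ⊆ D →
    ∃ E : Set A, E.Countable ∧ C ⊆ E ∧ E ⊆ D ∧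
      ∀ (n : ℕ) (φ : Form n) (v : Fin n → A), (∀ i, v i ∈ E) → φ.eval E ν v = φ.eval D ν v

/-- Row Los: the theorem of Łoś. -/
def LosStmt : Prop :=
  ∀ (H : Type) [NormedAddCommGroup H] [InnerProductSpace ℂ H] [CompleteSpace H]
    (N : VonNeumannAlgebra H) (ν : (H →L[ℂ] H) → ℝ), (∀ x ∈ N, |ν x| ≤ ‖x‖) →
    ∀ (U : Ultrafilter ℕ) (μ : BddS ℕ N → ℝ),
      (∀ a : BddS ℕ N, Tendsto (fun i => ν (a.1 i)) U (𝓝 (μ a))) →
      ∀ (n : ℕ) (φ : Form n) (v : Fin n → BddS ℕ N), (∀ j, v j ∈ ballB ℕ N) →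
        Tendsto (fun i => φ.eval (ball N) ν fun j => (v j).1 i) U (𝓝 (φ.eval (ballB ℕ N) μ v))

/-- Row Dense: quantifiers may range over a 2-norm dense subset of the ball. -/
def DenseStmt : Prop :=
  ∀ (H : Type) [NormedAddCommGroup H] [InnerProductSpace ℂ H] [CompleteSpace H]
    (M : VonNeumannAlgebra H) (Ω : H), IsTV M Ω → ∀ D : Set (H →L[ℂ] H), D ⊆ ball M →
    (∀ T ∈ ball M, ∀ ε : ℝ, 0 < ε → ∃ x ∈ D, ‖(T - x) Ω‖ ≤ ε) →
    ∀ (n : ℕ) (φ : Form n) (v : Fin n → H →L[ℂ] H), (∀ i, v i ∈ ball M) →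
      φ.eval D (fun x => (vecState Ω x).re) v = φ.eval (ball M) (fun x => (vecState Ω x).re) v

/-- Row Kap: the two halves of the Kaplansky density argument. -/
def KapStmt : Prop :=
  ∀ (H : Type) [NormedAddCommGroup H] [InnerProductSpace ℂ H] [CompleteSpace H]
    (M : VonNeumannAlgebra H),
    (∀ y ∈ M, ∃ w ∈ M, w * (1 + star y * y) = 1 ∧ (1 + star y * y) * w = 1 ∧ ‖w‖ ≤ 1 ∧
      ‖(2 : ℂ) • (y * w)‖ ≤ 1) ∧
    ∀ Ω : H, IsTV M Ω → ∀ T ∈ ball M, ∃ s ∈ M, ∀ y ∈ M, ∀ w : H →L[ℂ] H,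
      w * (1 + star y * y) = 1 → (1 + star y * y) * w = 1 →
      ‖(T - (2 : ℂ) • (y * w)) Ω‖ ≤ 4 * ‖(y - s) Ω‖

/-- Row Sub: the von Neumann algebra generated by a separable subalgebra of the ultrapower. -/
def SubStmt : Prop :=
  ∀ (H : Type) [NormedAddCommGroup H] [InnerProductSpace ℂ H] [CompleteSpace H]
    (N : VonNeumannAlgebra H) (Ω : H), IsTV N Ω → ∀ (U : Ultrafilter ℕ)
    (A₀ : StarSubalgebra ℂ (BddS ℕ N)) (C : Set (BddS ℕ N)), C.Countable →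
    (∀ a ∈ A₀, ∀ ε : ℝ, 0 < ε → ∃ c ∈ C, ∀ᶠ i in (U : Filter ℕ), ‖(a.1 i - c.1 i) Ω‖ ≤ ε) →
    ∃ (K : Type) (_ : NormedAddCommGroup K) (_ : InnerProductSpace ℂ K) (_ : CompleteSpace K)
      (M : VonNeumannAlgebra K) (Ω' : K) (A₁ : StarSubalgebra ℂ (BddS ℕ N))
      (r : A₁ →⋆ₐ[ℂ] (K →L[ℂ] K)),
      TopologicalSpace.SeparableSpace K ∧ A₀ ≤ A₁ ∧ IsTV M Ω' ∧ (∀ a, r a ∈ M) ∧
      (∀ a : A₁, Tendsto (fun i => ⟪Ω, a.1.1 i Ω⟫_ℂ) U (𝓝 ⟪Ω', r a Ω'⟫_ℂ)) ∧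
      (∀ (a : A₁) (B : ℝ), (∀ i, ‖a.1.1 i‖ ≤ B) → ‖r a‖ ≤ B) ∧
      (∀ (ξ : K) (ε : ℝ), 0 < ε → ∃ a : A₁, a.1 ∈ A₀ ∧ ‖ξ - r a Ω'‖ ≤ ε) ∧
      ∀ T ∈ ball M, ∀ ε : ℝ, 0 < ε → ∃ a : A₁, a.1 ∈ ballB ℕ N ∧ ‖(T - r a) Ω'‖ ≤ ε

/-- Row Sos: the spectral gap as a sum of squares. -/
def SosStmt : Prop :=
  ∀ (Q : Type) [Ring Q] [StarRing Q] [Algebra ℂ Q] [StarModule ℂ Q] (a : Fin 3 → Q),
    (∀ i, star (a i) * a i = 1) → (∀ i, a i * star (a i) = 1) → (∀ i, p5 (a i) = 1) →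
    (∀ i, cm (a i) (a (i + 1)) * a i = a i * cm (a i) (a (i + 1))) →
    (∀ i, cm (a i) (a (i + 1)) * a (i + 1) = a (i + 1) * cm (a i) (a (i + 1))) →
    lap a * lap a - (1 / 10 : ℂ) • lap a ∈
      AddSubmonoid.closure (Set.range fun y : Q => star y * y)

/-- Row Alg, first part: products of commuting solutions. -/
def TensStmt : Prop :=
  ∀ (Q : Type) [Ring Q] [StarRing Q] [Algebra ℂ Q] [StarModule ℂ Q] (ω ω' : ℂ) (x y : Fin 5 → Q),
    Sol ω x → Sol ω' y → (∀ i j, x i * y j = y j * x i) → Sol ω (tens x y)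

/-- Row Alg, second part: the Kazhdan projection vanishes in a finite algebra. -/
def AlgStmt : Prop :=
  ∀ (Q : Type) [Ring Q] [StarRing Q] [Algebra ℂ Q] [StarModule ℂ Q] (ω : ℂ) (x : Fin 5 → Q)
    (P : Q), ω ≠ 1 → Sol ω x → (∀ y : Q, star y * y = 1 → y * star y = 1) → star P = P →
    P * P = P → (∀ i, x (ia i) * P = P) → (∀ X, (∀ i, x (ia i) * X = X) → P * X = X) → P = 0

/-- Row Cfc, first part: the approximate Kazhdan projection. -/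
def CfcStmt : Prop :=
  ∀ (H : Type) [NormedAddCommGroup H] [InnerProductSpace ℂ H] [CompleteSpace H]
    (N : VonNeumannAlgebra H) (Δ s : H →L[ℂ] H) (δ : ℝ), Δ ∈ N → 0 ≤ Δ → 0 ≤ s →
    ‖Δ * Δ - (1 / 10 : ℂ) • Δ - s‖ ≤ δ →
    ∃ P ∈ N, ∃ B ∈ N, star P = P ∧ ‖P‖ ≤ 1 ∧ ‖B‖ ≤ 40 ∧ 1 - P = B * Δ ∧ 1 - P = Δ * B ∧
      ‖Δ * P‖ ≤ 20 * δ

/-- Row Cfc, second part: almost isometries are almost unitaries. -/
def FinStmt : Prop :=
  ∀ (H : Type) [NormedAddCommGroup H] [InnerProductSpace ℂ H] [CompleteSpace H]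
    (N : VonNeumannAlgebra H) (Ω : H), IsTV N Ω → ∀ y ∈ N, ∀ δ : ℝ, δ ≤ 1 / 2 →
    ‖star y * y - 1‖ ≤ δ → ‖y * star y - 1‖ ≤ 3 * δ

/-- Row Quot: bounded sequences modulo null sequences. -/
def QuotStmt : Prop :=
  ∀ (H : Type) [NormedAddCommGroup H] [InnerProductSpace ℂ H] [CompleteSpace H]
    (N : VonNeumannAlgebra H),
    ∃ (Q : Type) (_ : Ring Q) (_ : StarRing Q) (_ : Algebra ℂ Q) (_ : StarModule ℂ Q)
      (q : BddS ℕ N →⋆ₐ[ℂ] Q), Function.Surjective q ∧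
      ∀ a, q a = 0 ↔ Tendsto (fun i => ‖a.1 i‖) atTop (𝓝 0)

/-- Row Amp: the maps `x ↦ x ⊗ 1`, `y ↦ 1 ⊗ ȳ` and the almost invariant vectors. -/
def AmpStmt : Prop :=
  ∀ (G : Type) [Group G],
    ∃ (L : (L2 G →L[ℂ] L2 G) →⋆ₐ[ℂ] (L2 (G × G) →L[ℂ] L2 (G × G)))
      (R : (L2 G →L[ℂ] L2 G) →+* (L2 (G × G) →L[ℂ] L2 (G × G))),
      (∀ x, R (star x) = star (R x)) ∧ (∀ (c : ℂ) x, R (c • x) = (starRingEnd ℂ c) • R x) ∧
      (∀ x, ‖L x‖ ≤ ‖x‖) ∧ (∀ x, ‖R x‖ ≤ ‖x‖) ∧ (∀ x y, L x * R y = R y * L x) ∧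
      (∀ x ∈ LG G, L x ∈ LG (G × G) ∧ R x ∈ LG (G × G)) ∧
      (LocFin G → ∀ σ : Fin 3 → L2 G →L[ℂ] L2 G, (∀ i, σ i ∈ LG G) → ∀ ε : ℝ, 0 < ε →
        ∃ η : L2 (G × G), ‖η‖ = 1 ∧
          ∀ i, ‖σ i (dl 1)‖ ^ 2 - ε ≤ (⟪η, (L (σ i) * R (σ i)) η⟫_ℂ).re)

/-- Row NoSol: no norm-approximate solutions in the algebra of a locally finite group. -/
def NoSolStmt : Prop :=
  ∀ (G : Type) [Group G], LocFin G → ∀ ω : ℂ, ω ≠ 1 → ∀ C : ℝ, ∃ ε : ℝ, 0 < ε ∧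
    ∀ x : Fin 5 → L2 G →L[ℂ] L2 G, (∀ i, x i ∈ LG G ∧ ‖x i‖ ≤ C) → ∃ j, ε ≤ ‖relv ω x j‖

/-- Row Model: approximate solutions in matrices, for the normalised Hilbert–Schmidt norm. -/
def ModelStmt : Prop :=
  ∃ ω : ℂ, ω ≠ 1 ∧ ∀ ε : ℝ, 0 < ε →
    ∃ (Z : Type) (_ : Fintype Z) (_ : DecidableEq Z) (_ : Nonempty Z) (x : Fin 5 → Matrix Z Z ℂ),
      (∀ i, star (x i) * x i = 1) ∧
      ∀ j, (star (relv ω x j) * relv ω x j).trace.re ≤ ε * Fintype.card Z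

/-- Row Units: almost unital systems of matrix units. -/
def UnitsStmt : Prop :=
  ∀ (G : Type) [Group G], HasFin G → ∀ n : ℕ, 0 < n → ∀ ε : ℝ, 0 < ε →
    ∃ (Y : Type) (_ : Fintype Y) (_ : DecidableEq Y) (f : Y → L2 G →L[ℂ] L2 G)
      (p : L2 G →L[ℂ] L2 G) (b : ℝ), n ∣ Fintype.card Y ∧ (∀ y, f y ∈ LG G) ∧
      (∀ y y', f y * star (f y') = if y = y' then p else 0) ∧ (∀ y, p * f y = f y) ∧
      vecState (dl 1) p = b ∧ 1 - ε ≤ Fintype.card Y * b ∧ Fintype.card Y * b ≤ 1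

/-- Row Emb: almost unital embeddings of matrix algebras. -/
def EmbStmt : Prop :=
  ∀ (G : Type) [Group G], HasFin G → ∀ (Z : Type) [Fintype Z] [DecidableEq Z] [Nonempty Z]
    (ε : ℝ), 0 < ε →
    ∃ (Θ : (Matrix Z Z ℂ × ℂ) →⋆ₐ[ℂ] (L2 G →L[ℂ] L2 G)) (β : ℝ), 1 - ε ≤ β ∧ β ≤ 1 ∧
      (∀ y, Θ y ∈ LG G) ∧ ∀ (A : Matrix Z Z ℂ) (κ : ℂ),
        vecState (dl 1) (Θ (A, κ)) = β * (A.trace / Fintype.card Z) + (1 - β) * κ

end Pool.Agent.MP_755d6b_an.H27
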