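import Pool.Agent.MP_755d6b_an.H27.Spec

/-!
# The von Neumann algebra generated by a separable subalgebra of the ultrapower
-/

namespace Pool.Agent.MP_755d6b_an.H27

open Filter Topology Pool.Agent.MP_755d6b_an.H98
open scoped InnerProductSpace

namespace SubP

variable {H : Type} [NormedAddCommGroup H] [InnerProductSpace ℂ H] [CompleteSpace H]
  {N : VonNeumannAlgebra H} {Ω : H} (h : IsTV N Ω) (U : Ultrafilter ℕ)
  (A₀ : StarSubalgebra ℂ (BddS ℕ N))

/-- The closure of the image of `A₀`. -/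
noncomputable def K0 : Submodule ℂ (UH h U) :=
  (A₀.toSubalgebra.toSubmodule.map (hat h U)).topologicalClosure

theorem K0_closed : IsClosed (K0 h U A₀ : Set (UH h U)) := Submodule.isClosed_topologicalClosure _

instance : CompleteSpace (K0 h U A₀) := (K0_closed h U A₀).completeSpace_coe

variable {h U A₀}

theorem hat_mem {a : BddS ℕ N} (ha : a ∈ A₀) : hat h U a ∈ K0 h U A₀ :=
  Submodule.le_topologicalClosure _ ⟨a, ha, rfl⟩

theorem K0_ind {p : UH h U → Prop} (hp : IsClosed {ξ | p ξ}) (ih : ∀ a ∈ A₀, p (hat h U a))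
    {ξ : UH h U} (hξ : ξ ∈ K0 h U A₀) : p ξ :=
  closure_minimal (s := (A₀.toSubalgebra.toSubmodule.map (hat h U) : Set (UH h U)))
    (t := {ξ | p ξ}) (by rintro _ ⟨a, ha, rfl⟩; exact ih a ha) hp hξ

theorem maps {f : UH h U → UH h U} (hf : Continuous f)
    (ih : ∀ a ∈ A₀, f (hat h U a) ∈ K0 h U A₀) : ∀ ξ ∈ K0 h U A₀, f ξ ∈ K0 h U A₀ := fun _ hξ =>
  K0_ind (p := fun ξ => f ξ ∈ K0 h U A₀) ((K0_closed h U A₀).preimage hf) ih hξ

theorem J_mem : ∀ ξ ∈ K0 h U A₀, conjJ h U ξ ∈ K0 h U A₀ :=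
  maps (conjJ h U).continuous fun a ha => by rw [conjJ_hat]; exact hat_mem (star_mem ha)

theorem L_mem {a : BddS ℕ N} (ha : hat h U a ∈ K0 h U A₀) :
    ∀ ξ ∈ K0 h U A₀, piH h U a ξ ∈ K0 h U A₀ :=
  maps (piH h U a).continuous fun b hb => by
    rw [piH_hat, ← piR_hat]
    exact maps (piR h U b).continuous
      (fun c hc => by rw [piR_hat]; exact hat_mem (mul_mem hc hb)) _ ha

theorem R_mem {a : BddS ℕ N} (ha : hat h U a ∈ K0 h U A₀) :
    ∀ ξ ∈ K0 h U A₀, piR h U a ξ ∈ K0 h U A₀ :=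
  maps (piR h U a).continuous fun b hb => by
    rw [piR_hat, ← piH_hat]
    exact L_mem (hat_mem hb) _ ha

theorem inv_mem {g w : BddS ℕ N} (hg : g ∈ A₀) (h1 : w * g = 1) (h2 : g * w = 1) :
    hat h U w ∈ K0 h U A₀ := by
  obtain ⟨ξ, hξ, η, hη, e⟩ := (K0 h U A₀).exists_add_mem_mem_orthogonal (hat h U w)
  have a1 : piH h U g η ∈ K0 h U A₀ := by
    have : piH h U g η = hat h U 1 - piH h U g ξ := by
      rw [← h2, ← piH_hat, e, map_add, add_sub_cancel_left]
    rw [this]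
    exact sub_mem (hat_mem (one_mem _)) (L_mem (hat_mem hg) _ hξ)
  have a2 : piH h U g η = 0 := by
    refine inner_self_eq_zero (𝕜 := ℂ).1 ?_
    rw [← inner_star_apply, ← map_star]
    exact Submodule.inner_right_of_mem_orthogonal (L_mem (hat_mem (star_mem hg)) _ a1) hη
  have a3 : η = 0 := by
    have := congrArg (piH h U w) a2
    rwa [← mul_apply_eq_comp, ← map_mul, h1, map_one, one_apply_eq_self, map_zero] at this
  rw [e, a3, add_zero]
  exact hξ

variable (h U A₀)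

/-- The elements whose class lies in the closure. -/
noncomputable def A1 : StarSubalgebra ℂ (BddS ℕ N) where
  carrier := {a | hat h U a ∈ K0 h U A₀}
  mul_mem' := fun {a b} ha hb => by
    show hat h U (a * b) ∈ K0 h U A₀
    rw [← piH_hat]
    exact L_mem ha _ hb
  add_mem' := fun {a b} ha hb => by
    show hat h U (a + b) ∈ K0 h U A₀
    rw [map_add]
    exact add_mem ha hb
  algebraMap_mem' := fun c => hat_mem (A₀.algebraMap_mem c)
  star_mem' := fun {a} ha => by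
    show hat h U (star a) ∈ K0 h U A₀
    rw [← conjJ_hat]
    exact J_mem _ ha

variable {h U A₀}

theorem star_res {S T : K0 h U A₀ →L[ℂ] K0 h U A₀} {X : UH h U →L[ℂ] UH h U}
    (hT : ∀ ξ, (T ξ : UH h U) = X ξ) (hS : ∀ ξ, (S ξ : UH h U) = (star X) ξ) : S = star T := by
  rw [ContinuousLinearMap.star_eq_adjoint, ContinuousLinearMap.eq_adjoint_iff]
  intro ξ η
  rw [Submodule.coe_inner, Submodule.coe_inner, hS, hT, inner_star_apply]

variable (h U A₀)

/-- The left action on the closure, as a function. -/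
noncomputable def rL0 (a : A1 h U A₀) : K0 h U A₀ →L[ℂ] K0 h U A₀ :=
  (piH h U a.1).restrict (L_mem a.2)

theorem rL0_coe (a : A1 h U A₀) (ξ : K0 h U A₀) :
    (rL0 h U A₀ a ξ : UH h U) = piH h U a.1 ξ := rfl

theorem rL0_smul (c : ℂ) (a : A1 h U A₀) : rL0 h U A₀ (c • a) = c • rL0 h U A₀ a :=
  ContinuousLinearMap.ext fun ξ => Subtype.ext (by
    rw [smul_apply, Submodule.coe_smul, rL0_coe, rL0_coe,
      show (c • a).1 = c • a.1 from rfl, map_smul, smul_apply])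

theorem rL0_one : rL0 h U A₀ 1 = 1 :=
  ContinuousLinearMap.ext fun ξ => Subtype.ext (by
    rw [rL0_coe, show (1 : A1 h U A₀).1 = 1 from rfl, map_one, one_apply_eq_self,
      one_apply_eq_self])

/-- The left action on the closure. -/
noncomputable def rL : A1 h U A₀ →⋆ₐ[ℂ] (K0 h U A₀ →L[ℂ] K0 h U A₀) where
  toFun := rL0 h U A₀
  map_one' := rL0_one h U A₀
  map_mul' a b := ContinuousLinearMap.ext fun ξ => Subtype.ext (by
    rw [mul_apply_eq_comp, rL0_coe, rL0_coe, rL0_coe, show (a * b).1 = a.1 * b.1 from rfl,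
      map_mul, mul_apply_eq_comp])
  map_zero' := ContinuousLinearMap.ext fun ξ => Subtype.ext (by
    rw [rL0_coe, show (0 : A1 h U A₀).1 = 0 from rfl, map_zero]; rfl)
  map_add' a b := ContinuousLinearMap.ext fun ξ => Subtype.ext (by
    rw [add_apply, Submodule.coe_add, rL0_coe, rL0_coe, rL0_coe,
      show (a + b).1 = a.1 + b.1 from rfl, map_add, add_apply])
  commutes' c := by
    rw [Algebra.algebraMap_eq_smul_one, Algebra.algebraMap_eq_smul_one, rL0_smul, rL0_one]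
  map_star' a := star_res (X := piH h U a.1) (rL0_coe h U A₀ a) fun ξ => by
    rw [rL0_coe, show (star a).1 = star a.1 from rfl, map_star]

/-- The right action on the closure. -/
noncomputable def rR (a : A1 h U A₀) : K0 h U A₀ →L[ℂ] K0 h U A₀ :=
  (piR h U a.1).restrict (R_mem a.2)

/-- The tracial vector. -/
noncomputable def Ω1 : K0 h U A₀ := ⟨hat h U 1, hat_mem (one_mem _)⟩

variable {h U A₀}

theorem rL_coe (a : A1 h U A₀) (ξ : K0 h U A₀) : (rL h U A₀ a ξ : UH h U) = piH h U a.1 ξ := rfl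

theorem rR_coe (a : A1 h U A₀) (ξ : K0 h U A₀) : (rR h U A₀ a ξ : UH h U) = piR h U a.1 ξ := rfl

theorem rL_Ω (a : A1 h U A₀) : (rL h U A₀ a (Ω1 h U A₀) : UH h U) = hat h U a.1 := piH_UΩ h U a.1

theorem rR_Ω (a : A1 h U A₀) : (rR h U A₀ a (Ω1 h U A₀) : UH h U) = hat h U a.1 := by
  rw [rR_coe]
  exact (piR_hat h U a.1 1).trans (by rw [one_mul])

theorem rR_star (a : A1 h U A₀) : rR h U A₀ (star a) = star (rR h U A₀ a) :=
  star_res (X := piR h U a.1) (fun _ => rfl) fun ξ => by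
    show piR h U (star a.1) ξ.1 = _
    rw [piR_star]

theorem range_star : ∀ r ∈ Set.range (rR h U A₀), star r ∈ Set.range (rR h U A₀) := by
  rintro _ ⟨a, rfl⟩
  exact ⟨star a, rR_star a⟩

theorem rL_mem (a : A1 h U A₀) : rL h U A₀ a ∈ vnComm (Set.range (rR h U A₀)) := by
  refine (mem_vnComm range_star).2 ?_
  rintro _ ⟨b, rfl⟩
  refine ContinuousLinearMap.ext fun ξ => Subtype.ext ?_
  exact congrArg (fun T : UH h U →L[ℂ] UH h U => T ξ.1)
    ((mem_vnComm (piR_range_star h U)).1 (piH_mem h U a.1) _ ⟨b.1, rfl⟩)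

theorem J_symm (ξ η : UH h U) : ⟪conjJ h U ξ, η⟫_ℂ = ⟪conjJ h U η, ξ⟫_ℂ := by
  refine hat_induction h U (p := fun ξ => ⟪conjJ h U ξ, η⟫_ℂ = ⟪conjJ h U η, ξ⟫_ℂ)
    (isClosed_eq (by fun_prop) (by fun_prop)) (fun b => ?_) ξ
  refine hat_induction h U
    (p := fun η => ⟪conjJ h U (hat h U b), η⟫_ℂ = ⟪conjJ h U η, hat h U b⟫_ℂ)
    (isClosed_eq (by fun_prop) (by fun_prop)) (fun c => ?_) η
  rw [conjJ_hat, conjJ_hat, inner_hat_star]

theorem isTV : IsTV (vnComm (Set.range (rR h U A₀))) (Ω1 h U A₀) := by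
  refine isTV_vnComm range_star (isTV_UM h U).norm_one (fun ξ hξ => ?_)
    (fun ξ => ⟨conjJ h U ξ.1, J_mem _ ξ.2⟩) (fun ξ η => J_symm ξ.1 η.1) ?_
  · refine inner_self_eq_zero (𝕜 := ℂ).1 ?_
    refine K0_ind (p := fun η => ⟪ξ.1, η⟫_ℂ = 0) (isClosed_eq (by fun_prop) (by fun_prop))
      (fun b hb => ?_) ξ.2
    have := hξ _ ⟨⟨b, hat_mem hb⟩, rfl⟩
    rwa [Submodule.coe_inner, rR_Ω] at this
  · rintro _ ⟨a, rfl⟩
    refine Subtype.ext ?_
    show _ = conjJ h U (rR h U A₀ a (Ω1 h U A₀) : UH h U)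
    rw [← rR_star, rR_Ω, rR_Ω, conjJ_hat]
    rfl

theorem dense (ξ : K0 h U A₀) {ε : ℝ} (hε : 0 < ε) :
    ∃ a : A1 h U A₀, a.1 ∈ A₀ ∧ ‖ξ - rL h U A₀ a (Ω1 h U A₀)‖ ≤ ε := by
  obtain ⟨_, ⟨a, ha, rfl⟩, hd⟩ := Metric.mem_closure_iff.1 ξ.2 ε hε
  refine ⟨⟨a, hat_mem ha⟩, ha, ?_⟩
  rw [← Submodule.norm_coe, Submodule.coe_sub, rL_Ω, ← dist_eq_norm]
  exact hd.le

end SubP

open SubP

theorem sub (hk : KapStmt) : SubStmt := by
  intro H _ _ _ N Ω h U A₀ C hC hA
  refine ⟨K0 h U A₀, inferInstance, inferInstance, inferInstance, vnComm (Set.range (rR h U A₀)),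
    Ω1 h U A₀, A1 h U A₀, rL h U A₀, ?_, fun a ha => hat_mem ha, isTV, rL_mem, fun a => ?_,
    fun a B hB => ?_, fun ξ ε hε => dense ξ hε, fun T hT ε hε => ?_⟩
  · refine TopologicalSpace.IsSeparable.separableSpace
      ⟨hat h U '' C, hC.image _, fun ξ hξ => ?_⟩
    refine K0_ind (p := fun ξ => ξ ∈ closure (hat h U '' C)) isClosed_closure (fun a ha => ?_) hξ
    refine Metric.mem_closure_iff.2 fun ε hε => ?_
    obtain ⟨c, hc, he⟩ := hA a ha (ε / 2) (half_pos hε)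
    refine ⟨_, ⟨c, hc, rfl⟩, ?_⟩
    rw [dist_eq_norm, ← map_sub]
    exact (le_of_tendsto (tendsto_norm_hat h U (a - c)) he).trans_lt (half_lt_self hε)
  · rw [Submodule.coe_inner, rL_Ω]
    exact tendsto_inner_hat h U 1 a.1
  · refine ContinuousLinearMap.opNorm_le_bound _ ((norm_nonneg _).trans (hB 0)) fun ξ => ?_
    exact ((piH h U a.1).le_opNorm ξ.1).trans
      (mul_le_mul_of_nonneg_right (norm_piH_le h U a.1 hB) (norm_nonneg _))
  · obtain ⟨s, -, hs⟩ := (hk _ _).2 _ isTV T hT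
    obtain ⟨y, hy, hd⟩ := dense (s (Ω1 h U A₀)) (show 0 < ε / 4 by positivity)
    choose w w0 w1 w2 w3 w4 using fun i => (hk H N).1 (y.1.1 i) (y.1.2.1 i)
    obtain ⟨W, hW⟩ : ∃ W : BddS ℕ N, W.1 = w := ⟨⟨w, w0, 1, w3⟩, rfl⟩
    subst hW
    have e1 : W * (1 + star y.1 * y.1) = 1 := Subtype.ext (funext w1)
    have e2 : (1 + star y.1 * y.1) * W = 1 := Subtype.ext (funext w2)
    obtain ⟨W', rfl⟩ : ∃ W' : A1 h U A₀, W'.1 = W :=
      ⟨⟨W, inv_mem (add_mem (one_mem _) (mul_mem (star_mem hy) hy)) e1 e2⟩, rfl⟩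
    have f1 : W' * (1 + star y * y) = 1 := Subtype.ext e1
    have f2 : (1 + star y * y) * W' = 1 := Subtype.ext e2
    refine ⟨(2 : ℂ) • (y * W'), w4, ?_⟩
    rw [map_smul, map_mul]
    refine (hs _ (rL_mem y) _ ?_ ?_).trans ?_
    · simpa only [map_mul, map_add, map_one, map_star] using congrArg (rL h U A₀) f1
    · simpa only [map_mul, map_add, map_one, map_star] using congrArg (rL h U A₀) f2
    · rw [sub_apply, norm_sub_rev]
      linarith

end Pool.Agent.MP_755d6b_an.H27
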