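import Pool.Agent.MP_755d6b_an.H27.Spec

/-! Almost unital systems of matrix units (row Units, helper79). -/

namespace Pool.Agent.MP_755d6b_an.H27

open Pool.Agent.MP_755d6b_an.H98 Finset
open scoped InnerProductSpace

namespace UnitsP

variable {A : Type} [Ring A] [StarRing A] [Algebra ℂ A] [StarModule ℂ A]
  {F : Type} [Field F] [Fintype F] [DecidableEq F] (ψ : AddChar F ℂ) (Λ : Equiv.Perm F → A)

/-- The spectral projections of the translation group. -/
noncomputable def P (s : F) : A :=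
  ((Fintype.card F : ℂ)⁻¹) • ∑ b, ψ (b * s) • Λ (Equiv.addLeft b)

variable {ψ Λ}

omit [StarRing A] [StarModule ℂ A] [DecidableEq F] in
theorem T_mul_P (hm : ∀ a b, Λ (a * b) = Λ a * Λ b) (a s : F) :
    Λ (Equiv.addLeft a) * P ψ Λ s = ψ (-(a * s)) • P ψ Λ s := by
  unfold P
  rw [mul_smul_comm, smul_comm (ψ (-(a * s)))]
  congr 1
  rw [mul_sum, smul_sum]
  refine Fintype.sum_equiv (Equiv.addLeft a) _ _ fun b => ?_
  rw [mul_smul_comm, ← hm, smul_smul, ← AddChar.map_add_eq_mul, Equiv.coe_addLeft,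
    ← Equiv.addLeft_add]
  congr 2
  ring

omit [StarRing A] [StarModule ℂ A] in
theorem P_mul_P (hψ : ψ.IsPrimitive) (hm : ∀ a b, Λ (a * b) = Λ a * Λ b) (s s' : F) :
    P ψ Λ s * P ψ Λ s' = if s = s' then P ψ Λ s' else 0 := by
  have h0 : (Fintype.card F : ℂ) ≠ 0 := by exact_mod_cast Fintype.card_ne_zero
  have h1 : ∀ b : F, ψ (b * s) * ψ (-(b * s')) = ψ (b * (s - s')) := fun b => by
    rw [← AddChar.map_add_eq_mul]
    congr 1
    ring
  conv_lhs => rw [P]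
  simp only [smul_mul_assoc, sum_mul, T_mul_P hm, smul_smul, h1]
  rw [← sum_smul, AddChar.sum_mulShift _ hψ, smul_smul]
  by_cases h : s = s'
  · simp [h, h0]
  · simp [h, sub_eq_zero]

omit [DecidableEq F] in
theorem star_P (hs : ∀ a, star (Λ a) = Λ a⁻¹) (s : F) : star (P ψ Λ s) = P ψ Λ s := by
  unfold P
  rw [star_smul, star_sum]
  congr 1
  · simp
  · refine Fintype.sum_equiv (Equiv.neg F) _ _ fun b => ?_
    have h : (Equiv.addLeft b)⁻¹ = Equiv.addLeft (-b) := by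
      ext x
      simp [Equiv.Perm.inv_def]
    rw [star_smul, hs, Equiv.neg_apply, neg_mul, AddChar.map_neg_eq_conj, h]
    rfl

omit [StarRing A] [StarModule ℂ A] [DecidableEq F] in
theorem M_mul_P (hm : ∀ a b, Λ (a * b) = Λ a * Λ b) (u : Fˣ) (s : F) :
    Λ u.mulLeft * P ψ Λ (u * s) = P ψ Λ s * Λ u.mulLeft := by
  unfold P
  rw [mul_smul_comm, smul_mul_assoc, mul_sum, sum_mul]
  congr 1
  refine Fintype.sum_equiv u.mulLeft _ _ fun b => ?_
  rw [mul_smul_comm, smul_mul_assoc, ← hm, ← hm]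
  congr 2
  · simp only [Units.mulLeft_apply]
    ring
  · ext x
    simp [mul_add]

theorem units_mul (hψ : ψ.IsPrimitive) (hm : ∀ a b, Λ (a * b) = Λ a * Λ b) (h1 : Λ 1 = 1)
    (hs : ∀ a, star (Λ a) = Λ a⁻¹) (y y' : Fˣ) :
    P ψ Λ 1 * Λ y.mulLeft * star (P ψ Λ 1 * Λ y'.mulLeft) = if y = y' then P ψ Λ 1 else 0 := by
  have h2 : y.mulLeft * y'.mulLeft⁻¹ = (y * y'⁻¹).mulLeft := by
    ext x
    simp [Equiv.Perm.inv_def, mul_assoc]
  have h3 := M_mul_P (ψ := ψ) hm (y * y'⁻¹) ((y * y'⁻¹)⁻¹ : Fˣ)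
  rw [Units.mul_inv] at h3
  rw [star_mul, star_P hs, hs, mul_assoc, ← mul_assoc (Λ y.mulLeft), ← hm, h2, h3, ← mul_assoc,
    P_mul_P hψ hm]
  by_cases h : y = y'
  · subst h
    have h4 : (1 : Fˣ).mulLeft = 1 := by
      ext x
      simp
    simp [h4, h1]
  · have h5 : ¬ (1 : F) = ((y * y'⁻¹)⁻¹ : Fˣ) := fun e => h (by
      rw [eq_comm, Units.val_eq_one, inv_eq_one, mul_inv_eq_one] at e
      exact e)
    rw [if_neg h5, if_neg h, zero_mul]

theorem trace_P {G : Type} [Group G] {ι : Equiv.Perm F →* G} (hι : Function.Injective ι) (s : F) :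
    vecState (dl 1) (P ψ (fun a => lam (ι a)) s) = (Fintype.card F : ℂ)⁻¹ := by
  classical
  have h : ∀ b : F, vecState (dl (1 : G)) (lam (ι (Equiv.addLeft b))) = if b = 0 then 1 else 0 := by
    intro b
    change ⟪dl 1, lam _ (dl 1)⟫_ℂ = _
    rw [lam_dl, inner_dl, dl_apply, mul_one]
    refine if_congr ⟨fun e => ?_, fun e => ?_⟩ rfl rfl
    · have h1 : Equiv.addLeft b = 1 := hι (by rw [map_one]; exact e.symm)
      simpa using congrArg (fun σ : Equiv.Perm F => σ 0) h1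
    · rw [e, Equiv.addLeft_zero, map_one]
  unfold P
  simp [map_sum, h]

end UnitsP

open UnitsP

theorem units : UnitsStmt := by
  intro G _ hG n hn ε hε
  obtain ⟨q, hq, hlt, hmod⟩ := Nat.exists_prime_gt_modEq_one (k := n) ⌈1 / ε⌉₊ hn.ne'
  have : Fact q.Prime := ⟨hq⟩
  obtain ⟨ι, hι⟩ := hG (ZMod q)
  have hψ := ZMod.isPrimitive_stdAddChar q
  have hm : ∀ a b, lam (ι (a * b)) = lam (ι a) * lam (ι b) := fun a b => by rw [map_mul, lam_mul]
  have h1 : lam (ι 1) = 1 := by rw [map_one, lam_one]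
  have hs : ∀ a, star (lam (ι a)) = lam (ι a⁻¹) := fun a => by rw [star_lam, map_inv]
  have hc : Fintype.card (ZMod q)ˣ = q - 1 := ZMod.card_units q
  have hq0 : (0 : ℝ) < q := by exact_mod_cast hq.pos
  have hc' : (Fintype.card (ZMod q)ˣ : ℝ) * (q : ℝ)⁻¹ = 1 - (q : ℝ)⁻¹ := by
    rw [hc, Nat.cast_sub hq.one_le]
    field_simp
    simp
  have hp : P ZMod.stdAddChar (fun a => lam (ι a)) 1 ∈ LG G :=
    (LG G).toStarSubalgebra.smul_mem (sum_mem fun b _ =>
      (LG G).toStarSubalgebra.smul_mem (lam_mem _) _) _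
  refine ⟨(ZMod q)ˣ, inferInstance, inferInstance,
    fun y => P ZMod.stdAddChar (fun a => lam (ι a)) 1 * lam (ι y.mulLeft),
    P ZMod.stdAddChar (fun a => lam (ι a)) 1, (q : ℝ)⁻¹, ?_, fun y => mul_mem hp (lam_mem _),
    units_mul (Λ := fun a => lam (ι a)) hψ hm h1 hs, fun y => ?_, ?_, ?_, ?_⟩
  · rw [hc]
    exact (Nat.modEq_iff_dvd' hq.one_le).1 hmod.symm
  · rw [← mul_assoc, P_mul_P (Λ := fun a => lam (ι a)) hψ hm, if_pos rfl]
  · rw [trace_P hι]
    simp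
  · have h2 : 1 / ε < q := (Nat.le_ceil _).trans_lt (by exact_mod_cast hlt)
    have h3 : (q : ℝ)⁻¹ < ε := by
      rw [one_div] at h2
      exact inv_lt_of_inv_lt₀ hε h2
    rw [hc']
    linarith
  · rw [hc']
    have := inv_pos.2 hq0
    linarith

end Pool.Agent.MP_755d6b_an.H27
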